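import Mathlib

/-!
# Definitions for MP_9abc7c_lc

The splitting number, the bounding number, MAD families, Sacks forcing and Sacks
indestructibility.

The binary tree `2^{<ω}` is the type `List Bool`, where a list is read from right to left:
`i :: s` is the one-step extension of the node `s` by the bit `i`, `[]` is the root, and
`s <:+ t` (Mathlib's `s` is a suffix of `t`) says that the node `s` is an initial segment of
the node `t`.
-/

namespace Pool.Agent.Work.MP_9abc7c_lc

open Set Cardinal

/-- The splitting number: the least size of a family `𝒮` of subsets of `ω` such that every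
infinite `X` is split by some `S ∈ 𝒮`. -/
noncomputable def splittingNumber : Cardinal :=
  sInf {κ | ∃ 𝒮 : Set (Set ℕ), #𝒮 = κ ∧
    ∀ X : Set ℕ, X.Infinite → ∃ S ∈ 𝒮, (X ∩ S).Infinite ∧ (X \ S).Infinite}

/-- The bounding number: the least size of a family `F` of functions `ω → ω` that is
unbounded under eventual domination. -/
noncomputable def boundingNumber : Cardinal :=
  sInf {κ | ∃ F : Set (ℕ → ℕ), #F = κ ∧
    ¬ ∃ g : ℕ → ℕ, ∀ f ∈ F, ∃ N, ∀ n ≥ N, f n ≤ g n}

/-- MAD families: infinite families of infinite sets of natural numbers which are almost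
disjoint and maximal with this property. -/
def IsMAD (𝒜 : Set (Set ℕ)) : Prop :=
  𝒜.Infinite ∧ (∀ A ∈ 𝒜, A.Infinite) ∧ (∀ A ∈ 𝒜, ∀ B ∈ 𝒜, A ≠ B → (A ∩ B).Finite) ∧
    ∀ X : Set ℕ, X.Infinite → ∃ A ∈ 𝒜, (X ∩ A).Infinite

/-- The conditions of Sacks forcing: nonempty sets `p` of nodes that are closed under initial
segments and perfect, i.e. every node in `p` has an extension in `p` both of whose one-step
extensions are in `p`. -/
structure SacksCond where
  carrier : Set (List Bool)
  nonempty : carrier.Nonempty
  closed : ∀ s t, s <:+ t → t ∈ carrier → s ∈ carrier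
  perfect : ∀ s ∈ carrier, ∃ t, s <:+ t ∧ ∀ i : Bool, i :: t ∈ carrier

/-- `q` is stronger than `p` if `q ⊆ p`. -/
instance : LE SacksCond := ⟨fun q p => q.carrier ⊆ p.carrier⟩

/-- A (nice) name for a subset of `ω`: for every `n` a set of conditions (which force `n` into
the named set).  Every name for a subset of `ω` is equivalent to one of these. -/
abbrev Name := ℕ → Set SacksCond

/-- `p` forces that `n` is in the set named by `X`: the conditions which are below an element of
`X n` are dense below `p`. -/
def ForcesMem (p : SacksCond) (n : ℕ) (X : Name) : Prop :=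
  ∀ q ≤ p, ∃ r ≤ q, ∃ s ∈ X n, r ≤ s

/-- `p` forces that `n` is not in the set named by `X`. -/
def ForcesNotMem (p : SacksCond) (n : ℕ) (X : Name) : Prop :=
  ∀ q ≤ p, ¬ ForcesMem q n X

/-- `p` forces that the set named by `X` is infinite, i.e. that for all `N` there is `n ≥ N`
in it. -/
def ForcesInfinite (p : SacksCond) (X : Name) : Prop :=
  ∀ N : ℕ, ∀ q ≤ p, ∃ r ≤ q, ∃ n ≥ N, ForcesMem r n X

/-- `p` forces that the intersection of `A` with the set named by `X` is finite, i.e. that there
is `N` such that no `n ≥ N` with `n ∈ A` is in it. -/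
def ForcesInterFinite (p : SacksCond) (A : Set ℕ) (X : Name) : Prop :=
  ∀ q ≤ p, ∃ r ≤ q, ∃ N : ℕ, ∀ n ≥ N, n ∈ A → ForcesNotMem r n X

/-- Sacks forcing does not destroy the maximality of `𝒜`: no condition forces a name to be an
infinite subset of `ω` almost disjoint from every member of `𝒜`. -/
def SacksIndestructible (𝒜 : Set (Set ℕ)) : Prop :=
  ¬ ∃ (p : SacksCond) (X : Name), ForcesInfinite p X ∧ ∀ A ∈ 𝒜, ForcesInterFinite p A X

end Pool.Agent.Work.MP_9abc7c_lc
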