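import Pool.Agent.Work.MP_9abc7c_lc.Ctx

/-!
Adjacency of pieces: if the ranges of two pieces have infinite intersection then limits agree,
and the scale indices are ordered.
-/

namespace Pool.Agent.Work.MP_9abc7c_lc

open Set Cardinal

lemma adj_exists_through (t : List Bool) : ∃ x, OnBr t x := by
  induction t with
  | nil => exact ⟨fun _ => false, rfl⟩
  | cons i s ih =>
    obtain ⟨x, hx⟩ := ih
    refine ⟨Function.update x s.length i, ?_⟩
    show Function.update x s.length i s.length :: br (Function.update x s.length i) s.length = _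
    have h1 : br (Function.update x s.length i) s.length = br x s.length := by
      rw [br_eq_iff]
      intro k hk
      rw [Function.update_of_ne hk.ne]
    rw [h1, hx]
    simp

/-- the ultrafilter on an infinite intersection of two ranges -/
lemma adj_ultra {h h' : List Bool → ℕ} (hinf : (range h ∩ range h').Infinite) :
    ∃ (α : Type) (U : Ultrafilter α) (t t' : α → List Bool) (v : α → ℕ) (x x' : ℕ → Bool),
      (∀ a, h (t a) = v a) ∧ (∀ a, h' (t' a) = v a) ∧ Function.Injective v ∧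
      (∀ s : Set α, s.Finite → ∀ᶠ a in U, a ∉ s) ∧
      (∀ n, ∀ᶠ a in U, br x n <:+ t a) ∧ (∀ n, ∀ᶠ a in U, br x' n <:+ t' a) := by
  have hi : Infinite ↑(range h ∩ range h') := hinf.to_subtype
  choose t ht using fun a : ↑(range h ∩ range h') => a.2.1
  choose t' ht' using fun a : ↑(range h ∩ range h') => a.2.2
  let U : Ultrafilter ↑(range h ∩ range h') := Filter.hyperfilter _
  have hlen : ∀ (k : List Bool → ℕ) (u : ↑(range h ∩ range h') → List Bool)
      (_ : ∀ a, k (u a) = a), ∀ n, ∀ᶠ a in U, n ≤ (u a).length := by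
    intro k u hu n
    have : {a | ¬ n ≤ (u a).length}.Finite := by
      have h1 : {a | ¬ n ≤ (u a).length} ⊆ u ⁻¹' {t | t.length < n} := by
        intro a ha
        exact not_le.mp ha
      refine Set.Finite.subset ?_ h1
      refine (List.finite_length_lt Bool n).preimage ?_
      intro a _ b _ hab
      have := hu a
      rw [hab, hu b] at this
      exact Subtype.ext this.symm
    exact Filter.mem_hyperfilter_of_finite_compl this
  obtain ⟨x, hx⟩ := ultra_branch U t (hlen h t ht)
  obtain ⟨x', hx'⟩ := ultra_branch U t' (hlen h' t' ht')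
  refine ⟨_, U, t, t', fun a => a.1, x, x', ht, ht', Subtype.val_injective, ?_, hx, hx'⟩
  intro s hs
  refine Filter.mem_hyperfilter_of_finite_compl (hs.subset ?_)
  intro a ha
  by_contra hcon
  exact ha hcon

lemma adj_agree {E : Set ℕ} {α : Type} {U : Ultrafilter α} {h : List Bool → ℕ} {t : α → List Bool}
    {v : α → ℕ} {x : ℕ → Bool} (ht : ∀ a, h (t a) = v a) (hx : ∀ n, ∀ᶠ a in U, br x n <:+ t a)
    {c : (ℕ → Bool) → Bool} (hl : LimAt E h c) : ∀ᶠ a in U, (v a ∈ E ↔ c x = true) := by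
  obtain ⟨n, hn⟩ := hl
  filter_upwards [hx n] with a ha
  rw [← ht a]
  exact hn x (t a) ha

theorem adj_dis {Ω : Type} [LinearOrder Ω] {C : Ctx Ω} {μ : Ω} {p' p : Piece C}
    (h1 : μ ≤ p'.γ) (h2 : μ ≤ p.γ) (h : Dis μ p' p) : (range p'.k ∩ range p.k).Finite := by
  by_contra hinf
  obtain ⟨α, U, t, t', v, x, x', ht, ht', hv, hU, hx, hx'⟩ := adj_ultra hinf
  apply h x x'
  intro a ha
  obtain ⟨b, hb, hb'⟩ := ((adj_agree ht hx (p'.gt.lim a (ha.trans_le h1))).and
    (adj_agree ht' hx' (p.gt.lim a (ha.trans_le h2)))).exists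
  rw [Bool.eq_iff_iff]
  exact hb.symm.trans hb'

theorem adj_lower {Ω : Type} [LinearOrder Ω] {C : Ctx Ω} {p' p : Piece C} (hγ : p'.γ < p.γ)
    (hr : p.γ ≤ p'.γ₂ → ∀ x' x, (∀ a < p'.γ, p'.G x' a = p.G x a) →
      ¬ ∀ a < p.γ, p'.η x' a = p.G x a)
    (hinf : (range p'.k ∩ range p.k).Infinite) :
    p'.σ < p.j ∧ ∃ x' x, ∀ a < p'.γ, p'.G x' a = p.G x a := by
  obtain ⟨α, U, t', t, v, x', x, ht', ht, hv, hU, hx', hx⟩ := adj_ultra hinf
  have hag : ∀ a < p'.γ, p'.G x' a = p.G x a := by
    intro a ha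
    obtain ⟨b, hb, hb'⟩ := ((adj_agree ht' hx' (p'.gt.lim a ha)).and
      (adj_agree ht hx (p.gt.lim a (ha.trans hγ)))).exists
    rw [Bool.eq_iff_iff]
    exact hb.symm.trans hb'
  refine ⟨?_, x', x, hag⟩
  by_contra hσ
  rw [not_lt] at hσ
  have htinj : Function.Injective t := by
    intro a b hab
    apply hv
    rw [← ht a, ← ht b, hab]
  -- the claim
  have claim : ∀ γ' < p.γ, ∀ z ∈ C.Z γ', ∀ᶠ a in U, ∀ m, C.H p.j m ≤ v a →
      (v a ∈ C.e (z m) ↔ p.G x (z m) = true) := by
    intro γ' hγ' z hz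
    have hfin := p.close γ' hγ' z hz
    obtain ⟨n, hn⟩ := p.gt.uc γ' hγ'
    have h1 := hU _ (hfin.preimage (f := t) htinj.injOn)
    filter_upwards [h1, hx n] with a ha hb m hm
    have ha' : ∀ x, OnBr (t a) x → ∀ m, C.H p.j m ≤ p.k (t a) →
        (p.k (t a) ∈ C.e (z m) ↔ p.G x (z m) = true) := by
      by_contra hcon
      exact ha hcon
    obtain ⟨y, hy⟩ := adj_exists_through (t a)
    have h2 := ha' y hy m (by rw [ht a]; exact hm)
    rw [ht a] at h2
    rw [h2]
    have h3 : br y n = br x n := by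
      have hl : n ≤ (t a).length := by
        have := hb.length_le
        simpa using this
      exact eq_of_suffix_eq (hy.br_suffix hl) hb (by simp)
    rw [hn y x h3 (z m) (C.Z_lt γ' z hz m)]
  -- comparison of the scales
  have hscale : ∀ᶠ a in U, ∀ m, C.H p'.σ m ≤ v a → C.H p.j m ≤ v a := by
    obtain ⟨N, hN⟩ := C.incr p.j p'.σ hσ
    have hfin : (v ⁻¹' (Iio (C.H p.j N))).Finite :=
      (Set.finite_Iio _).preimage hv.injOn
    filter_upwards [hU _ hfin] with a ha m hm
    have ha' : C.H p.j N ≤ v a := not_lt.1 ha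
    rcases le_total N m with h | h
    · exact (hN m h).trans hm
    · exact ((C.mono p.j).monotone h).trans ha'
  by_cases hcase : ∀ᶠ a in U, OnBr (t' a) x'
  · -- second case
    have hη : ∀ b < p'.γ₂, ∀ᶠ a in U, (v a ∈ C.e b ↔ p'.η x' b = true) := by
      intro b hb
      obtain ⟨N, hN⟩ := p'.brfar.2.1 x' b hb
      filter_upwards [hcase, hx' N] with a ha hb'
      have hl : N ≤ (t' a).length := by
        have := hb'.length_le
        simpa using this
      have h1 := hN (t' a).length hl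
      have h2 : br x' (t' a).length = t' a := ha
      rw [h2, ht' a] at h1
      exact h1
    have hη' : ∀ b < p'.γ₂, b < p.γ → p'.η x' b = p.G x b := by
      intro b hb hb2
      obtain ⟨a, ha, ha'⟩ := ((hη b hb).and (adj_agree ht hx (p.gt.lim b hb2))).exists
      rw [Bool.eq_iff_iff]
      exact ha.symm.trans ha'
    rcases le_or_gt p.γ p'.γ₂ with hle | hlt
    · exact hr hle x' x hag fun a ha => hη' a (ha.trans_le hle) ha
    · obtain ⟨a, ha1, ha2, ha3⟩ := ((claim p'.γ₂ hlt p'.z₂ p'.brfar.1).and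
        (hscale.and hcase)).exists
      obtain ⟨m, hm1, hm2⟩ := p'.brfar.2.2 x' (t' a).length
      have h2 : br x' (t' a).length = t' a := ha3
      rw [h2, ht' a] at hm1 hm2
      have h3 := ha1 m (ha2 m hm1)
      have h4 : p'.z₂ m < p'.γ₂ := C.Z_lt _ _ p'.brfar.1 m
      rw [hη' _ h4 (h4.trans hlt)] at hm2
      exact hm2 h3
  · have hcase' : ∀ᶠ a in U, ¬ OnBr (t' a) x' := by
      rw [Ultrafilter.eventually_not]; exact hcase
    obtain ⟨a, ha1, ha2, ha3⟩ := ((claim p'.γ hγ p'.z₁ p'.offfar.1).and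
        (hscale.and hcase')).exists
    have hdev : ∃ (s : List Bool) (i : Bool), (i :: s) <:+ t' a ∧ OnBr ((!i) :: s) x' := by
      rcases node_tri (t' a) (br x' (t' a).length) with h | h | ⟨m, i, h1, h2⟩
      · exfalso
        apply ha3
        exact (h.eq_of_length (by simp)).symm
      · exfalso
        apply ha3
        exact h.eq_of_length (by simp)
      · exact ⟨m, i, h1, (onBr_br x' _).suffix h2⟩
    obtain ⟨s, i, hs1, hs2⟩ := hdev
    obtain ⟨m, hm1, hm2⟩ := p'.offfar.2 s i (t' a) x' hs1 hs2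
    rw [ht' a] at hm1 hm2
    have h3 := ha1 m (ha2 m hm1)
    have h4 : p'.z₁ m < p'.γ := C.Z_lt _ _ p'.offfar.1 m
    rw [hag _ h4] at hm2
    exact hm2 h3

end Pool.Agent.Work.MP_9abc7c_lc
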