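import Pool.Agent.Work.MP_9abc7c_lc.Fusion

/-!
The recursive construction of the almost disjoint family from a thinned out family.
-/

namespace Pool.Agent.Work.MP_9abc7c_lc

open Set

lemma avoid_countable' {ι : Type} [Countable ι] {f : List Bool → ℕ} (B : ι → Set ℕ)
    (hB : ∀ i, ¬ Meets (B i) f) : ∃ g, Le g f ∧ ∀ i, (range g ∩ B i).Finite := by
  cases isEmpty_or_nonempty ι with
  | inl h => exact ⟨f, Le.refl f, fun i => isEmptyElim i⟩
  | inr h =>
    obtain ⟨seq, hseq⟩ := exists_surjective_nat ι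
    obtain ⟨g, hg, hD⟩ := avoid_countable (f := f) (fun n => B (seq n)) (fun n => hB _)
    refine ⟨g, hg, fun i => ?_⟩
    obtain ⟨n, rfl⟩ := hseq i
    exact hD n

lemma refine_partition (C : ℕ → Set ℕ) (f : List Bool → ℕ) :
    ∃ g, Le g f ∧ ((∃ n, range g ⊆ C n) ∨ ∀ n, (range g ∩ C n).Finite) := by
  by_cases h : ∃ n, Meets (C n) f
  · obtain ⟨n, g, hg, hn⟩ := h
    exact ⟨g, hg, Or.inl ⟨n, hn⟩⟩
  · push Not at h
    obtain ⟨g, hg, hn⟩ := avoid_countable' C h
    exact ⟨g, hg, Or.inr hn⟩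

lemma exists_rec2 {I X : Type} [Nonempty X] {r : I → I → Prop} (wf : WellFounded r)
    (C : (i : I) → ({j // r j i} → X) → X → Prop)
    (step : ∀ (g : I → X) (i : I), (∀ j, r j i → C j (fun j' => g j'.1) (g j)) →
      ∃ x, C i (fun j => g j.1) x) :
    ∃ g : I → X, ∀ i, C i (fun j => g j.1) (g i) := by
  classical
  let g : I → X := wf.fix (fun i G => if h : ∃ x, C i (fun j => G j.1 j.2) x then h.choose
    else Classical.arbitrary X)
  have hg : ∀ i, g i = if h : ∃ x, C i (fun j => g j.1) x then h.choose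
      else Classical.arbitrary X := by
    intro i
    exact wf.fix_eq _ i
  refine ⟨g, fun i => ?_⟩
  induction i using wf.induction with
  | _ i ih =>
    have hex := step g i ih
    rw [hg i, dif_pos hex]
    exact hex.choose_spec

lemma phase2 {Ω : Type} [LinearOrder Ω] [WellFoundedLT Ω]
    (ρ : {f : List Bool → ℕ // FTO f} → Ω) (k : {f : List Bool → ℕ // FTO f} → List Bool → ℕ)
    (hk : ∀ f, Le (k f) f)
    (h1 : ∀ f f', f ≠ f' → ρ f = ρ f' → (range (k f) ∩ range (k f')).Finite)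
    (h2 : ∀ f, {f' | ρ f' < ρ f ∧ (range (k f) ∩ range (k f')).Infinite}.Countable)
    (C : ℕ → Set ℕ) :
    ∃ 𝒜 : Set (Set ℕ), (∀ A ∈ 𝒜, A.Infinite) ∧
      (∀ A ∈ 𝒜, ∀ B ∈ 𝒜, A ≠ B → (A ∩ B).Finite) ∧
      (∀ A ∈ 𝒜, (∃ n, A ⊆ C n) ∨ ∀ n, (A ∩ C n).Finite) ∧
      ∀ f, FTO f → ∃ A ∈ 𝒜, Meets A f := by
  classical
  have hwf : WellFounded (fun f' f : {f : List Bool → ℕ // FTO f} => ρ f' < ρ f) :=
    InvImage.wf ρ wellFounded_lt
  obtain ⟨d, hd⟩ := exists_rec2 (X := Option (List Bool → ℕ)) hwf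
    (fun f g x => ((∃ j g', g j = some g' ∧ Meets (range g') (k f)) ∧ x = none) ∨
      ∃ g₀, x = some g₀ ∧ Le g₀ (k f) ∧ (∀ j g', g j = some g' → (range g₀ ∩ range g').Finite) ∧
        ((∃ n, range g₀ ⊆ C n) ∨ ∀ n, (range g₀ ∩ C n).Finite))
    (by
      intro g f ih
      by_cases hm : ∃ (j : {f' // ρ f' < ρ f}) (g' : List Bool → ℕ),
        g j.1 = some g' ∧ Meets (range g') (k f)
      · exact ⟨none, Or.inl ⟨hm, rfl⟩⟩
      push Not at hm
      have hcount := (h2 f).to_subtype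
      let B : {f' | ρ f' < ρ f ∧ (range (k f) ∩ range (k f')).Infinite} → Set ℕ :=
        fun j => (g j.1).elim ∅ (fun g' => range g')
      obtain ⟨g₁, hg₁, hB⟩ := avoid_countable' (f := k f) B (by
        intro j
        cases hgj : g j.1 with
        | none =>
          simp only [B, hgj, Option.elim_none]
          rintro ⟨u, _, hu⟩
          exact hu ⟨[], rfl⟩
        | some g' =>
          simp only [B, hgj, Option.elim_some]
          exact hm ⟨j.1, j.2.1⟩ g' hgj)
      obtain ⟨g₀, hg₀, hpart⟩ := refine_partition C g₁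
      refine ⟨some g₀, Or.inr ⟨g₀, rfl, hg₀.trans hg₁, ?_, hpart⟩⟩
      intro j g' hj
      replace hj : g j.1 = some g' := hj
      by_cases hinf : (range (k f) ∩ range (k j.1)).Infinite
      · have := hB ⟨j.1, j.2, hinf⟩
        simp only [B, hj, Option.elim_some] at this
        exact this.subset (inter_subset_inter_left _ hg₀.range)
      · have hfin : (range (k f) ∩ range (k j.1)).Finite := not_infinite.mp hinf
        refine hfin.subset (inter_subset_inter (hg₀.trans hg₁).range ?_)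
        rcases ih j.1 j.2 with ⟨-, h⟩ | ⟨g₂, h, hle, -⟩
        · rw [h] at hj; simp at hj
        · rw [h] at hj
          simp only [Option.some.injEq] at hj
          rw [← hj]
          exact hle.range)
  have hsome : ∀ f g, d f = some g → Le g (k f) ∧
      (∀ f' g', ρ f' < ρ f → d f' = some g' → (range g ∩ range g').Finite) ∧
      ((∃ n, range g ⊆ C n) ∨ ∀ n, (range g ∩ C n).Finite) := by
    intro f g hfg
    rcases hd f with ⟨-, h⟩ | ⟨g₂, h, hle, hfin, hpart⟩
    · rw [h] at hfg; simp at hfg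
    · rw [h] at hfg
      simp only [Option.some.injEq] at hfg
      subst hfg
      exact ⟨hle, fun f' g' hlt hg' => hfin ⟨f', hlt⟩ g' hg', hpart⟩
  refine ⟨{A | ∃ f g, d f = some g ∧ A = range g}, ?_, ?_, ?_, ?_⟩
  · rintro _ ⟨f, g, hfg, rfl⟩
    exact (f.2.le ((hsome f g hfg).1.trans (hk f))).range_infinite
  · rintro _ ⟨f, g, hfg, rfl⟩ _ ⟨f', g', hfg', rfl⟩ hne
    rcases lt_trichotomy (ρ f) (ρ f') with hlt | heq | hlt
    · rw [inter_comm]
      exact (hsome f' g' hfg').2.1 f g hlt hfg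
    · have hne' : f ≠ f' := by
        intro e
        subst e
        rw [hfg] at hfg'
        simp only [Option.some.injEq] at hfg'
        exact hne (by rw [hfg'])
      exact (h1 f f' hne' heq).subset
        (inter_subset_inter (hsome f g hfg).1.range (hsome f' g' hfg').1.range)
    · exact (hsome f g hfg).2.1 f' g' hlt hfg'
  · rintro _ ⟨f, g, hfg, rfl⟩
    exact (hsome f g hfg).2.2
  · intro f hf
    rcases hd ⟨f, hf⟩ with ⟨⟨j, g', hj, hm⟩, -⟩ | ⟨g, hfg, hle, -⟩
    · exact ⟨range g', ⟨j.1, g', hj, rfl⟩, hm.of_le (hk ⟨f, hf⟩)⟩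
    · exact ⟨range g, ⟨_, g, hfg, rfl⟩, g, hle.trans (hk ⟨f, hf⟩), Subset.rfl⟩

end Pool.Agent.Work.MP_9abc7c_lc
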