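import Pool.Agent.Work.MP_9abc7c_lc.Phase1
import Pool.Agent.Work.MP_9abc7c_lc.Phase2
import Pool.Agent.Work.MP_9abc7c_lc.Defs

/-!
The almost disjoint family meeting every finite-to-one function.
-/

namespace Pool.Agent.Work.MP_9abc7c_lc

open Set Cardinal

lemma exists_surj_of_card_le {X Y : Type} [Nonempty Y] (h : #Y ≤ #X) :
    ∃ g : X → Y, Function.Surjective g := by
  obtain ⟨e⟩ := Cardinal.le_def _ _ |>.mp h
  exact ⟨Function.invFun e, Function.invFun_surjective e.injective⟩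

theorem exists_family {Ω : Type} [LinearOrder Ω] [WellFoundedLT Ω] (hΩ : #Ω = ℵ₁)
    (hc : ∀ i : Ω, (Iio i).Countable)
    (hs : ∃ 𝒮 : Set (Set ℕ), #𝒮 ≤ ℵ₁ ∧
      ∀ X : Set ℕ, X.Infinite → ∃ S ∈ 𝒮, (X ∩ S).Infinite ∧ (X \ S).Infinite)
    (hb : ∃ F : Set (ℕ → ℕ), #F ≤ ℵ₁ ∧ ¬ ∃ g : ℕ → ℕ, ∀ f ∈ F, ∃ N, ∀ n ≥ N, f n ≤ g n)
    (C : ℕ → Set ℕ) :
    ∃ 𝒜 : Set (Set ℕ), (∀ A ∈ 𝒜, A.Infinite) ∧
      (∀ A ∈ 𝒜, ∀ B ∈ 𝒜, A ≠ B → (A ∩ B).Finite) ∧
      (∀ A ∈ 𝒜, (∃ n, A ⊆ C n) ∨ ∀ n, (A ∩ C n).Finite) ∧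
      ∀ f, FTO f → ∃ A ∈ 𝒜, Meets A f := by
  classical
  have hle : #{f : List Bool → ℕ // FTO f} ≤ 𝔠 := by
    refine (Cardinal.mk_subtype_le _).trans ?_
    simp
  rcases Cardinal.aleph_one_le_continuum.eq_or_lt with hCH | hlt
  · -- the continuum hypothesis
    rw [← hCH, ← hΩ] at hle
    obtain ⟨e⟩ := Cardinal.le_def _ _ |>.mp hle
    refine phase2 (Ω := Ω) e (fun f => f.1) (fun f => Le.refl _) ?_ ?_ C
    · intro f f' hne heq
      exact absurd (e.injective heq) hne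
    · intro f
      have h1 : {f' | e f' < e f}.Countable := (hc (e f)).preimage_of_injOn e.injective.injOn
      exact h1.mono fun f' hf' => hf'.1
  · -- enumerations
    have hic : ∀ i : Ω, (Iic i).Countable := by
      intro i
      have : Iic i = insert i (Iio i) := by
        ext j; simp [le_iff_eq_or_lt]
      rw [this]
      exact (hc i).insert i
    choose ζ hζ using fun i : Ω => (hic i).exists_eq_range ⟨i, le_rfl⟩
    have hbd : ∀ S : List Bool → Ω, ∃ i, ∀ s, ∃ m, ζ i m = S s := by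
      intro S
      have hex : ∃ i, ∀ s, S s ≤ i := by
        by_contra hcon
        push Not at hcon
        have h1 : (Set.univ : Set Ω) = ⋃ s, Iio (S s) := by
          ext i
          simp only [mem_univ, mem_iUnion, mem_Iio, true_iff]
          exact hcon i
        have h2 : (Set.univ : Set Ω).Countable := by
          rw [h1]; exact countable_iUnion fun s => hc _
        have h3 : #Ω ≤ ℵ₀ := by
          rw [← Cardinal.mk_univ]
          exact Cardinal.mk_le_aleph0_iff.mpr h2.to_subtype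
        rw [hΩ] at h3
        exact absurd h3 (not_le.mpr Cardinal.aleph0_lt_aleph_one)
      obtain ⟨i, hi⟩ := hex
      refine ⟨i, fun s => ?_⟩
      have : S s ∈ range (ζ i) := by rw [← hζ i]; exact hi s
      exact this
    -- splitting family
    obtain ⟨𝒮, h𝒮, hsplit⟩ := hs
    have hne𝒮 : Nonempty 𝒮 := by
      obtain ⟨S, hS, -⟩ := hsplit Set.univ Set.infinite_univ
      exact ⟨⟨S, hS⟩⟩
    rw [← hΩ] at h𝒮
    obtain ⟨e, he⟩ := exists_surj_of_card_le h𝒮
    have he' : ∀ X : Set ℕ, X.Infinite → ∃ α, (X ∩ (e α).1).Infinite ∧ (X \ (e α).1).Infinite := by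
      intro X hX
      obtain ⟨S, hS, h1⟩ := hsplit X hX
      obtain ⟨α, hα⟩ := he ⟨S, hS⟩
      exact ⟨α, by rw [hα]; exact h1⟩
    -- unbounded family
    obtain ⟨F, hF, hunb⟩ := hb
    have hneF : Nonempty F := by
      by_contra hempty
      apply hunb
      exact ⟨fun _ => 0, fun f hf => absurd ⟨f, hf⟩ hempty⟩
    rw [← hΩ] at hF
    obtain ⟨q, hq⟩ := exists_surj_of_card_le hF
    let hh : Ω → ℕ → ℕ := fun j n => n + ∑ i ∈ Finset.range (n + 1), (q j).1 i
    have hmono : ∀ j, StrictMono (hh j) := by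
      intro j
      refine strictMono_nat_of_lt_succ fun n => ?_
      simp only [hh]
      rw [Finset.sum_range_succ _ (n + 1)]
      omega
    have hub : ∀ r : ℕ → ℕ, ∃ j, ∀ N, ∃ n ≥ N, r n < hh j n := by
      intro r
      by_contra hcon
      push Not at hcon
      apply hunb
      refine ⟨r, fun f hf => ?_⟩
      obtain ⟨j, hj⟩ := hq ⟨f, hf⟩
      obtain ⟨N, hN⟩ := hcon j
      refine ⟨N, fun n hn => le_trans ?_ (hN n hn)⟩
      have h1 : (q j).1 n ≤ ∑ i ∈ Finset.range (n + 1), (q j).1 i :=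
        Finset.single_le_sum (f := (q j).1) (fun _ _ => Nat.zero_le _)
          (Finset.mem_range.mpr (Nat.lt_succ_self n))
      rw [hj] at h1
      simp only [hh, hj]
      simp only at h1
      omega
    have hΩc : #Ω < 𝔠 := by rw [hΩ]; exact hlt
    -- stages
    have hne : Nonempty (Ω × Ω × Ω × Ω) := by
      have : Nonempty Ω := by
        rw [← Cardinal.mk_ne_zero_iff, hΩ]
        exact (Cardinal.aleph_pos 1).ne'
      infer_instance
    have h4 : #(Ω × Ω × Ω × Ω) ≤ #Ω := by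
      simp only [Cardinal.mk_prod, Cardinal.lift_id, hΩ]
      have h0 : ℵ₀ ≤ ℵ₁ := Cardinal.aleph0_le_aleph 1
      rw [Cardinal.mul_eq_self h0, Cardinal.mul_eq_self h0, Cardinal.mul_eq_self h0]
    obtain ⟨π, hπ⟩ := exists_surj_of_card_le h4
    let σ : Ω → Stage := fun ι =>
      { F := code (fun α => (e α).1) (ζ (π ι).1)
        H := hh (π ι).2.1
        χ := chi (code (fun α => (e α).1) (ζ (π ι).2.2.1)) (hh (π ι).2.2.2)
        mono := hmono _
        fin := chi_finite _ (hmono _) }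
    obtain ⟨ρ, k, hk, h1, h2⟩ := phase1 σ hc (by
      intro f hf
      obtain ⟨i, j, i', j', h, hhf, G, hG, hinj, Y, hY, hT⟩ :=
        exists_many_types hΩc ζ hbd (fun α => (e α).1) he' hmono hub hf
      obtain ⟨ι, hι⟩ := hπ (i, j, i', j')
      refine ⟨ι, h, hhf, G, ?_, hinj, Y, hY, ?_⟩
      · simp only [σ, hι]; exact hG
      · simp only [σ, hι]; exact hT)
    exact phase2 ρ k hk h1 h2 C

end Pool.Agent.Work.MP_9abc7c_lc
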