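import Mathlib

/-!
Nodes of the tree of finite 0-1 sequences are lists of booleans written from right to left:
`i :: s` is the extension of `s` by the bit `i` and `s <:+ t` says that `s` is an initial
segment of `t`.
-/

namespace Pool.Agent.Work.MP_9abc7c_lc

/-- The node `x|n` of the branch `x`. -/
def br (x : ℕ → Bool) : ℕ → List Bool
  | 0 => []
  | n + 1 => x n :: br x n

/-- The node `t` lies on the branch `z`. -/
def OnBr (t : List Bool) (z : ℕ → Bool) : Prop := br z t.length = t

/-- Embeddings of the tree of nodes. -/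
def Emb (φ : List Bool → List Bool) : Prop :=
  ∀ s, ∃ m, φ s <:+ m ∧ ∀ i, (i :: m) <:+ φ (i :: s)

@[simp] lemma br_length (x : ℕ → Bool) (n : ℕ) : (br x n).length = n := by
  induction n with
  | zero => rfl
  | succ n ih => simp [br, ih]

lemma br_suffix (x : ℕ → Bool) {m n : ℕ} (h : m ≤ n) : br x m <:+ br x n := by
  induction n, h using Nat.le_induction with
  | base => exact List.suffix_rfl
  | succ n _ ih => exact ih.trans (List.suffix_cons _ _)

lemma onBr_br (x : ℕ → Bool) (n : ℕ) : OnBr (br x n) x := by simp [OnBr]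

/-- suffixes of the same list with ordered lengths are comparable -/
lemma suffix_of_suffix_le {a b c : List Bool} (ha : a <:+ c) (hb : b <:+ c)
    (h : a.length ≤ b.length) : a <:+ b :=
  List.suffix_of_suffix_length_le ha hb h

lemma eq_of_suffix_eq {a b c : List Bool} (ha : a <:+ c) (hb : b <:+ c)
    (h : a.length = b.length) : a = b :=
  (suffix_of_suffix_le ha hb h.le).eq_of_length h

lemma OnBr.suffix {s t : List Bool} {z : ℕ → Bool} (h : OnBr t z) (hs : s <:+ t) : OnBr s z := by
  unfold OnBr at *
  have h1 : br z s.length <:+ t := by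
    rw [← h]; exact br_suffix z hs.length_le
  exact eq_of_suffix_eq h1 hs (by simp)

lemma OnBr.suffix_br {t : List Bool} {z : ℕ → Bool} (h : OnBr t z) {n : ℕ} (hn : t.length ≤ n) :
    t <:+ br z n := by
  have := br_suffix z hn
  rwa [h] at this

lemma OnBr.br_suffix {t : List Bool} {z : ℕ → Bool} (h : OnBr t z) {n : ℕ} (hn : n ≤ t.length) :
    br z n <:+ t := by
  have := Pool.Agent.Work.MP_9abc7c_lc.br_suffix z hn
  rwa [h] at this

lemma onBr_iff {t : List Bool} {z : ℕ → Bool} : OnBr t z ↔ ∃ n, t = br z n := by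
  constructor
  · intro h; exact ⟨_, h.symm⟩
  · rintro ⟨n, rfl⟩; exact onBr_br z n

/-- trichotomy for nodes -/
lemma node_tri (s t : List Bool) :
    s <:+ t ∨ t <:+ s ∨ ∃ (m : List Bool) (i : Bool), (i :: m) <:+ s ∧ ((!i) :: m) <:+ t := by
  induction s with
  | nil => exact Or.inl (List.nil_suffix)
  | cons a s ih =>
    rcases ih with h | h | ⟨m, i, h1, h2⟩
    · obtain ⟨l, rfl⟩ := h
      rcases List.eq_nil_or_concat l with rfl | ⟨l', b, rfl⟩
      · right; left; simp
      · by_cases hab : a = b
        · left; subst hab; exact ⟨l', by simp⟩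
        · right; right
          refine ⟨s, a, List.suffix_rfl, ⟨l', ?_⟩⟩
          have : (!a) = b := by cases a <;> cases b <;> simp_all
          simp [this]
    · right; left; exact h.trans (List.suffix_cons _ _)
    · right; right; exact ⟨m, i, h1.trans (List.suffix_cons _ _), h2⟩

lemma no_both {m t : List Bool} {i : Bool} (h1 : (i :: m) <:+ t) (h2 : ((!i) :: m) <:+ t) :
    False := by
  have := eq_of_suffix_eq h1 h2 (by simp)
  simp at this

/-- Two different branches split at some node. -/
lemma branch_split {x y : ℕ → Bool} (h : x ≠ y) :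
    ∃ n, br x n = br y n ∧ x n ≠ y n := by
  have hex : ∃ n, x n ≠ y n := by
    by_contra hc
    push Not at hc
    exact h (funext hc)
  classical
  refine ⟨Nat.find hex, ?_, Nat.find_spec hex⟩
  have : ∀ k, k ≤ Nat.find hex → br x k = br y k := by
    intro k
    induction k with
    | zero => intro _; rfl
    | succ k ih =>
      intro hk
      have h1 : x k = y k := by
        by_contra hne
        exact Nat.find_min hex (Nat.lt_of_succ_le hk) hne
      simp [br, h1, ih (by omega)]
  exact this _ le_rfl

lemma br_eq_iff {x y : ℕ → Bool} {n : ℕ} : br x n = br y n ↔ ∀ k < n, x k = y k := by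
  induction n with
  | zero => simp [br]
  | succ n ih =>
    simp only [br, List.cons.injEq, ih]
    constructor
    · rintro ⟨h1, h2⟩ k hk
      rcases Nat.lt_succ_iff_lt_or_eq.mp hk with h | rfl
      · exact h2 k h
      · exact h1
    · intro h
      exact ⟨h n (Nat.lt_succ_self n), fun k hk => h k (hk.trans (Nat.lt_succ_self n))⟩

lemma eq_of_br_eq {x y : ℕ → Bool} (h : ∀ n, ∃ k ≥ n, br x k = br y k) : x = y := by
  funext n
  obtain ⟨k, hk, e⟩ := h (n+1)
  exact br_eq_iff.mp e n (by omega)

/-- an increasing chain of nodes of unbounded length determines a branch -/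
lemma exists_branch (u : ℕ → List Bool) (h : ∀ n, u n <:+ u (n+1)) (hl : ∀ n, n ≤ (u n).length) :
    ∃ z, ∀ n, OnBr (u n) z := by
  have hmono : ∀ {m n}, m ≤ n → u m <:+ u n := by
    intro m n hmn
    induction n, hmn using Nat.le_induction with
    | base => exact List.suffix_rfl
    | succ n _ ih => exact ih.trans (h n)
  -- bits
  have key : ∀ k : ℕ, ∃ b : Bool, ∃ m : List Bool, m.length = k ∧ (b :: m) <:+ u (k+1) := by
    intro k
    have hk := hl (k+1)
    set t := u (k+1) with ht
    have hd : (t.drop (t.length - (k+1))).length = k + 1 := by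
      simp; omega
    have hs : t.drop (t.length - (k+1)) <:+ t := List.drop_suffix _ _
    match hh : t.drop (t.length - (k+1)), hd with
    | b :: m, hd =>
      refine ⟨b, m, by simpa using hd, ?_⟩
      rw [hh] at hs; exact hs
  choose z w hw1 hw2 using key
  refine ⟨z, ?_⟩
  have main : ∀ l, ∀ n, l ≤ (u n).length → br z l <:+ u n := by
    intro l
    induction l with
    | zero => intro n _; exact List.nil_suffix
    | succ l ih =>
      intro n hn
      have e1 : br z l = w l := by
        have := ih (l+1) (by have := hl (l+1); omega)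
        refine eq_of_suffix_eq this ((List.suffix_cons _ _).trans (hw2 l)) (by simp [hw1])
      have e2 : br z (l+1) = z l :: w l := by simp [br, e1]
      rw [e2]
      rcases le_total n (l+1) with h1 | h1
      · have := hmono h1
        exact suffix_of_suffix_le (hw2 l) this (by simp [hw1]; omega)
      · exact (hw2 l).trans (hmono h1)
  intro n
  exact eq_of_suffix_eq (main _ n le_rfl) List.suffix_rfl (by simp)

namespace Emb

variable {φ ψ : List Bool → List Bool}

lemma step (h : Emb φ) (i : Bool) (s : List Bool) : φ s <:+ φ (i :: s) := by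
  obtain ⟨m, h1, h2⟩ := h s
  exact (h1.trans (List.suffix_cons i m)).trans (h2 i)

lemma step_len (h : Emb φ) (i : Bool) (s : List Bool) :
    (φ s).length < (φ (i :: s)).length := by
  obtain ⟨m, h1, h2⟩ := h s
  have a := h1.length_le
  have b := (h2 i).length_le
  simp at b; omega

lemma mono (h : Emb φ) {s t : List Bool} (hst : s <:+ t) : φ s <:+ φ t := by
  obtain ⟨l, rfl⟩ := hst
  induction l with
  | nil => exact List.suffix_rfl
  | cons a l ih => exact ih.trans (h.step a (l ++ s))

lemma len (h : Emb φ) (s : List Bool) : s.length ≤ (φ s).length := by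
  induction s with
  | nil => simp
  | cons a s ih => have := h.step_len a s; simp; omega

lemma reflect (h : Emb φ) {s t : List Bool} (hst : φ s <:+ φ t) : s <:+ t := by
  rcases node_tri s t with h1 | h1 | ⟨m, i, h1, h2⟩
  · exact h1
  · obtain ⟨l, rfl⟩ := h1
    rcases List.eq_nil_or_concat l with rfl | ⟨l', b, rfl⟩
    · simp
    · exfalso
      have h3 : (b :: t) <:+ (l'.concat b ++ t) := ⟨l', by simp⟩
      have h4 := (h.mono h3).length_le
      have h5 := h.step_len b t
      have h6 := hst.length_le
      omega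
  · exfalso
    obtain ⟨m', _, h4⟩ := h m
    exact no_both (((h4 i).trans (h.mono h1)).trans hst) ((h4 (!i)).trans (h.mono h2))

lemma injective (h : Emb φ) : Function.Injective φ := by
  intro s t hst
  have h1 : s <:+ t := h.reflect (by rw [hst])
  have h2 : t <:+ s := h.reflect (by rw [hst])
  exact h1.eq_of_length (le_antisymm h1.length_le h2.length_le)

lemma comp (hφ : Emb φ) (hψ : Emb ψ) : Emb (φ ∘ ψ) := by
  intro s
  obtain ⟨m, h1, h2⟩ := hψ s
  obtain ⟨m', h3, h4⟩ := hφ m
  exact ⟨m', (hφ.mono h1).trans h3, fun i => (h4 i).trans (hφ.mono (h2 i))⟩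

lemma id : Emb (fun s => s) := fun s => ⟨s, List.suffix_rfl, fun _ => List.suffix_rfl⟩

lemma cone (s : List Bool) : Emb (fun t => t ++ s) :=
  fun t => ⟨t ++ s, List.suffix_rfl, fun _ => List.suffix_rfl⟩

end Emb

/-- The map on branches induced by an embedding. -/
noncomputable def brm (φ : List Bool → List Bool) (x : ℕ → Bool) : ℕ → Bool :=
  open Classical in
  if h : ∃ z, ∀ n, OnBr (φ (br x n)) z then h.choose else x

lemma brm_spec {φ : List Bool → List Bool} (h : Emb φ) (x : ℕ → Bool) (n : ℕ) :
    OnBr (φ (br x n)) (brm φ x) := by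
  have hex : ∃ z, ∀ n, OnBr (φ (br x n)) z :=
    exists_branch (fun n => φ (br x n)) (fun n => h.step _ _)
      (fun n => by have := h.len (br x n); simpa using this)
  unfold brm
  rw [dif_pos hex]
  exact hex.choose_spec n

lemma brm_of_onBr {φ : List Bool → List Bool} (h : Emb φ) {s : List Bool} {x : ℕ → Bool}
    (hs : OnBr s x) : OnBr (φ s) (brm φ x) := by
  have := brm_spec h x s.length
  rwa [hs] at this

lemma brm_unique {φ : List Bool → List Bool} (h : Emb φ) {x z : ℕ → Bool}
    (hz : ∀ n, OnBr (φ (br x n)) z) : z = brm φ x := by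
  refine eq_of_br_eq fun n => ⟨(φ (br x n)).length, ?_, ?_⟩
  · have := h.len (br x n); simpa using this
  · rw [hz n, brm_spec h x n]

lemma brm_comp {φ ψ : List Bool → List Bool} (hφ : Emb φ) (hψ : Emb ψ) (x : ℕ → Bool) :
    brm (φ ∘ ψ) x = brm φ (brm ψ x) := by
  symm
  apply brm_unique (hφ.comp hψ)
  intro n
  exact brm_of_onBr hφ (brm_spec hψ x n)

lemma brm_injective {φ : List Bool → List Bool} (h : Emb φ) : Function.Injective (brm φ) := by
  intro x y hxy
  by_contra hne
  obtain ⟨n, h1, h2⟩ := branch_split hne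
  have hx := brm_spec h x (n+1)
  have hy := brm_spec h y (n+1)
  rw [← hxy] at hy
  have hy2 : x n = !(y n) := by
    cases hx' : x n <;> cases hy' : y n <;> simp_all
  obtain ⟨m, _, h4⟩ := h (br y n)
  have e1 : OnBr ((x n) :: m) (brm φ x) := hx.suffix (by
    have := h4 (x n); simpa [br, h1] using this)
  have e2 : OnBr ((y n) :: m) (brm φ x) := hy.suffix (by
    have := h4 (y n); simpa [br] using this)
  unfold OnBr at e1 e2
  simp only [List.length_cons] at e1 e2
  rw [e1] at e2
  simp at e2
  exact h2 e2

/-- finite-to-one functions on the nodes -/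
def FTO (f : List Bool → ℕ) : Prop := ∀ a, {t | f t = a}.Finite

/-- `g` is obtained from `f` by an embedding. -/
def Le (g f : List Bool → ℕ) : Prop := ∃ φ, Emb φ ∧ g = f ∘ φ

lemma Le.refl (f : List Bool → ℕ) : Le f f := ⟨_, Emb.id, rfl⟩

lemma Le.trans {f g h : List Bool → ℕ} (h1 : Le f g) (h2 : Le g h) : Le f h := by
  obtain ⟨φ, hφ, rfl⟩ := h1
  obtain ⟨ψ, hψ, rfl⟩ := h2
  exact ⟨ψ ∘ φ, hψ.comp hφ, rfl⟩

lemma Le.range {f g : List Bool → ℕ} (h : Le g f) : Set.range g ⊆ Set.range f := by
  obtain ⟨φ, _, rfl⟩ := h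
  exact Set.range_comp_subset_range φ f

lemma FTO.le {f g : List Bool → ℕ} (hf : FTO f) (h : Le g f) : FTO g := by
  obtain ⟨φ, hφ, rfl⟩ := h
  intro a
  exact (hf a).preimage (hφ.injective.injOn)

lemma Le.cone (f : List Bool → ℕ) (s : List Bool) : Le (fun t => f (t ++ s)) f :=
  ⟨_, Emb.cone s, rfl⟩

lemma FTO.preimage {f : List Bool → ℕ} (hf : FTO f) {S : Set ℕ} (hS : S.Finite) :
    {t | f t ∈ S}.Finite := by
  have : {t | f t ∈ S} = ⋃ a ∈ S, {t | f t = a} := by ext t; simp
  rw [this]
  exact hS.biUnion fun a _ => hf a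

lemma FTO.image {f : List Bool → ℕ} (hf : FTO f) {S : Set (List Bool)} (hS : S.Infinite) :
    (f '' S).Infinite := by
  intro hfin
  exact hS ((hf.preimage hfin).subset fun t ht => ⟨t, ht, rfl⟩)

lemma FTO.range_infinite {f : List Bool → ℕ} (hf : FTO f) : (Set.range f).Infinite := by
  rw [← Set.image_univ]
  exact hf.image Set.infinite_univ

/-- `A` meets `f`. -/
def Meets (A : Set ℕ) (f : List Bool → ℕ) : Prop := ∃ g, Le g f ∧ Set.range g ⊆ A

lemma Meets.of_le {A : Set ℕ} {f g : List Bool → ℕ} (h : Meets A g) (hg : Le g f) : Meets A f := by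
  obtain ⟨k, hk, hA⟩ := h
  exact ⟨k, hk.trans hg, hA⟩

end Pool.Agent.Work.MP_9abc7c_lc
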