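import Pool.Agent.Work.MP_9abc7c_lc.Types

/-!
Good cones, avoidance of few branches, and the recursion principle.
-/

namespace Pool.Agent.Work.MP_9abc7c_lc

open Set Cardinal

/-- The parameters of a stage. -/
structure Stage where
  F : ℕ → ℕ → Bool
  H : ℕ → ℕ
  χ : ℕ → List Bool
  mono : StrictMono H
  fin : ∀ N, {n | (χ n).length ≤ N}.Finite

/-- The limit map is constant, or injective with at most one type occurring on uncountable sets. -/
def Good (S : Stage) (g : List Bool → ℕ) : Prop :=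
  ∃ G, Lim S.F g G ∧ ((∀ x y, G x = G y) ∨ (Function.Injective G ∧
    ∃ y₀, ∀ y, y ≠ y₀ → ∀ Z, Ty S.H S.χ y (G '' Z) → Z.Countable))

lemma Good.le {S : Stage} {g g' : List Bool → ℕ} (h : Good S g) (hg : Le g' g) : Good S g' := by
  obtain ⟨G, hG, h⟩ := h
  obtain ⟨φ, hφ, rfl⟩ := hg
  refine ⟨_, hG.comp hφ, ?_⟩
  rcases h with h | ⟨hinj, y₀, h⟩
  · exact Or.inl fun x y => h _ _
  · refine Or.inr ⟨hinj.comp (brm_injective hφ), y₀, fun y hy Z hZ => ?_⟩
    have := h y hy (brm φ '' Z) (by rwa [← Set.image_comp])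
    exact Set.countable_of_injective_of_countable_image (brm_injective hφ).injOn this

lemma exists_good (S : Stage) (f : List Bool → ℕ) : ∃ g, Le g f ∧ Good S g := by
  obtain ⟨h, hh, G, hG⟩ := exists_lim S.F f
  obtain ⟨φ, hφ, hci⟩ := const_or_inj hG
  rcases hci with hc | hinj
  · exact ⟨h ∘ φ, Le.trans ⟨φ, hφ, rfl⟩ hh, _, hG.comp hφ, Or.inl hc⟩
  by_cases hex : ∃ ψ y, Emb ψ ∧ Ty S.H S.χ y (range ((G ∘ brm φ) ∘ brm ψ))
  · obtain ⟨ψ, y, hψ, hy⟩ := hex
    refine ⟨(h ∘ φ) ∘ ψ, Le.trans ⟨ψ, hψ, rfl⟩ (Le.trans ⟨φ, hφ, rfl⟩ hh), _,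
      (hG.comp hφ).comp hψ, Or.inr ⟨hinj.comp (brm_injective hψ), y, fun y' hy' Z hZ => ?_⟩⟩
    have h1 : (((G ∘ brm φ) ∘ brm ψ) '' Z).Finite :=
      hZ.finite S.mono S.fin (hy.mono (image_subset_range _ _)) hy'
    exact (h1.of_finite_image ((hinj.comp (brm_injective hψ)).injOn)).countable
  · push Not at hex
    refine ⟨h ∘ φ, Le.trans ⟨φ, hφ, rfl⟩ hh, _, hG.comp hφ,
      Or.inr ⟨hinj, fun _ => true, fun y _ Z hZ => ?_⟩⟩
    by_contra hunc
    obtain ⟨ψ, hψ, hT⟩ := exists_emb_of_type (hG.comp hφ) hunc hZ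
    exact hex ψ y hψ hT

/-- All cones from some level on are good. -/
def GoodFrom (S : Stage) (k : List Bool → ℕ) : Prop :=
  ∃ n, ∀ s : List Bool, s.length = n → Good S (fun t => k (t ++ s))

lemma emb_quot {ψ : List Bool → List Bool} (hψ : Emb ψ) {s s' : List Bool} (h : s' <:+ ψ s) :
    ∃ θ, Emb θ ∧ ∀ t, ψ (t ++ s) = θ t ++ s' := by
  have h1 : ∀ t, ∃ u, u ++ s' = ψ (t ++ s) := fun t => h.trans (hψ.mono (List.suffix_append _ _))
  choose θ hθ using h1
  refine ⟨θ, fun t => ?_, fun t => (hθ t).symm⟩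
  obtain ⟨m, hm, hm2⟩ := hψ (t ++ s)
  obtain ⟨m₀, rfl⟩ : s' <:+ m := (h.trans (hψ.mono (List.suffix_append _ _))).trans hm
  refine ⟨m₀, ?_, fun i => ?_⟩
  · rw [← hθ] at hm
    exact List.suffix_append_self_iff.mp hm
  · have := hm2 i
    rw [← List.cons_append, ← List.cons_append, ← hθ] at this
    exact List.suffix_append_self_iff.mp this

lemma GoodFrom.comp {S : Stage} {k : List Bool → ℕ} (h : GoodFrom S k)
    {ψ : List Bool → List Bool} (hψ : Emb ψ) : GoodFrom S (k ∘ ψ) := by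
  obtain ⟨n, hn⟩ := h
  refine ⟨n, fun s hs => ?_⟩
  have hlen : n ≤ (ψ s).length := hs ▸ hψ.len s
  have h1 : (ψ s).drop ((ψ s).length - n) <:+ ψ s := List.drop_suffix _ _
  obtain ⟨θ, hθ, hθ2⟩ := emb_quot hψ h1
  refine (hn ((ψ s).drop ((ψ s).length - n)) (by simp; omega)).le ⟨θ, hθ, ?_⟩
  funext t
  simp only [Function.comp, hθ2]

/-- Fusion over countably many stages. -/
lemma exists_goodFrom {ι : Type} [Countable ι] (σ : ι → Stage) (f : List Bool → ℕ) :
    ∃ g, Le g f ∧ ∀ i, GoodFrom (σ i) g := by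
  classical
  cases isEmpty_or_nonempty ι with
  | inl h => exact ⟨f, Le.refl f, fun i => isEmptyElim i⟩
  | inr h =>
    obtain ⟨seq, hseq⟩ := exists_surjective_nat ι
    obtain ⟨g, hg, hD⟩ := fusion f (fun n g => Good (σ (seq n)) g)
      (fun n g h hg hle => hg.le hle)
      (fun n g _ => exists_good _ _)
    refine ⟨g, hg, fun i => ?_⟩
    obtain ⟨n, rfl⟩ := hseq i
    exact ⟨n, fun s hs => hs ▸ hD s⟩

/-- Interleaving with the branch `r`. -/
def ilv (r : ℕ → Bool) : List Bool → List Bool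
  | [] => []
  | i :: s => i :: r s.length :: ilv r s

lemma ilv_emb (r : ℕ → Bool) : Emb (ilv r) :=
  fun s => ⟨r s.length :: ilv r s, List.suffix_cons _ _, fun _ => List.suffix_rfl⟩

lemma ilv_length (r : ℕ → Bool) (s : List Bool) : (ilv r s).length = 2 * s.length := by
  induction s with
  | nil => rfl
  | cons i s ih => simp [ilv, ih]; omega

lemma brm_ilv (r x : ℕ → Bool) (n : ℕ) : brm (ilv r) x (2 * n) = r n := by
  have h := brm_spec (ilv_emb r) x (n + 1)
  have h1 : (r n :: ilv r (br x n)) <:+ ilv r (br x (n + 1)) := by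
    simp only [br, ilv, br_length]
    exact List.suffix_cons _ _
  have h2 := h.suffix h1
  unfold OnBr at h2
  rw [List.length_cons, ilv_length, br_length] at h2
  simp only [br, List.cons.injEq] at h2
  exact h2.1

/-- Fewer than continuum many branches can be avoided. -/
lemma exists_avoid {B : Set (ℕ → Bool)} (hB : #B < 𝔠) : ∃ ψ, Emb ψ ∧ ∀ x, brm ψ x ∉ B := by
  by_contra hcon
  push Not at hcon
  choose x hx using fun r : ℕ → Bool => hcon (ilv r) (ilv_emb r)
  have hinj : Function.Injective (fun r => (⟨brm (ilv r) (x r), hx r⟩ : B)) := by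
    intro r r' h
    have h1 : brm (ilv r) (x r) = brm (ilv r') (x r') := congrArg Subtype.val h
    funext n
    rw [← brm_ilv r (x r) n, h1, brm_ilv]
  have := Cardinal.mk_le_of_injective hinj
  rw [card_branches] at this
  exact absurd hB (not_lt.mpr this)

lemma card_iUnion_lt {J : Type} (hJ : #J < 𝔠) {X : Type} (B : J → Set X)
    (hB : ∀ j, (B j).Countable) : #(⋃ j, B j) < 𝔠 := by
  refine lt_of_le_of_lt (Cardinal.mk_iUnion_le_sum_mk) ?_
  refine lt_of_le_of_lt (Cardinal.sum_le_sum _ (fun _ => ℵ₀)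
    (fun α => Cardinal.mk_le_aleph0_iff.mpr (hB α).to_subtype)) ?_
  rw [Cardinal.sum_const']
  exact Cardinal.mul_lt_of_lt Cardinal.aleph0_le_continuum hJ Cardinal.aleph0_lt_continuum

lemma exists_not_mem {S : Set (ℕ → Bool)} (hS : #S < 𝔠) {Y : (ℕ → Bool) → ℕ → Bool}
    (hY : Function.Injective Y) : ∃ x, Y x ∉ S := by
  by_contra hcon
  push Not at hcon
  have hinj : Function.Injective (fun r => (⟨Y r, hcon r⟩ : S)) := by
    intro r r' h
    exact hY (congrArg Subtype.val h)
  have := Cardinal.mk_le_of_injective hinj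
  rw [card_branches] at this
  exact absurd hS (not_lt.mpr this)

/-- Recursion along a well-founded relation with invariants. -/
lemma exists_rec {I X : Type} [Nonempty X] {r : I → I → Prop} (wf : WellFounded r)
    (C : (i : I) → ({j // r j i} → X) → X → Prop)
    (step : ∀ (g : I → X) (i : I), (∀ j, r j i → C j (fun j' => g j'.1) (g j)) →
      ∃ x, C i (fun j => g j.1) x) :
    ∃ g : I → X, ∀ i, C i (fun j => g j.1) (g i) := by
  classical
  let g : I → X := wf.fix (fun i G => if h : ∃ x, C i (fun j => G j.1 j.2) x then h.choose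
    else Classical.arbitrary X)
  have hg : ∀ i, g i = if h : ∃ x, C i (fun j => g j.1) x then h.choose
      else Classical.arbitrary X := by
    intro i
    exact wf.fix_eq _ i
  refine ⟨g, fun i => ?_⟩
  induction i using wf.induction with
  | _ i ih =>
    have hex := step g i ih
    rw [hg i, dif_pos hex]
    exact hex.choose_spec

end Pool.Agent.Work.MP_9abc7c_lc
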