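import Pool.Agent.Work.MP_9abc7c_lc.Ctx
import Pool.Agent.Work.MP_9abc7c_lc.Good

/-!
The skeleton construction: branches converge, but the values are on the wrong side far out.
-/

namespace Pool.Agent.Work.MP_9abc7c_lc

open Set Cardinal

/-- The branches with infinitely many initial segments in `S`. -/
def Pis (S : Set (List Bool)) : Set (ℕ → Bool) := {X | ∀ N, ∃ n ≥ N, br X n ∈ S}

lemma Pis.mono {S S' : Set (List Bool)} (h : S ⊆ S') {X : ℕ → Bool} (hX : X ∈ Pis S) :
    X ∈ Pis S' := by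
  intro N
  obtain ⟨n, hn, h1⟩ := hX N
  exact ⟨n, hn, h h1⟩

/-- Recursion for embeddings with a property depending on the index. -/
lemma emb_rec2 (P : List Bool → List Bool → Prop) (s₀ : List Bool) (h₀ : P [] s₀)
    (h : ∀ s t, P s t → ∃ m, t <:+ m ∧ ∀ i, ∃ t', (i :: m) <:+ t' ∧ P (i :: s) t') :
    ∃ φ, Emb φ ∧ ∀ s, P s (φ s) := by
  classical
  choose m hm t ht hP using h
  let F : (s : List Bool) → {t // P s t} := fun s =>
    List.rec ⟨s₀, h₀⟩ (fun i s r => ⟨t s r.1 r.2 i, hP s r.1 r.2 i⟩) s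
  refine ⟨fun s => (F s).1, ?_, fun s => (F s).2⟩
  intro s
  exact ⟨m s (F s).1 (F s).2, hm _ _ _, fun i => ht _ _ _ i⟩

/-- The range of the map on branches is closed. -/
lemma mem_range_brm {φ : List Bool → List Bool} (hφ : Emb φ) {X : ℕ → Bool}
    (h : ∀ n, ∃ y, br (brm φ y) n = br X n) : ∃ y, brm φ y = X := by
  classical
  have key : ∀ j : ℕ, ∃ s : List Bool, s.length = j ∧ OnBr (φ s) X := by
    intro j
    obtain ⟨L, hL⟩ := ((List.finite_length_eq Bool j).image (fun s => (φ s).length)).bddAbove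
    obtain ⟨y, hy⟩ := h L
    refine ⟨br y j, by simp, ?_⟩
    have h1 := brm_spec hφ y j
    have h2 : (φ (br y j)).length ≤ L := hL ⟨br y j, by simp, rfl⟩
    have h3 : φ (br y j) <:+ br (brm φ y) L := h1.suffix_br h2
    rw [hy] at h3
    exact (onBr_br X L).suffix h3
  choose s hs1 hs2 using key
  have hchain : ∀ j, s j <:+ s (j + 1) := by
    intro j
    rcases le_total (φ (s j)).length (φ (s (j + 1))).length with h1 | h1
    · have h2 : φ (s j) <:+ φ (s (j + 1)) := by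
        have := (hs2 j).suffix_br h1
        rwa [show br X (φ (s (j + 1))).length = φ (s (j + 1)) from hs2 (j + 1)] at this
      exact hφ.reflect h2
    · have h2 : φ (s (j + 1)) <:+ φ (s j) := by
        have := (hs2 (j + 1)).suffix_br h1
        rwa [show br X (φ (s j)).length = φ (s j) from hs2 j] at this
      have h3 := (hφ.reflect h2).length_le
      rw [hs1, hs1] at h3
      omega
  obtain ⟨y, hy⟩ := exists_branch s hchain (fun j => (hs1 j).ge)
  refine ⟨y, (brm_unique hφ (z := X) ?_).symm⟩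
  intro n
  have h1 := hy n
  unfold OnBr at h1
  rw [hs1] at h1
  rw [h1]
  exact hs2 n

/-- Lemma F1. -/
lemma exists_emb_F1 {φ : List Bool → List Bool} (hφ : Emb φ) {S₀ S₁ : Set (List Bool)}
    (hW : ¬ {X | (∃ y, brm φ y = X) ∧ X ∈ Pis S₀ ∧ X ∈ Pis S₁}.Countable)
    {B : Set (ℕ → Bool)} (hB : #B < 𝔠) :
    ∃ ψ, Emb ψ ∧ ∀ x, (∃ y, brm φ y = brm ψ x) ∧ brm ψ x ∈ Pis S₀ ∧ brm ψ x ∈ Pis S₁ ∧
      brm ψ x ∉ B := by
  classical
  set W : Set (ℕ → Bool) := {X | (∃ y, brm φ y = X) ∧ X ∈ Pis S₀ ∧ X ∈ Pis S₁} with hWdef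
  let G : List Bool → Prop := fun t => ¬ (W ∩ {x | OnBr t x}).Countable
  have hG0 : G [] := by
    intro hc
    apply hW
    refine hc.mono ?_
    intro x hx
    exact ⟨hx, rfl⟩
  have hcount : (⋃ t ∈ {t | ¬ G t}, (W ∩ {x | OnBr t x})).Countable := by
    refine (Set.to_countable {t | ¬ G t}).biUnion ?_
    intro t ht
    simpa [G] using ht
  set C := ⋃ t ∈ {t | ¬ G t}, (W ∩ {x | OnBr t x}) with hC
  have hgood : ∀ t, G t → ¬ ((W ∩ {x | OnBr t x}) \ C).Countable := by
    intro t ht hc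
    apply ht
    refine (hc.union hcount).mono ?_
    intro x hx
    by_cases hxC : x ∈ C
    · exact Or.inr hxC
    · exact Or.inl ⟨hx, hxC⟩
  have hallG : ∀ x, x ∈ W → x ∉ C → ∀ t, OnBr t x → G t := by
    intro x hx hxC t ht
    by_contra hG
    refine hxC ?_
    rw [hC]
    exact Set.mem_biUnion (show t ∈ {t | ¬ G t} from fun h => h hG) ⟨hx, ht⟩
  let SS : Bool → Set (List Bool) := fun b => bif b then S₁ else S₀
  have hSS : ∀ x ∈ W, ∀ b, x ∈ Pis (SS b) := by
    intro x hx b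
    cases b
    · exact hx.2.1
    · exact hx.2.2
  have step1 : ∀ t b, G t → ∃ t', t <:+ t' ∧ t' ∈ SS b ∧ G t' := by
    intro t b ht
    have hne : ((W ∩ {x | OnBr t x}) \ C).Nonempty := by
      rw [nonempty_iff_ne_empty]
      intro he
      exact hgood t ht (by rw [he]; exact countable_empty)
    obtain ⟨x, ⟨hx, hxt⟩, hxC⟩ := hne
    obtain ⟨k, hk, hkS⟩ := hSS x hx b t.length
    exact ⟨br x k, hxt.suffix_br hk, hkS, hallG x hx hxC _ (onBr_br x k)⟩
  have step2 : ∀ t, G t → ∃ m, t <:+ m ∧ ∀ i, G (i :: m) := by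
    intro t ht
    have hnt : ((W ∩ {x | OnBr t x}) \ C).Nontrivial := by
      rw [← Set.not_subsingleton_iff]
      intro hs
      exact hgood t ht hs.countable
    obtain ⟨x, ⟨⟨hx, hxt⟩, hxC⟩, y, ⟨⟨hy, hyt⟩, hyC⟩, hne⟩ := hnt
    obtain ⟨n, h1, h2⟩ := branch_split hne
    have htn : t.length ≤ n := by
      by_contra hlt
      push Not at hlt
      have e1 := hxt.br_suffix (n := n+1) hlt
      have e2 := hyt.br_suffix (n := n+1) hlt
      have := eq_of_suffix_eq e1 e2 (by simp)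
      simp only [br, List.cons.injEq] at this
      exact h2 this.1
    refine ⟨br x n, hxt.suffix_br htn, ?_⟩
    intro i
    have hi : i = x n ∨ i = y n := by
      revert h2
      generalize x n = a
      generalize y n = b
      revert a b i
      decide
    rcases hi with rfl | rfl
    · exact hallG x hx hxC _ (onBr_br x (n+1))
    · rw [h1]; exact hallG y hy hyC _ (onBr_br y (n+1))
  obtain ⟨θ, hθ, hP⟩ := emb_rec2 (fun s t => G t ∧ (s ≠ [] → t ∈ SS (decide (s.length % 2 = 1))))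
    [] ⟨hG0, fun h => absurd rfl h⟩ (by
    rintro s u ⟨hu, -⟩
    obtain ⟨m, hm, hm2⟩ := step2 u hu
    refine ⟨m, hm, fun i => ?_⟩
    obtain ⟨t', h3, h4, h5⟩ := step1 _ (decide ((i :: s).length % 2 = 1)) (hm2 i)
    exact ⟨t', h3, h5, fun _ => h4⟩)
  -- the branches of `θ`
  have hθW : ∀ x, brm θ x ∈ W := by
    intro x
    have hpar : ∀ b, brm θ x ∈ Pis (SS b) := by
      intro b N
      obtain ⟨n, hn, hnb⟩ : ∃ n ≥ N + 1, decide (n % 2 = 1) = b := by
        cases b
        · exact ⟨2 * (N + 1), by omega, by simp⟩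
        · exact ⟨2 * (N + 1) + 1, by omega, by simp⟩
      refine ⟨(θ (br x n)).length, ?_, ?_⟩
      · have := hθ.len (br x n)
        rw [br_length] at this
        omega
      · rw [show br (brm θ x) (θ (br x n)).length = θ (br x n) from brm_spec hθ x n]
        have h1 := (hP (br x n)).2 (by
          intro h
          have := congrArg List.length h
          simp at this
          omega)
        rw [br_length, hnb] at h1
        exact h1
    refine ⟨?_, hpar false, hpar true⟩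
    apply mem_range_brm hφ
    intro n
    have h1 : G (θ (br x n)) := (hP (br x n)).1
    have hne : (W ∩ {z | OnBr (θ (br x n)) z}).Nonempty := by
      rw [nonempty_iff_ne_empty]
      intro he
      exact h1 (by rw [he]; exact countable_empty)
    obtain ⟨z, ⟨⟨y, hy⟩, -⟩, hz⟩ := hne
    refine ⟨y, ?_⟩
    rw [hy]
    have hl : n ≤ (θ (br x n)).length := by
      have := hθ.len (br x n)
      simpa using this
    have h3 : br z n <:+ θ (br x n) := OnBr.br_suffix hz hl
    have h4 : br (brm θ x) n <:+ θ (br x n) := OnBr.br_suffix (brm_spec hθ x n) hl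
    exact eq_of_suffix_eq h3 h4 (by simp)
  have hB' : #((brm θ) ⁻¹' B : Set (ℕ → Bool)) < 𝔠 := by
    refine lt_of_le_of_lt ?_ hB
    exact Cardinal.mk_preimage_of_injective _ _ (brm_injective hθ)
  obtain ⟨ψ, hψ, hψB⟩ := exists_avoid hB'
  refine ⟨θ ∘ ψ, hθ.comp hψ, fun x => ?_⟩
  rw [brm_comp hθ hψ]
  have h1 := hθW (brm ψ x)
  exact ⟨h1.1, h1.2.1, h1.2.2, hψB x⟩

variable {Ω : Type} [LinearOrder Ω]

/-- The part of `S` where `k` is in `e a`. -/
def Ctx.sin (C : Ctx Ω) (k : List Bool → ℕ) (S : Set (List Bool)) (a : Ω) : Set (List Bool) :=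
  {t | t ∈ S ∧ k t ∈ C.e a}

/-- The part of `S` where `k` is not in `e a`. -/
def Ctx.sout (C : Ctx Ω) (k : List Bool → ℕ) (S : Set (List Bool)) (a : Ω) : Set (List Bool) :=
  {t | t ∈ S ∧ k t ∉ C.e a}

/-- The states of the skeleton construction. -/
structure Ctx.Sk (C : Ctx Ω) (k : List Bool → ℕ) (S : Set (List Bool))
    (φ : List Bool → List Bool) (a : Ω) : Prop where
  emb : Emb φ
  pin : ∀ x, brm φ x ∈ Pis (C.sin k S a)
  pout : ∀ x, brm φ x ∈ Pis (C.sout k S a)
  least : ∀ a' < a, ∀ x, ¬ (brm φ x ∈ Pis (C.sin k S a') ∧ brm φ x ∈ Pis (C.sout k S a'))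

/-- Lemma F2. -/
lemma Ctx.exists_sk [WellFoundedLT Ω] (C : Ctx Ω) {k : List Bool → ℕ} (hk : FTO k)
    {S : Set (List Bool)} {φ : List Bool → List Bool} (hφ : Emb φ)
    (hS : ∀ x, brm φ x ∈ Pis S) :
    ∃ ψ a, C.Sk k S ψ a ∧ ∀ x, ∃ y, brm φ y = brm ψ x := by
  classical
  let Wa : Ω → Set (ℕ → Bool) := fun a =>
    {X | (∃ y, brm φ y = X) ∧ X ∈ Pis (C.sin k S a) ∧ X ∈ Pis (C.sout k S a)}
  have hex : ∃ a, ¬ (Wa a).Countable := by
    by_contra hcon
    push Not at hcon
    have hcard := card_iUnion_lt C.card_lt Wa hcon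
    obtain ⟨x, hx⟩ := exists_not_mem hcard (brm_injective hφ)
    have hinf : {n | br (brm φ x) n ∈ S}.Infinite := by
      rw [Set.infinite_iff_exists_gt]
      intro N
      obtain ⟨n, hn, h1⟩ := hS x (N + 1)
      exact ⟨n, h1, by omega⟩
    have hinf2 : ((br (brm φ x)) '' {n | br (brm φ x) n ∈ S}).Infinite := by
      refine hinf.image ?_
      intro n _ m _ h
      have := congrArg List.length h
      simpa using this
    have hX := hk.image hinf2
    obtain ⟨a, h1, h2⟩ := C.split _ hX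
    apply hx
    refine Set.mem_iUnion.mpr ⟨a, ⟨x, rfl⟩, ?_, ?_⟩
    · intro N
      by_contra hc
      push Not at hc
      apply h1
      refine ((Set.finite_lt_nat N).image (fun n => k (br (brm φ x) n))).subset ?_
      rintro _ ⟨⟨_, ⟨n, hn, rfl⟩, rfl⟩, hmem⟩
      refine ⟨n, ?_, rfl⟩
      by_contra hlt
      have hlt' : N ≤ n := not_lt.mp hlt
      exact hc n hlt' ⟨hn, hmem⟩
    · intro N
      by_contra hc
      push Not at hc
      apply h2
      refine ((Set.finite_lt_nat N).image (fun n => k (br (brm φ x) n))).subset ?_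
      rintro _ ⟨⟨_, ⟨n, hn, rfl⟩, rfl⟩, hmem⟩
      refine ⟨n, ?_, rfl⟩
      by_contra hlt
      have hlt' : N ≤ n := not_lt.mp hlt
      exact hc n hlt' ⟨hn, hmem⟩
  have hwf : WellFounded ((· < ·) : Ω → Ω → Prop) := wellFounded_lt
  set a := hwf.min {a | ¬ (Wa a).Countable} hex with ha
  have ha1 : ¬ (Wa a).Countable := hwf.min_mem {a | ¬ (Wa a).Countable} hex
  have ha2 : ∀ a' < a, (Wa a').Countable := by
    intro a' h'
    by_contra hc
    exact hwf.not_lt_min {a | ¬ (Wa a).Countable} (x := a') hc h'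
  have hB : #(⋃ a' : {a' // a' < a}, Wa a'.1) < 𝔠 := by
    refine card_iUnion_lt ?_ _ (fun a' => ha2 a'.1 a'.2)
    exact lt_of_le_of_lt (Cardinal.mk_subtype_le _) C.card_lt
  obtain ⟨ψ, hψ, h⟩ := exists_emb_F1 hφ (S₀ := C.sin k S a) (S₁ := C.sout k S a) ha1 hB
  refine ⟨ψ, a, ⟨hψ, fun x => (h x).2.1, fun x => (h x).2.2.1, ?_⟩, fun x => (h x).1⟩
  rintro a' h' x ⟨h1, h2⟩
  apply (h x).2.2.2
  exact Set.mem_iUnion.mpr ⟨⟨a', h'⟩, (h x).1, h1, h2⟩

/-- The skeleton. -/
structure Ctx.Skel (C : Ctx Ω) (k : List Bool → ℕ) (S : List Bool → Set (List Bool))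
    (a : List Bool → Ω) (u : List Bool → List Bool) : Prop where
  emb : Emb u
  succ : ∀ s i, S (i :: s) = C.sin k (S s) (a s)
  pin : ∀ s x, OnBr s x → brm u x ∈ Pis (C.sin k (S s) (a s))
  pout : ∀ s x, OnBr s x → brm u x ∈ Pis (C.sout k (S s) (a s))
  least : ∀ s, ∀ a' < a s, ∀ X, (∀ n, ∃ x, OnBr s x ∧ br (brm u x) n = br X n) →
    ¬ (X ∈ Pis (C.sin k (S s) a') ∧ X ∈ Pis (C.sout k (S s) a'))

lemma Ctx.exists_skel [WellFoundedLT Ω] (C : Ctx Ω) {k : List Bool → ℕ} (hk : FTO k) :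
    ∃ S a u, C.Skel k S a u := by
  classical
  -- the states
  let St := {p : Set (List Bool) × (List Bool → List Bool) × Ω // C.Sk k p.1 p.2.1 p.2.2}
  have hstep : ∀ (p : St) (i : Bool), ∃ q : St, q.1.1 = C.sin k p.1.1 p.1.2.2 ∧
      (∀ x, ∃ y, brm p.1.2.1 y = brm q.1.2.1 x) ∧ p.1.2.1 [i] <:+ q.1.2.1 [] := by
    rintro ⟨⟨S, φ, a⟩, h⟩ i
    have hφi : Emb (φ ∘ (fun t => t ++ [i])) := h.emb.comp (Emb.cone [i])
    have hr : ∀ x, ∃ y, brm φ y = brm (φ ∘ (fun t => t ++ [i])) x := fun x =>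
      ⟨_, (brm_comp h.emb (Emb.cone [i]) x).symm⟩
    obtain ⟨ψ, a', hψ, hψr⟩ := C.exists_sk hk hφi (S := C.sin k S a) (by
      intro x
      obtain ⟨y, hy⟩ := hr x
      rw [← hy]
      exact h.pin y)
    -- make the root long
    set w : List Bool := List.replicate (φ [i]).length true with hw
    have hc : Emb (ψ ∘ (fun t => t ++ w)) := hψ.emb.comp (Emb.cone w)
    have hcr : ∀ x, ∃ y, brm ψ y = brm (ψ ∘ (fun t => t ++ w)) x := fun x =>
      ⟨_, (brm_comp hψ.emb (Emb.cone w) x).symm⟩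
    refine ⟨⟨⟨C.sin k S a, ψ ∘ (fun t => t ++ w), a'⟩, ⟨hc, ?_, ?_, ?_⟩⟩, rfl, ?_, ?_⟩
    · intro x
      obtain ⟨y, hy⟩ := hcr x
      rw [← hy]
      exact hψ.pin y
    · intro x
      obtain ⟨y, hy⟩ := hcr x
      rw [← hy]
      exact hψ.pout y
    · intro a'' h'' x
      obtain ⟨y, hy⟩ := hcr x
      rw [← hy]
      exact hψ.least a'' h'' y
    · intro x
      obtain ⟨y, hy⟩ := hcr x
      obtain ⟨z, hz⟩ := hψr y
      obtain ⟨v, hv⟩ := hr z
      exact ⟨v, by rw [hv, hz, hy]⟩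
    · show φ [i] <:+ ψ ([] ++ w)
      rw [List.nil_append]
      let x₀ : ℕ → Bool := fun _ => true
      have hbr : ∀ n, br x₀ n = List.replicate n true := by
        intro n
        induction n with
        | zero => rfl
        | succ n ih => simp [br, ih, List.replicate_succ, x₀]
      have hwx : OnBr w x₀ := by
        unfold OnBr
        rw [hbr, hw]
        simp
      have h1 : OnBr (ψ w) (brm ψ x₀) := brm_of_onBr hψ.emb hwx
      obtain ⟨y, hy⟩ := hψr x₀
      have h2 : OnBr (φ [i]) (brm ψ x₀) := by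
        rw [← hy]
        have := brm_spec hφi y 0
        exact this
      have h3 : (φ [i]).length ≤ (ψ w).length := by
        have := hψ.emb.len w
        rw [hw] at this ⊢
        simpa using this
      have h4 := h2.suffix_br h3
      rwa [show br (brm ψ x₀) (ψ w).length = ψ w from h1] at h4
  choose nx hnx1 hnx2 hnx3 using hstep
  obtain ⟨φ₀, a₀, h₀, -⟩ := C.exists_sk hk (φ := fun s => s) Emb.id (S := Set.univ)
    (fun x N => ⟨N, le_rfl, trivial⟩)
  let F : List Bool → St := fun s =>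
    List.rec ⟨⟨Set.univ, φ₀, a₀⟩, h₀⟩ (fun i _ r => nx r i) s
  have hF : ∀ i s, F (i :: s) = nx (F s) i := fun _ _ => rfl
  set u : List Bool → List Bool := fun s => (F s).1.2.1 [] with hu
  have hemb : Emb u := by
    intro s
    obtain ⟨m, h1, h2⟩ := (F s).2.emb []
    refine ⟨m, h1, fun i => (h2 i).trans ?_⟩
    show (F s).1.2.1 [i] <:+ (F (i :: s)).1.2.1 []
    rw [hF]
    exact hnx3 (F s) i
  -- the ranges decrease
  have hdec : ∀ l s, ∀ x, ∃ y, brm (F s).1.2.1 y = brm (F (l ++ s)).1.2.1 x := by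
    intro l s
    induction l with
    | nil => intro x; exact ⟨x, rfl⟩
    | cons i l ih =>
      intro x
      obtain ⟨y, hy⟩ := hnx2 (F (l ++ s)) i x
      obtain ⟨z, hz⟩ := ih y
      refine ⟨z, ?_⟩
      rw [hz, hy]
      rfl
  -- closedness
  have hclosed : ∀ s X, (∀ n, ∃ x, OnBr s x ∧ br (brm u x) n = br X n) →
      ∃ y, brm (F s).1.2.1 y = X := by
    intro s X hX
    apply mem_range_brm (F s).2.emb
    intro n
    obtain ⟨x, hx1, hx2⟩ := hX n
    set N := max n s.length with hN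
    have hsN : s <:+ br x N := hx1.suffix_br (le_max_right _ _)
    obtain ⟨l, hl⟩ := hsN
    let x₀ : ℕ → Bool := fun _ => true
    obtain ⟨y, hy⟩ := hdec l s x₀
    rw [hl] at hy
    refine ⟨y, ?_⟩
    rw [hy]
    have h1 : OnBr (u (br x N)) (brm (F (br x N)).1.2.1 x₀) := by
      have := brm_spec (F (br x N)).2.emb x₀ 0
      exact this
    have h2 : OnBr (u (br x N)) (brm u x) := brm_spec hemb x N
    have hlen : n ≤ (u (br x N)).length := by
      have := hemb.len (br x N)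
      rw [br_length] at this
      omega
    have h3 := OnBr.br_suffix h1 hlen
    have h4 := OnBr.br_suffix h2 hlen
    rw [hx2] at h4
    exact eq_of_suffix_eq h3 h4 (by simp)
  have hmem : ∀ s x, OnBr s x → ∃ y, brm (F s).1.2.1 y = brm u x := by
    intro s x hx
    exact hclosed s _ (fun n => ⟨x, hx, rfl⟩)
  refine ⟨fun s => (F s).1.1, fun s => (F s).1.2.2, u, ⟨hemb, ?_, ?_, ?_, ?_⟩⟩
  · intro s i
    show (F (i :: s)).1.1 = _
    rw [hF]
    exact hnx1 (F s) i
  · intro s x hx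
    obtain ⟨y, hy⟩ := hmem s x hx
    rw [← hy]
    exact (F s).2.pin y
  · intro s x hx
    obtain ⟨y, hy⟩ := hmem s x hx
    rw [← hy]
    exact (F s).2.pout y
  · intro s a' ha' X hX
    obtain ⟨y, hy⟩ := hclosed s X hX
    rw [← hy]
    exact (F s).2.least a' ha' y

lemma exists_cons_suffix {s t : List Bool} (h : s <:+ t) (hl : s.length < t.length) :
    ∃ j, (j :: s) <:+ t := by
  obtain ⟨l, rfl⟩ := h
  rcases List.eq_nil_or_concat l with rfl | ⟨l', b, rfl⟩
  · simp at hl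
  · exact ⟨b, l', by simp⟩

lemma exists_onBr (s : List Bool) : ∃ x, OnBr s x :=
  ⟨_, brm_spec (Emb.cone s) (fun _ => true) 0⟩

section skel

variable {C : Ctx Ω} {k : List Bool → ℕ} {S : List Bool → Set (List Bool)}
  {a : List Bool → Ω} {u : List Bool → List Bool}

lemma Ctx.Skel.sub_succ (h : C.Skel k S a u) (s : List Bool) (i : Bool) : S (i :: s) ⊆ S s := by
  rw [h.succ]
  exact fun t ht => ht.1

lemma Ctx.Skel.anti (h : C.Skel k S a u) {s t : List Bool} (hst : s <:+ t) : S t ⊆ S s := by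
  obtain ⟨l, rfl⟩ := hst
  induction l with
  | nil => exact fun _ h => h
  | cons i l ih => exact (h.sub_succ (l ++ s) i).trans ih

lemma Ctx.Skel.anti' (h : C.Skel k S a u) {s t : List Bool} (hst : s <:+ t)
    (hl : s.length < t.length) : S t ⊆ C.sin k (S s) (a s) := by
  obtain ⟨j, hj⟩ := exists_cons_suffix hst hl
  have := h.anti hj
  rwa [h.succ] at this

lemma Ctx.Skel.lt_succ (h : C.Skel k S a u) (s : List Bool) (i : Bool) : a s < a (i :: s) := by
  by_contra hc
  push Not at hc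
  obtain ⟨x, hx⟩ := exists_onBr (i :: s)
  rcases hc.lt_or_eq with h1 | h1
  · refine h.least s _ h1 (brm u x) (fun n => ⟨x, hx.suffix (List.suffix_cons _ _), rfl⟩) ?_
    refine ⟨Pis.mono ?_ (h.pin (i :: s) x hx), Pis.mono ?_ (h.pout (i :: s) x hx)⟩
    · exact fun t ht => ⟨h.sub_succ s i ht.1, ht.2⟩
    · exact fun t ht => ⟨h.sub_succ s i ht.1, ht.2⟩
  · obtain ⟨n, -, hn⟩ := h.pout (i :: s) x hx 0
    have h2 := hn.1
    rw [h.succ] at h2
    have h3 := hn.2
    rw [h1] at h3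
    exact h3 h2.2

end skel

/-- Recursion for embeddings with data. -/
lemma emb_rec3 {α : Type*} (nd : α → List Bool) (P : List Bool → α → Prop) (Q : α → α → Prop)
    (p₀ : α) (h₀ : P [] p₀)
    (h : ∀ s p, P s p → ∃ m, nd p <:+ m ∧ ∀ i : Bool, ∃ q, (i :: m) <:+ nd q ∧ Q p q ∧ P (i :: s) q) :
    ∃ F : List Bool → α, Emb (nd ∘ F) ∧ (∀ s, P s (F s)) ∧ ∀ s i, Q (F s) (F (i :: s)) := by
  classical
  choose m hm t ht hQ hP using h
  let F : (s : List Bool) → {p // P s p} := fun s =>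
    List.rec ⟨p₀, h₀⟩ (fun i s r => ⟨t s r.1 r.2 i, hP s r.1 r.2 i⟩) s
  refine ⟨fun s => (F s).1, ?_, fun s => (F s).2, fun s i => hQ _ _ _ _⟩
  intro s
  exact ⟨m s (F s).1 (F s).2, hm _ _ _, fun i => ht _ _ _ i⟩

theorem Ctx.exists_brfar {Ω : Type} [LinearOrder Ω] [WellFoundedLT Ω] (C : Ctx Ω)
    {k : List Bool → ℕ} (hk : FTO k) (σ : Ω) :
    ∃ φ γ₂ z₂ η, Emb φ ∧ C.BrFar (k ∘ φ) σ γ₂ z₂ η := by
  classical
  obtain ⟨S, a, u, hS⟩ := C.exists_skel hk
  obtain ⟨enum, henum⟩ := exists_surjective_nat (List Bool)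
  have hwf : WellFounded ((· < ·) : Ω → Ω → Prop) := wellFounded_lt
  let U : List Bool → Set Ω := fun r => {γ | ∀ r', r <:+ r' → a r' < γ}
  have hU : ∀ r, (U r).Nonempty := by
    intro r
    obtain ⟨i, hi⟩ := C.bdd (fun n => a (enum n))
    refine ⟨i, fun r' _ => ?_⟩
    obtain ⟨n, rfl⟩ := henum r'
    exact hi n
  let lub : List Bool → Ω := fun r => hwf.min (U r) (hU r)
  have hlub : ∀ r, lub r ∈ U r := fun r => hwf.min_mem _ _
  have hlub2 : ∀ r, ∀ γ ∈ U r, lub r ≤ γ := fun r γ h => not_lt.mp (hwf.not_lt_min _ h)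
  obtain ⟨r₀, hr₀⟩ : ∃ r₀, ∀ r, lub r₀ ≤ lub r := by
    have hne : (range lub).Nonempty := ⟨_, [], rfl⟩
    obtain ⟨r₀, h⟩ := hwf.min_mem (range lub) hne
    refine ⟨r₀, fun r => ?_⟩
    rw [h]
    exact not_lt.mp (hwf.not_lt_min (range lub) (x := lub r) ⟨r, rfl⟩)
  set γ₂ := lub r₀ with hγ₂
  have hA : ∀ r', r₀ <:+ r' → a r' < γ₂ := hlub r₀
  have hB : ∀ r, ∀ a' < γ₂, ∃ r', r <:+ r' ∧ a' < a r' := by
    intro r a' h'
    have h1 : a' ∉ U r := fun hmem => absurd (hlub2 r a' hmem) (not_le.mpr (lt_of_lt_of_le h' (hr₀ r)))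
    have h2 : ∃ r', r <:+ r' ∧ ¬ a r' < a' := by
      by_contra hc
      push Not at hc
      exact h1 hc
    obtain ⟨r', h3, h4⟩ := h2
    exact ⟨true :: r', h3.trans (List.suffix_cons _ _), lt_of_le_of_lt (not_lt.mp h4) (hS.lt_succ r' true)⟩
  let β : ℕ → Ω := fun n => a (enum n ++ r₀)
  have hβ : ∀ n, β n < γ₂ := fun n => hA _ (List.suffix_append _ _)
  have hβ2 : ∀ r', r₀ <:+ r' → ∃ n, β n = a r' := by
    rintro _ ⟨l, rfl⟩
    obtain ⟨n, rfl⟩ := henum l
    exact ⟨n, rfl⟩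
  obtain ⟨z₂, hz₂, hz₂'⟩ := C.Z_cof γ₂ β hβ
  have hidx : ∀ r', r₀ <:+ r' → ∃ m, z₂ m = a r' := by
    intro r' h'
    obtain ⟨n, hn⟩ := hβ2 r' h'
    obtain ⟨m, hm⟩ := hz₂' n
    exact ⟨m, hm.trans hn⟩
  have hB2 : ∀ r, ∀ L : ℕ, ∃ r', r <:+ r' ∧ ∀ l ≤ L, β l ≤ a r' := by
    intro r L
    obtain ⟨l₀, -, hl₀⟩ := Finset.exists_max_image (Finset.range (L + 1)) β ⟨0, by simp⟩
    obtain ⟨r', h1, h2⟩ := hB r (β l₀) (hβ l₀)
    exact ⟨r', h1, fun l hl => (hl₀ l (by simp; omega)).trans h2.le⟩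
  -- the choice of the values
  let P : List Bool → List Bool × List Bool → Prop := fun s p =>
    r₀ <:+ p.1 ∧ (∀ l ≤ s.length, β l ≤ a p.1) ∧ (∃ y, OnBr p.1 y ∧ OnBr p.2 (brm u y)) ∧
      u p.1 <:+ p.2 ∧ p.2 ∈ S p.1 ∧ k p.2 ∉ C.e (a p.1) ∧ ∃ m, z₂ m = a p.1 ∧ C.H σ m ≤ k p.2
  have hchoose : ∀ s r, r₀ <:+ r → (∀ l ≤ s.length, β l ≤ a r) → ∃ w, P s (r, w) := by
    intro s r hr hl
    obtain ⟨m, hm⟩ := hidx r hr
    obtain ⟨y, hy⟩ := exists_onBr r
    obtain ⟨L, hL⟩ := ((hk.preimage (Set.finite_Iio (C.H σ m))).image List.length).bddAbove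
    obtain ⟨n, hn, hn1, hn2⟩ := hS.pout r y hy (max (L + 1) (u r).length)
    refine ⟨br (brm u y) n, hr, hl, ⟨y, hy, onBr_br _ _⟩, ?_, hn1, hn2, m, hm, ?_⟩
    · exact (brm_of_onBr hS.emb hy).suffix_br (le_trans (le_max_right _ _) hn)
    · by_contra hc
      push Not at hc
      have h1 : n ≤ L := hL ⟨br (brm u y) n, hc, by simp⟩
      have h2 := le_trans (le_max_left _ _) hn
      omega
  obtain ⟨p₀, hp₀⟩ : ∃ p₀, P [] p₀ := by
    obtain ⟨r, h1, h2⟩ := hB2 r₀ 0
    obtain ⟨w, hw⟩ := hchoose [] r h1 (by simpa using h2)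
    exact ⟨_, hw⟩
  obtain ⟨F, hF1, hF2, hF3⟩ := emb_rec3 (fun p : List Bool × List Bool => p.2) P
    (fun p q => p.1 <:+ q.1 ∧ p.1.length < q.1.length) p₀ hp₀ (by
    rintro s ⟨r, w⟩ ⟨hr, -, ⟨y, hy, hwy⟩, -, -, -, -⟩
    set n := max w.length r.length with hn
    have hr' : r <:+ br y n := hy.suffix_br (le_max_right _ _)
    obtain ⟨m, hm1, hm2⟩ := hS.emb (br y n)
    have h1 := brm_spec hS.emb y n
    have h2 : w.length ≤ (u (br y n)).length := by
      have := hS.emb.len (br y n)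
      rw [br_length] at this
      exact (le_max_left _ _).trans this
    have h3 : w <:+ u (br y n) := by
      have := OnBr.suffix_br hwy h2
      rwa [show br (brm u y) (u (br y n)).length = u (br y n) from h1] at this
    refine ⟨m, h3.trans hm1, fun i => ?_⟩
    obtain ⟨r'', h4, h5⟩ := hB2 (i :: br y n) (s.length + 1)
    have h6 : r <:+ r'' := (hr'.trans (List.suffix_cons _ _)).trans h4
    obtain ⟨w', hw'⟩ := hchoose (i :: s) r'' (hr.trans h6) (by simpa using h5)
    refine ⟨(r'', w'), ?_, ⟨h6, ?_⟩, hw'⟩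
    · exact ((hm2 i).trans (hS.emb.mono h4)).trans hw'.2.2.2.1
    · have e1 := hr'.length_le
      have e2 := h4.length_le
      simp only [List.length_cons] at e2
      show r.length < r''.length
      omega)
  set w : List Bool → List Bool := fun s => (F s).2 with hwdef
  set rr : List Bool → List Bool := fun s => (F s).1 with hrdef
  have hwemb : Emb w := hF1
  have hrmono : ∀ {s t : List Bool}, s <:+ t → rr s <:+ rr t := by
    rintro s _ ⟨l, rfl⟩
    induction l with
    | nil => exact List.suffix_rfl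
    | cons i l ih => exact ih.trans (hF3 (l ++ s) i).1
  have hrlt : ∀ (s : List Bool) (i : Bool), (rr s).length < (rr (i :: s)).length :=
    fun s i => (hF3 s i).2
  have hwS : ∀ s, w s ∈ S (rr s) := fun s => (hF2 s).2.2.2.2.1
  let η : (ℕ → Bool) → Ω → Bool := fun x a' =>
    decide (∃ N, ∀ n ≥ N, k (w (br x n)) ∈ C.e a')
  refine ⟨w, γ₂, z₂, η, hwemb, hz₂, ?_, ?_⟩
  · intro x a' ha'
    obtain ⟨r', h1, h2⟩ := hB r₀ a' ha'
    obtain ⟨l, hl⟩ := hβ2 r' h1
    have hR : a' < a (rr (br x l)) := by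
      have h3 := (hF2 (br x l)).2.1 l (by simp)
      rw [hl] at h3
      exact lt_of_lt_of_le h2 h3
    have hX := hS.least (rr (br x l)) a' hR (brm w x) (by
      intro n
      set N := max n l with hN
      obtain ⟨y, hy1, hy2⟩ := (hF2 (br x N)).2.2.1
      refine ⟨y, ?_, ?_⟩
      · exact OnBr.suffix hy1 (hrmono (br_suffix x (le_max_right _ _)))
      · have hlen : n ≤ (w (br x N)).length := by
          have := hwemb.len (br x N)
          rw [br_length] at this
          exact (le_max_left _ _).trans this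
        exact eq_of_suffix_eq (OnBr.br_suffix hy2 hlen)
          (OnBr.br_suffix (brm_spec hwemb x N) hlen) (by simp))
    have hev : ∀ n ≥ l, w (br x n) ∈ S (rr (br x l)) := fun n hn =>
      hS.anti (hrmono (br_suffix x hn)) (hwS _)
    have hwbr : ∀ n, br (brm w x) (w (br x n)).length = w (br x n) := fun n =>
      brm_spec hwemb x n
    have hwlen : ∀ n, n ≤ (w (br x n)).length := by
      intro n
      have := hwemb.len (br x n)
      rwa [br_length] at this
    by_cases hin : brm w x ∈ Pis (C.sin k (S (rr (br x l))) a')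
    · have hout : brm w x ∉ Pis (C.sout k (S (rr (br x l))) a') := fun h => hX ⟨hin, h⟩
      have hout' : ∃ N, ∀ n ≥ N, br (brm w x) n ∉ C.sout k (S (rr (br x l))) a' := by
        by_contra hc
        push Not at hc
        exact hout hc
      obtain ⟨N, hN⟩ := hout'
      have hall : ∀ n ≥ max N l, k (w (br x n)) ∈ C.e a' := by
        intro n hn
        by_contra hc
        have h3 := hN (w (br x n)).length (le_trans (le_trans (le_max_left _ _) hn) (hwlen n))
        rw [hwbr] at h3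
        exact h3 ⟨hev n (le_trans (le_max_right _ _) hn), hc⟩
      refine ⟨max N l, fun n hn => ?_⟩
      have h4 : η x a' = true := decide_eq_true ⟨max N l, hall⟩
      exact ⟨fun _ => h4, fun _ => hall n hn⟩
    · have hin' : ∃ N, ∀ n ≥ N, br (brm w x) n ∉ C.sin k (S (rr (br x l))) a' := by
        by_contra hc
        push Not at hc
        exact hin hc
      obtain ⟨N, hN⟩ := hin'
      have hall : ∀ n ≥ max N l, k (w (br x n)) ∉ C.e a' := by
        intro n hn hc
        have h3 := hN (w (br x n)).length (le_trans (le_trans (le_max_left _ _) hn) (hwlen n))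
        rw [hwbr] at h3
        exact h3 ⟨hev n (le_trans (le_max_right _ _) hn), hc⟩
      refine ⟨max N l, fun n hn => ?_⟩
      have h4 : ¬ η x a' = true := by
        intro h
        obtain ⟨N', hN'⟩ := of_decide_eq_true h
        exact hall _ (le_max_right N' _) (hN' _ (le_max_left _ _))
      exact ⟨fun h => absurd h (hall n hn), fun h => absurd h h4⟩
  · intro x n
    obtain ⟨-, -, -, -, -, h1, m, h2, h3⟩ := hF2 (br x n)
    refine ⟨m, h3, ?_⟩
    rw [h2]
    have h4 : η x (a (rr (br x n))) = true := by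
      refine decide_eq_true ⟨n + 1, fun n' hn' => ?_⟩
      have h5 : rr (br x (n + 1)) <:+ rr (br x n') := hrmono (br_suffix x hn')
      have h6 : rr (br x n) <:+ rr (br x n') :=
        hrmono (br_suffix x (le_trans (Nat.le_succ n) hn'))
      have h7 : (rr (br x n)).length < (rr (br x n')).length :=
        lt_of_lt_of_le (hrlt (br x n) (x n)) h5.length_le
      exact (hS.anti' h6 h7 (hwS (br x n'))).2
    intro hiff
    exact h1 (hiff.mpr h4)

end Pool.Agent.Work.MP_9abc7c_lc
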