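import Mathlib

/-!
The countable subsets of a set of size at most `ℵ_ n` have a cofinal family of size at most `ℵ_ n`.
-/

namespace Pool.Agent.Work.MP_9abc7c_lc

open Set Cardinal

theorem exists_cofinal (n : ℕ) (X : Type) (hX : #X ≤ ℵ_ n) :
    ∃ Z : Set (ℕ → X), #Z ≤ ℵ_ n ∧ ∀ S : ℕ → X, ∃ z ∈ Z, ∀ k, ∃ m, z m = S k := by
  classical
  induction n generalizing X with
  | zero =>
    have hX' : #X ≤ ℵ₀ := by simpa using hX
    have hc : Countable X := Cardinal.mk_le_aleph0_iff.mp hX'
    cases isEmpty_or_nonempty X with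
    | inl h =>
      exact ⟨∅, by simp, fun S => isEmptyElim (S 0)⟩
    | inr h =>
      obtain ⟨f, hf⟩ := exists_surjective_nat X
      refine ⟨{f}, ?_, fun S => ⟨f, rfl, fun k => hf (S k)⟩⟩
      have : #({f} : Set (ℕ → X)) = 1 := by simp
      rw [this]
      exact Cardinal.one_le_aleph0.trans (by simp)
  | succ n ih =>
    by_cases hle : #X ≤ ℵ_ n
    · obtain ⟨Z, hZ, h⟩ := ih X hle
      exact ⟨Z, hZ.trans (Cardinal.aleph_le_aleph.mpr (by exact_mod_cast Nat.le_succ n)), h⟩
    push Not at hle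
    -- a well order all of whose initial segments are small
    let W := (#X).ord.ToType
    have hW : #W = #X := Cardinal.mk_ord_toType _
    obtain ⟨e⟩ : Nonempty (W ≃ X) := Cardinal.eq.mp hW
    have hsucc : (ℵ_ (n + 1 : ℕ) : Cardinal) = Order.succ (ℵ_ n) := by
      rw [Cardinal.succ_aleph]
      push_cast
      rfl
    have hIio : ∀ w : W, #(Iio w) ≤ ℵ_ n := by
      intro w
      have h1 : #(Iio w) < #X := lt_of_lt_of_eq
        (Cardinal.mk_Iio_lt w (by rw [hW]; exact (Ordinal.type_toType _).symm)) hW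
      have h2 : #(Iio w) < Order.succ (ℵ_ n) := by
        rw [← hsucc]
        exact lt_of_lt_of_le h1 hX
      exact Order.lt_succ_iff.mp h2
    have haleph : ℵ₀ ≤ ℵ_ n := Cardinal.aleph0_le_aleph _
    have hbdd : ∀ S : ℕ → W, ∃ w, ∀ k, S k < w := by
      intro S
      by_contra hcon
      push Not at hcon
      have hcov : (univ : Set W) ⊆ ⋃ k, Iic (S k) := by
        intro w _
        obtain ⟨k, hk⟩ := hcon w
        exact Set.mem_iUnion.mpr ⟨k, hk⟩
      have h1 : #(univ : Set W) ≤ #(⋃ k, Iic (S k)) := Cardinal.mk_le_mk_of_subset hcov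
      have h2 : #(⋃ k, Iic (S k)) ≤ ℵ_ n := by
        refine (Cardinal.mk_iUnion_le_sum_mk).trans ?_
        refine (Cardinal.sum_le_sum _ (fun _ => ℵ_ n) fun k => ?_).trans ?_
        · have h3 : Iic (S k) = insert (S k) (Iio (S k)) := by
            ext w
            simp [le_iff_eq_or_lt]
          rw [h3]
          refine (Cardinal.mk_insert_le).trans ?_
          exact Cardinal.add_le_of_le haleph (hIio _) (Cardinal.one_le_aleph0.trans haleph)
        · rw [Cardinal.sum_const', Cardinal.mk_nat]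
          exact Cardinal.mul_le_of_le haleph haleph le_rfl
      rw [Cardinal.mk_univ, hW] at h1
      exact absurd (h1.trans h2) (not_le.mpr hle)
    choose Z hZ hZc using fun w : W => ih (Iio w) (hIio w)
    let T : (w : W) → (ℕ → Iio w) → (ℕ → X) := fun w z m => e (z m).1
    refine ⟨⋃ w, T w '' Z w, ?_, ?_⟩
    · refine (Cardinal.mk_iUnion_le_sum_mk).trans ?_
      refine (Cardinal.sum_le_sum _ (fun _ => ℵ_ (n + 1 : ℕ)) fun w => ?_).trans ?_
      · exact (Cardinal.mk_image_le).trans
          ((hZ w).trans (Cardinal.aleph_le_aleph.mpr (by exact_mod_cast Nat.le_succ n)))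
      · rw [Cardinal.sum_const']
        exact Cardinal.mul_le_of_le (Cardinal.aleph0_le_aleph _) (hW.le.trans hX) le_rfl
    · intro S
      obtain ⟨w, hw⟩ := hbdd (fun k => e.symm (S k))
      obtain ⟨z, hz, hz2⟩ := hZc w (fun k => ⟨e.symm (S k), hw k⟩)
      refine ⟨T w z, Set.mem_iUnion.mpr ⟨w, ⟨z, hz, rfl⟩⟩, fun k => ?_⟩
      obtain ⟨m, hm⟩ := hz2 k
      refine ⟨m, ?_⟩
      show e (z m).1 = S k
      rw [hm]
      exact e.apply_symm_apply _

end Pool.Agent.Work.MP_9abc7c_lc
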