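import Mathlib

/-!
A well ordered unbounded family of strictly increasing functions from an unbounded family.
-/

namespace Pool.Agent.Work.MP_9abc7c_lc

open Set Cardinal

theorem exists_scale {Ω : Type} [LinearOrder Ω] [WellFoundedLT Ω] (small : ∀ i : Ω, #(Iio i) < #Ω)
    (hω : ℵ₀ ≤ #Ω)
    (dom : ∀ (Λ : Type) (F : Λ → ℕ → ℕ), #Λ < #Ω → ∃ g : ℕ → ℕ, ∀ l, ∃ N, ∀ n ≥ N, F l n ≤ g n)
    (q : Ω → ℕ → ℕ) (hq : ∀ r : ℕ → ℕ, ∃ j, ∀ N, ∃ n ≥ N, r n < q j n) :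
    ∃ H : Ω → ℕ → ℕ, (∀ j, StrictMono (H j)) ∧ (∀ r : ℕ → ℕ, ∃ j, ∀ N, ∃ n ≥ N, r n < H j n) ∧
      ∀ j j', j ≤ j' → ∃ N, ∀ n ≥ N, H j n ≤ H j' n := by
  classical
  have _ := hω
  let step : (j : Ω) → ((i : Ω) → i < j → ℕ → ℕ) → ℕ → ℕ := fun j G n =>
    ∑ i ∈ Finset.range (n + 1),
      ((dom (Iio j) (fun i => G i.1 i.2) (small j)).choose i + q j i + 1)
  let H : Ω → ℕ → ℕ := (wellFounded_lt (α := Ω)).fix step
  have hH : ∀ j, H j = step j (fun i _ => H i) := fun j =>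
    (wellFounded_lt (α := Ω)).fix_eq step j
  let g : Ω → ℕ → ℕ := fun j => (dom (Iio j) (fun i => H i.1) (small j)).choose
  have hg : ∀ j, ∀ i < j, ∃ N, ∀ n ≥ N, H i n ≤ g j n := fun j i hi =>
    (dom (Iio j) (fun i => H i.1) (small j)).choose_spec ⟨i, hi⟩
  have hval : ∀ j n, H j n = ∑ i ∈ Finset.range (n + 1), (g j i + q j i + 1) := by
    intro j n
    rw [hH j]
  have hge : ∀ j n, g j n + q j n + 1 ≤ H j n := by
    intro j n
    rw [hval, Finset.sum_range_succ]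
    exact Nat.le_add_left _ _
  refine ⟨H, ?_, ?_, ?_⟩
  · intro j
    refine strictMono_nat_of_lt_succ fun n => ?_
    rw [hval j (n + 1), Finset.sum_range_succ, ← hval j n]
    omega
  · intro r
    obtain ⟨j, hj⟩ := hq r
    refine ⟨j, fun N => ?_⟩
    obtain ⟨n, hn, h⟩ := hj N
    refine ⟨n, hn, ?_⟩
    have := hge j n
    omega
  · intro j j' hjj
    rcases hjj.eq_or_lt with rfl | hlt
    · exact ⟨0, fun n _ => le_rfl⟩
    · obtain ⟨N, hN⟩ := hg j' j hlt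
      refine ⟨N, fun n hn => ?_⟩
      have h1 := hN n hn
      have h2 := hge j' n
      omega

end Pool.Agent.Work.MP_9abc7c_lc
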