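import Pool.Agent.Work.MP_9abc7c_lc.Family
import Pool.Agent.Work.MP_9abc7c_lc.Scale
import Pool.Agent.Work.MP_9abc7c_lc.Cofinal
import Pool.Agent.Work.MP_9abc7c_lc.Assemble

/-!
The setting is available when the bounding number is `ℵ_(n+1)` and smaller than the continuum.
-/

namespace Pool.Agent.Work.MP_9abc7c_lc

open Set Cardinal Ordinal

theorem exists_ctx {Ω : Type} [LinearOrder Ω] [WellFoundedLT Ω] (n : ℕ)
    (hΩ : #Ω = ℵ_ ((n : Ordinal.{0}) + 1)) (small : ∀ i : Ω, #(Iio i) < #Ω) (hc : #Ω < 𝔠)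
    (hs : ∃ 𝒮 : Set (Set ℕ), #𝒮 ≤ #Ω ∧
      ∀ X : Set ℕ, X.Infinite → ∃ S ∈ 𝒮, (X ∩ S).Infinite ∧ (X \ S).Infinite)
    (hub : ∃ F : Set (ℕ → ℕ), #F ≤ #Ω ∧
      ¬ ∃ g : ℕ → ℕ, ∀ f ∈ F, ∃ N, ∀ n ≥ N, f n ≤ g n)
    (hdom : ∀ (Λ : Type) (F : Λ → ℕ → ℕ), #Λ < #Ω →
      ∃ g : ℕ → ℕ, ∀ l, ∃ N, ∀ n ≥ N, F l n ≤ g n) :
    Nonempty (Ctx Ω) := by
  classical
  have hreg : (#Ω).IsRegular := hΩ ▸ isRegular_aleph_add_one _
  have hsucc : #Ω = Order.succ (ℵ_ (n : Ordinal.{0})) := hΩ.trans (succ_aleph _).symm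
  have hn : ℵ_ (n : Ordinal.{0}) < #Ω := by
    rw [hsucc]; exact Order.lt_succ _
  have hω : ℵ₀ < #Ω := (aleph0_le_aleph _).trans_lt hn
  have hneΩ : Nonempty Ω := by
    rw [← Cardinal.mk_ne_zero_iff]
    exact (Cardinal.aleph0_pos.trans hω).ne'
  have hsq : #Ω * #Ω = #Ω := Cardinal.mul_eq_self hω.le
  -- countable sets are bounded
  have hbdd : ∀ S : ℕ → Ω, ∃ i, ∀ n, S n < i := by
    intro S
    by_contra hcon
    push Not at hcon
    have h1 : (Set.univ : Set Ω) = ⋃ n, Iic (S n) := by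
      ext i
      simp only [mem_univ, mem_iUnion, mem_Iic, true_iff]
      exact hcon i
    have h2 : ∀ n, #(Iic (S n)) < #Ω := by
      intro n
      have : Iic (S n) = insert (S n) (Iio (S n)) := by
        ext j; simp [le_iff_eq_or_lt]
      rw [this]
      refine (Cardinal.mk_insert_le).trans_lt ?_
      exact Cardinal.add_lt_of_lt hω.le (small (S n)) (Cardinal.one_lt_aleph0.trans hω)
    have h4 : #(⋃ n, Iic (S n)) < #Ω := by
      refine (Cardinal.mk_iUnion_le_sum_mk).trans_lt ?_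
      exact Cardinal.sum_lt_of_isRegular hreg (by simpa using hω) h2
    rw [← h1, Cardinal.mk_univ] at h4
    exact lt_irrefl _ h4
  -- splitting family
  obtain ⟨𝒮, h𝒮, hsplit⟩ := hs
  have hne𝒮 : Nonempty 𝒮 := by
    obtain ⟨S, hS, -⟩ := hsplit Set.univ Set.infinite_univ
    exact ⟨⟨S, hS⟩⟩
  obtain ⟨e, he⟩ := exists_surj_of_card_le h𝒮
  have he' : ∀ X : Set ℕ, X.Infinite → ∃ α, (X ∩ (e α).1).Infinite ∧ (X \ (e α).1).Infinite := by
    intro X hX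
    obtain ⟨S, hS, h1⟩ := hsplit X hX
    obtain ⟨α, hα⟩ := he ⟨S, hS⟩
    exact ⟨α, by rw [hα]; exact h1⟩
  -- unbounded family
  obtain ⟨F, hF, hunb⟩ := hub
  have hneF : Nonempty F := by
    by_contra hempty
    apply hunb
    exact ⟨fun _ => 0, fun f hf => absurd ⟨f, hf⟩ hempty⟩
  obtain ⟨q, hq⟩ := exists_surj_of_card_le hF
  have hq' : ∀ r : ℕ → ℕ, ∃ j, ∀ N, ∃ n ≥ N, r n < (q j).1 n := by
    intro r
    by_contra hcon
    push Not at hcon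
    apply hunb
    refine ⟨r, fun f hf => ?_⟩
    obtain ⟨j, hj⟩ := hq ⟨f, hf⟩
    obtain ⟨N, hN⟩ := hcon j
    refine ⟨N, fun n hn => ?_⟩
    have := hN n hn
    rw [hj] at this
    exact this
  obtain ⟨H, hH1, hH2, hH3⟩ := exists_scale small hω.le hdom (fun j => (q j).1) hq'
  -- countable subsets of the whole order
  obtain ⟨Z₀, hZ₀, hZ₀c⟩ := exists_cofinal (n + 1) Ω (by
    rw [hΩ, Nat.cast_add, Nat.cast_one])
  have hneZ₀ : Nonempty Z₀ := by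
    obtain ⟨z, hz, -⟩ := hZ₀c (fun _ => Classical.arbitrary _)
    exact ⟨⟨z, hz⟩⟩
  obtain ⟨ζ, hζ⟩ := exists_surj_of_card_le (X := Ω) (Y := Z₀) (by
    rw [hΩ]
    rw [Nat.cast_add, Nat.cast_one] at hZ₀
    exact hZ₀)
  -- countable subsets of initial segments
  have hIio : ∀ γ : Ω, #(Iio γ) ≤ ℵ_ (n : Ordinal.{0}) := by
    intro γ
    have h1 := small γ
    rw [hsucc] at h1
    exact Order.lt_succ_iff.mp h1
  choose Z' hZ'1 hZ'2 using fun γ : Ω => exists_cofinal n (Iio γ) (hIio γ)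
  let Z : Ω → Set (ℕ → Ω) := fun γ =>
    (fun (z : ℕ → Iio γ) (k : ℕ) => (z k).1) '' Z' γ
  have hZc : ∀ γ, #(Z γ) ≤ ℵ_ (n : Ordinal.{0}) := fun γ => Cardinal.mk_image_le.trans (hZ'1 γ)
  have hZne : ∀ γ, (∃ a, a < γ) → (Z γ).Nonempty := by
    rintro γ ⟨a, ha⟩
    obtain ⟨z, hz, -⟩ := hZ'2 γ (fun _ => ⟨a, ha⟩)
    exact ⟨_, z, hz, rfl⟩
  have hdec : ∀ γ : Ω, ∃ d : Ω → (ℕ → Ω) × Ω × Ω × Ω,
      ((∃ a, a < γ) → ∀ σ, (d σ).1 ∈ Z γ) ∧
      ∀ z ∈ Z γ, ∀ j i' j', ∃ σ, d σ = (z, j, i', j') := by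
    intro γ
    by_cases hne : (Z γ).Nonempty
    · have hneT : Nonempty (Z γ × Ω × Ω × Ω) := by
        obtain ⟨z, hz⟩ := hne
        exact ⟨⟨⟨z, hz⟩, Classical.arbitrary _, Classical.arbitrary _, Classical.arbitrary _⟩⟩
      have hcard : #(Z γ × Ω × Ω × Ω) ≤ #Ω := by
        simp only [Cardinal.mk_prod, Cardinal.lift_id]
        rw [hsq, hsq]
        calc #(Z γ) * #Ω ≤ #Ω * #Ω := mul_le_mul_left ((hZc γ).trans hn.le) _
          _ = #Ω := hsq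
      obtain ⟨d, hd⟩ := exists_surj_of_card_le hcard
      refine ⟨fun σ => ((d σ).1.1, (d σ).2), fun _ σ => (d σ).1.2, fun z hz j i' j' => ?_⟩
      obtain ⟨σ, hσ⟩ := hd (⟨z, hz⟩, j, i', j')
      exact ⟨σ, by simp only [hσ]⟩
    · refine ⟨fun _ => (fun _ => Classical.arbitrary _, Classical.arbitrary _,
        Classical.arbitrary _, Classical.arbitrary _), fun h => absurd (hZne γ h) hne,
        fun z hz => absurd ⟨z, hz⟩ hne⟩
  choose dec hdec1 hdec2 using hdec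
  refine ⟨{
    e := fun a => (e a).1
    H := H
    ζ := fun i => (ζ i).1
    Z := Z
    dec := dec
    card_lt := hc
    aleph0_lt := hω
    small := small
    bdd := hbdd
    split := he'
    mono := hH1
    unb := hH2
    incr := hH3
    dom := hdom
    cof := ?_
    Z_small := ?_
    Z_lt := ?_
    Z_cof := ?_
    dec_mem := hdec1
    dec_surj := hdec2 }⟩
  · intro S
    obtain ⟨z, hz, hz2⟩ := hZ₀c (fun k => S ((Encodable.decode k).getD []))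
    obtain ⟨i, hi⟩ := hζ ⟨z, hz⟩
    refine ⟨i, fun s => ?_⟩
    obtain ⟨m, hm⟩ := hz2 (Encodable.encode s)
    refine ⟨m, ?_⟩
    show (ζ i).1 m = S s
    rw [hi]
    simpa using hm
  · intro γ
    have h1 : #{p : Ω × (ℕ → Ω) // p.1 < γ ∧ p.2 ∈ Z p.1} ≤
        #((γ' : Iio γ) × Z γ'.1) := by
      refine Cardinal.mk_le_of_injective
        (f := fun p => ⟨⟨p.1.1, p.2.1⟩, ⟨p.1.2, p.2.2⟩⟩) ?_
      rintro ⟨⟨a, z⟩, h1, h2⟩ ⟨⟨a', z'⟩, h1', h2'⟩ h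
      simp only [Sigma.mk.injEq, Subtype.mk.injEq] at h
      obtain ⟨h3, h4⟩ := h
      subst h3
      simp only [heq_eq_eq, Subtype.mk.injEq] at h4
      subst h4
      rfl
    refine h1.trans_lt ?_
    rw [Cardinal.mk_sigma]
    have h2 : (Cardinal.sum fun γ' : Iio γ => #(Z γ'.1)) ≤
        Cardinal.sum (fun _ : Iio γ => ℵ_ (n : Ordinal.{0})) :=
      Cardinal.sum_le_sum _ _ fun γ' => hZc γ'.1
    refine (h2.trans ?_).trans_lt hn
    rw [Cardinal.sum_const']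
    calc #(Iio γ) * ℵ_ (n : Ordinal.{0}) ≤ ℵ_ (n : Ordinal.{0}) * ℵ_ (n : Ordinal.{0}) :=
          mul_le_mul_left (hIio γ) _
      _ = ℵ_ (n : Ordinal.{0}) := Cardinal.mul_eq_self (aleph0_le_aleph _)
  · rintro γ _ ⟨z, _, rfl⟩ m
    exact (z m).2
  · intro γ S hS
    obtain ⟨z, hz, hz2⟩ := hZ'2 γ (fun n => ⟨S n, hS n⟩)
    refine ⟨_, ⟨z, hz, rfl⟩, fun n => ?_⟩
    obtain ⟨m, hm⟩ := hz2 n
    exact ⟨m, by simp only [hm]⟩

end Pool.Agent.Work.MP_9abc7c_lc
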