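import Pool.Agent.Work.MP_9abc7c_lc.Ctx
import Pool.Agent.Work.MP_9abc7c_lc.Good

/-!
Every `γ`-tree has a reduction whose values are close to their limits.
-/

namespace Pool.Agent.Work.MP_9abc7c_lc

open Set Cardinal

theorem Ctx.exists_close {Ω : Type} [LinearOrder Ω] [WellFoundedLT Ω] (C : Ctx Ω) {γ : Ω}
    {k : List Bool → ℕ} (hk : FTO k) {G : (ℕ → Bool) → Ω → Bool} (h : GT C.e γ k G) :
    ∃ φ j, Emb φ ∧ C.Close γ (k ∘ φ) (G ∘ brm φ) j := by
  classical
  have _ := hk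
  let Θ := {p : Ω × (ℕ → Ω) // p.1 < γ ∧ p.2 ∈ C.Z p.1}
  have hlim : ∀ (θ : Θ) (m : ℕ), ∃ n, ∀ x t, br x n <:+ t →
      (k t ∈ C.e (θ.1.2 m) ↔ G x (θ.1.2 m) = true) := fun θ m =>
    h.lim (θ.1.2 m) ((C.Z_lt θ.1.1 θ.1.2 θ.2.2 m).trans θ.2.1)
  choose ν hν using hlim
  obtain ⟨N₀, hN₀⟩ := C.dom Θ ν (C.Z_small γ)
  let D : ℕ → ℕ := fun l => Nat.findGreatest (fun d => ∀ m < d, N₀ m ≤ l) l
  have hD1 : ∀ l, ∀ m < D l, N₀ m ≤ l := by
    intro l
    exact Nat.findGreatest_spec (P := fun d => ∀ m < d, N₀ m ≤ l) (m := 0) (Nat.zero_le l)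
      (fun m hm => absurd hm (Nat.not_lt_zero m))
  have hD2 : ∀ d, ∃ L, ∀ l ≥ L, d ≤ D l := by
    intro d
    refine ⟨d + ∑ m ∈ Finset.range d, N₀ m, fun l hl => ?_⟩
    refine Nat.le_findGreatest (by omega) fun m hm => ?_
    have : N₀ m ≤ ∑ m ∈ Finset.range d, N₀ m :=
      Finset.single_le_sum (f := N₀) (fun _ _ => Nat.zero_le _) (Finset.mem_range.mpr hm)
    omega
  let S : Ω → Set (List Bool) := fun j => {t | k t < C.H j (D t.length)}
  let Q : Ω → Set (ℕ → Bool) := fun j => {x | ∀ n, ∃ k' ≥ n, br x k' ∈ S j}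
  have hcov : ∀ x, ∃ j, x ∈ Q j := by
    intro x
    by_contra hcon
    push Not at hcon
    choose L hL using hD2
    obtain ⟨j, hj⟩ := C.unb (fun m => k (br x (max (L m) m)))
    have h1 : ∃ n, ∀ k' ≥ n, br x k' ∉ S j := by
      have := hcon j
      simp only [Q, Set.mem_ofPred_eq] at this
      push Not at this
      exact this
    obtain ⟨n, hn⟩ := h1
    obtain ⟨m, hm, hlt⟩ := hj n
    have h2 := hn (max (L m) m) (le_trans hm (le_max_right _ _))
    simp only [S, Set.mem_ofPred_eq, br_length, not_lt] at h2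
    have h3 : m ≤ D (max (L m) m) := hL m _ (le_max_left _ _)
    have h4 := (C.mono j).monotone h3
    exact absurd (lt_of_lt_of_le hlt (h4.trans h2)) (lt_irrefl _)
  obtain ⟨j, hj⟩ : ∃ j, ¬ (Q j).Countable := by
    by_contra hcon
    push Not at hcon
    have h1 := card_iUnion_lt C.card_lt Q hcon
    have h2 : (⋃ j, Q j) = Set.univ :=
      Set.eq_univ_of_forall fun x => Set.mem_iUnion.mpr (hcov x)
    rw [h2, Cardinal.mk_univ, card_branches] at h1
    exact lt_irrefl _ h1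
  obtain ⟨φ, hφ, hS⟩ := emb_of_uncountable (S := S j) hj
  refine ⟨φ, j, hφ, ?_⟩
  intro γ' hγ' z hz
  let θ : Θ := ⟨(γ', z), hγ', hz⟩
  obtain ⟨M, hM⟩ := hN₀ θ
  refine (List.finite_length_lt Bool (∑ m ∈ Finset.range M, ν θ m)).subset ?_
  intro t ht
  simp only [Set.mem_ofPred_eq] at ht ⊢
  by_contra hlen
  push Not at hlen
  apply ht
  intro x hx m hm
  have hb : ν θ m ≤ (φ t).length := by
    by_cases hmM : m < M
    · have h1 : ν θ m ≤ ∑ m ∈ Finset.range M, ν θ m :=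
        Finset.single_le_sum (f := ν θ) (fun _ _ => Nat.zero_le _) (Finset.mem_range.mpr hmM)
      have h2 := hφ.len t
      omega
    · have h1 := hM m (not_lt.mp hmM)
      have h2 : C.H j m < C.H j (D (φ t).length) := lt_of_le_of_lt hm (hS t)
      have h3 := hD1 _ m ((C.mono j).lt_iff_lt.mp h2)
      omega
  have h1 : br (brm φ x) (ν θ m) <:+ φ t := (brm_of_onBr hφ hx).br_suffix hb
  exact hν θ m (brm φ x) (φ t) h1

end Pool.Agent.Work.MP_9abc7c_lc
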