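import Pool.Agent.Work.MP_9abc7c_lc.Ctx

/-!
Passing to further embeddings.
-/

namespace Pool.Agent.Work.MP_9abc7c_lc

open Set Cardinal

lemma br_brm_suffix {φ : List Bool → List Bool} (hφ : Emb φ) (x : ℕ → Bool) (n : ℕ) :
    br (brm φ x) n <:+ φ (br x n) :=
  (brm_spec hφ x n).br_suffix (by have := hφ.len (br x n); simpa using this)

lemma br_brm_eq {φ : List Bool → List Bool} (hφ : Emb φ) {x x' : ℕ → Bool} {n : ℕ}
    (h : br x n = br x' n) : br (brm φ x) n = br (brm φ x') n :=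
  eq_of_suffix_eq (br_brm_suffix hφ x n) (h ▸ br_brm_suffix hφ x' n) (by simp)

lemma LimAt.comp {E : Set ℕ} {h : List Bool → ℕ} {c : (ℕ → Bool) → Bool} (hL : LimAt E h c)
    {φ : List Bool → List Bool} (hφ : Emb φ) :
    LimAt E (h ∘ φ) (fun x => c (brm φ x)) := by
  obtain ⟨n, hn⟩ := hL
  exact ⟨n, fun x t ht => hn _ _ ((br_brm_suffix hφ x n).trans (hφ.mono ht))⟩

variable {Ω : Type} [LinearOrder Ω]

lemma GT.comp {e : Ω → Set ℕ} {γ : Ω} {g : List Bool → ℕ} {G : (ℕ → Bool) → Ω → Bool}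
    (h : GT e γ g G) {φ : List Bool → List Bool} (hφ : Emb φ) :
    GT e γ (g ∘ φ) (G ∘ brm φ) := by
  refine ⟨fun a ha => (h.lim a ha).comp hφ, fun γ' hγ' => ?_, fun s => ?_⟩
  · obtain ⟨n, hn⟩ := h.uc γ' hγ'
    exact ⟨n, fun x x' hx a ha => hn _ _ (br_brm_eq hφ hx) a ha⟩
  · obtain ⟨m, -, hm⟩ := hφ s
    obtain ⟨a, ha, b, hb⟩ := h.sep m
    refine ⟨a, ha, b, fun i t => ?_⟩
    obtain ⟨u, hu⟩ := (hm i).trans (hφ.mono (List.suffix_append t (i :: s)))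
    have := hb i u
    rw [hu] at this
    exact this

variable {C : Ctx Ω}

lemma Ctx.GG_comp (γ σ : Ω) (G : (ℕ → Bool) → Ω → Bool) (φ : List Bool → List Bool) :
    C.GG γ σ (G ∘ brm φ) = C.GG γ σ G ∘ brm φ := rfl

lemma Ctx.Close.comp {γ j : Ω} {k : List Bool → ℕ} {G : (ℕ → Bool) → Ω → Bool}
    (h : C.Close γ k G j) {φ : List Bool → List Bool} (hφ : Emb φ) :
    C.Close γ (k ∘ φ) (G ∘ brm φ) j := by
  intro γ' hγ' z hz
  refine ((h γ' hγ' z hz).preimage (f := φ) hφ.injective.injOn).subset ?_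
  intro t ht hcon
  exact ht fun x hx m hm => hcon (brm φ x) (brm_of_onBr hφ hx) m hm

lemma Ctx.BrFar.comp {σ γ₂ : Ω} {z₂ : ℕ → Ω} {k : List Bool → ℕ}
    {η : (ℕ → Bool) → Ω → Bool} (h : C.BrFar k σ γ₂ z₂ η) {φ : List Bool → List Bool}
    (hφ : Emb φ) : C.BrFar (k ∘ φ) σ γ₂ z₂ (η ∘ brm φ) := by
  obtain ⟨h1, h2, h3⟩ := h
  have key : ∀ x n, φ (br x n) = br (brm φ x) (φ (br x n)).length := fun x n =>
    (brm_spec hφ x n).symm
  refine ⟨h1, fun x a ha => ?_, fun x n => ?_⟩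
  · obtain ⟨N, hN⟩ := h2 (brm φ x) a ha
    refine ⟨N, fun n hn => ?_⟩
    have := hN (φ (br x n)).length (by have := hφ.len (br x n); rw [br_length] at this; omega)
    rw [← key] at this
    exact this
  · obtain ⟨m, hm⟩ := h3 (brm φ x) (φ (br x n)).length
    rw [← key] at hm
    exact ⟨m, hm⟩

lemma Ctx.OffFar.comp {γ σ : Ω} {z₁ : ℕ → Ω} {k : List Bool → ℕ}
    {G : (ℕ → Bool) → Ω → Bool} (h : C.OffFar γ k G σ z₁) {φ : List Bool → List Bool}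
    (hφ : Emb φ) : C.OffFar γ (k ∘ φ) (G ∘ brm φ) σ z₁ := by
  obtain ⟨h1, h2⟩ := h
  refine ⟨h1, fun s i t x ht hx => ?_⟩
  obtain ⟨m, -, hm⟩ := hφ s
  exact h2 m i (φ t) (brm φ x) ((hm i).trans (hφ.mono ht))
    ((brm_of_onBr hφ hx).suffix (hm (!i)))

lemma Yset_comp_subset {H : ℕ → ℕ} {χ : ℕ → List Bool} {G : (ℕ → Bool) → ℕ → Bool}
    (b : (ℕ → Bool) → ℕ → Bool) : Yset H χ (G ∘ b) ⊆ Yset H χ G := by
  rintro y ⟨Z, hZ, hy⟩
  rw [image_comp] at hZ hy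
  exact ⟨b '' Z, hZ, hy⟩

/-- The piece obtained by a further embedding. -/
noncomputable def Piece.comp (p : Piece C) {φ : List Bool → List Bool} (hφ : Emb φ) : Piece C where
  k := p.k ∘ φ
  γ := p.γ
  σ := p.σ
  j := p.j
  γ₂ := p.γ₂
  y := p.y
  G := p.G ∘ brm φ
  η := p.η ∘ brm φ
  z₁ := p.z₁
  z₂ := p.z₂
  YY := p.YY
  fto := p.fto.le ⟨φ, hφ, rfl⟩
  gt := p.gt.comp hφ
  inj := p.inj.comp (brm_injective hφ)
  ty := p.ty.mono (by rw [Ctx.GG_comp]; exact range_comp_subset_range _ _)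
  cnt := p.cnt
  sub := fun σ' hσ' => (Yset_comp_subset _).trans (p.sub σ' hσ')
  close := p.close.comp hφ
  brfar := p.brfar.comp hφ
  offfar := p.offfar.comp hφ

/-- The limit map of a piece is injective. -/
lemma Piece.ext_of_agree (p : Piece C) {x x' : ℕ → Bool} (h : ∀ a < p.γ, p.G x a = p.G x' a) :
    x = x' := by
  apply p.inj
  funext m
  have hex : ∃ a, a < p.γ := by
    obtain ⟨a, ha, -⟩ := p.gt.sep []
    exact ⟨a, ha⟩
  exact h _ (C.Z_lt _ _ (C.dec_mem _ hex p.σ) m)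

lemma GT.lim_code {γ : Ω} {g : List Bool → ℕ} {G : (ℕ → Bool) → Ω → Bool}
    (h : GT C.e γ g G) (σ : Ω) : Lim (code C.e (C.dec γ σ).1) g (C.GG γ σ G) := by
  have hex : ∃ a, a < γ := by
    obtain ⟨a, ha, -⟩ := h.sep []
    exact ⟨a, ha⟩
  intro m
  obtain ⟨n, hn⟩ := h.lim _ (C.Z_lt _ _ (C.dec_mem _ hex σ) m)
  refine ⟨n, fun x t ht => ?_⟩
  have h1 := hn x t ht
  classical
  unfold code Ctx.GG
  by_cases h2 : G x ((C.dec γ σ).1 m) = true
  · rw [h2]; exact decide_eq_true (h1.mpr h2)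
  · rw [decide_eq_false (fun h3 => h2 (h1.mp h3))]
    simp only [Bool.not_eq_true] at h2
    exact h2.symm

end Pool.Agent.Work.MP_9abc7c_lc
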