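import Pool.Agent.Work.MP_9abc7c_lc.Adj

/-!
Every piece has few earlier neighbours.
-/

namespace Pool.Agent.Work.MP_9abc7c_lc

open Set Cardinal

/-- The neighbours at the same height. -/
theorem count_same {Ω : Type} [LinearOrder Ω] [WellFoundedLT Ω] {C : Ctx Ω} {ι : Type}
    (r : ι → ι → Prop) (hr : ∀ i j, r i j ∨ i = j ∨ r j i) (P : ι → Piece C)
    (hP : ∀ i j, r i j → Rel (P i) (P j)) (p : Piece C) :
    #{j | (P j).γ = p.γ ∧ (P j).σ < p.σ ∧ (P j).y ∈ p.YY (P j).σ} < #Ω := by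
  let f : {j | (P j).γ = p.γ ∧ (P j).σ < p.σ ∧ (P j).y ∈ p.YY (P j).σ} →
      Σ σ' : Iio p.σ, p.YY σ'.1 := fun j => ⟨⟨(P j.1).σ, j.2.2.1⟩, ⟨(P j.1).y, j.2.2.2⟩⟩
  have hf : Function.Injective f := by
    rintro ⟨j, hj1, hj2, hj3⟩ ⟨j', hj1', hj2', hj3'⟩ h
    have h1 : (P j).σ = (P j').σ := by
      have := congrArg (fun q : Σ σ' : Iio p.σ, p.YY σ'.1 => q.1.1) h
      exact this
    have h2 : (P j).y = (P j').y := by
      have := congrArg (fun q : Σ σ' : Iio p.σ, p.YY σ'.1 => q.2.1) h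
      exact this
    rcases hr j j' with h3 | h3 | h3
    · exact absurd h2 ((hP _ _ h3).r1 (hj1.trans hj1'.symm) h1).1
    · exact Subtype.ext h3
    · exact absurd h2.symm ((hP _ _ h3).r1 (hj1'.trans hj1.symm) h1.symm).1
  refine (Cardinal.mk_le_of_injective hf).trans_lt ?_
  rw [Cardinal.mk_sigma]
  refine lt_of_le_of_lt (Cardinal.sum_le_sum _ (fun _ => ℵ₀) ?_) ?_
  · intro σ'
    exact (p.cnt σ'.1 σ'.2).le_aleph0
  · rw [Cardinal.sum_const']
    exact Cardinal.mul_lt_of_lt C.aleph0_lt.le (C.small p.σ) C.aleph0_lt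

/-- The neighbours at lower heights. -/
theorem count_lower {Ω : Type} [LinearOrder Ω] [WellFoundedLT Ω] {C : Ctx Ω} {ι : Type}
    (r : ι → ι → Prop) (hr : ∀ i j, r i j ∨ i = j ∨ r j i) (P : ι → Piece C)
    (hP : ∀ i j, r i j → Rel (P i) (P j)) (p : Piece C) :
    #{j | (P j).γ < p.γ ∧ (P j).σ < p.j ∧
      ∃ x' x, ∀ a < (P j).γ, (P j).G x' a = p.G x a} < #Ω := by
  choose n hn using p.gt.uc
  set U := {j | (P j).γ < p.γ ∧ (P j).σ < p.j ∧
      ∃ x' x, ∀ a < (P j).γ, (P j).G x' a = p.G x a} with hU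
  choose x' x hx using fun j : U => j.2.2.2
  let f : U → (Iio p.γ × Iio p.j) × List Bool := fun j =>
    ((⟨(P j.1).γ, j.2.1⟩, ⟨(P j.1).σ, j.2.2.1⟩), br (x j) (n (P j.1).γ j.2.1))
  have hf : Function.Injective f := by
    intro j j' h
    have h1 : (P j.1).γ = (P j'.1).γ := by
      have := congrArg (fun q : (Iio p.γ × Iio p.j) × List Bool => q.1.1.1) h
      exact this
    have h2 : (P j.1).σ = (P j'.1).σ := by
      have := congrArg (fun q : (Iio p.γ × Iio p.j) × List Bool => q.1.2.1) h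
      exact this
    have h3 : br (x j) (n (P j.1).γ j.2.1) = br (x j') (n (P j'.1).γ j'.2.1) := by
      have := congrArg (fun q : (Iio p.γ × Iio p.j) × List Bool => q.2) h
      exact this
    have h4 : ∀ a < (P j.1).γ, p.G (x j) a = p.G (x j') a := by
      apply hn (P j.1).γ j.2.1
      rw [h3]
      congr 1
      simp only [h1]
    have h5 : ∀ a < (P j.1).γ, (P j.1).G (x' j) a = (P j'.1).G (x' j') a := by
      intro a ha
      rw [hx j a ha, h4 a ha, hx j' a (h1 ▸ ha)]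
    rcases hr j.1 j'.1 with h6 | h6 | h6
    · refine absurd ?_ (((hP _ _ h6).r1 h1 h2).2 (x' j) (x' j'))
      intro a ha
      exact h5 a (h1 ▸ ha)
    · exact Subtype.ext h6
    · refine absurd ?_ (((hP _ _ h6).r1 h1.symm h2.symm).2 (x' j') (x' j))
      intro a ha
      exact (h5 a ha).symm
  refine (Cardinal.mk_le_of_injective hf).trans_lt ?_
  rw [Cardinal.mk_prod, Cardinal.mk_prod]
  simp only [Cardinal.lift_id]
  refine Cardinal.mul_lt_of_lt C.aleph0_lt.le
    (Cardinal.mul_lt_of_lt C.aleph0_lt.le (C.small _) (C.small _)) ?_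
  exact lt_of_le_of_lt Cardinal.mk_le_aleph0 C.aleph0_lt

theorem count_neighbours {Ω : Type} [LinearOrder Ω] [WellFoundedLT Ω] {C : Ctx Ω} {ι : Type}
    (r : ι → ι → Prop) (hr : ∀ i j, r i j ∨ i = j ∨ r j i) (P : ι → Piece C)
    (hP : ∀ i j, r i j → Rel (P i) (P j)) (i : ι) :
    #{j | ((P j).γ < (P i).γ ∨ ((P j).γ = (P i).γ ∧ (P j).σ < (P i).σ)) ∧
      (range (P i).k ∩ range (P j).k).Infinite} < #Ω := by
  have hsub : {j | ((P j).γ < (P i).γ ∨ ((P j).γ = (P i).γ ∧ (P j).σ < (P i).σ)) ∧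
      (range (P i).k ∩ range (P j).k).Infinite} ⊆
      {j | (P j).γ = (P i).γ ∧ (P j).σ < (P i).σ ∧ (P j).y ∈ (P i).YY (P j).σ} ∪
      {j | (P j).γ < (P i).γ ∧ (P j).σ < (P i).j ∧
        ∃ x' x, ∀ a < (P j).γ, (P j).G x' a = (P i).G x a} := by
    rintro j ⟨h1, h2⟩
    have h2' : (range (P j).k ∩ range (P i).k).Infinite := by rwa [inter_comm]
    rcases h1 with h1 | ⟨h1, h1'⟩
    · right
      rcases hr i j with h3 | h3 | h3
      · exact absurd (adj_dis h1.le le_rfl ((hP _ _ h3).r3 h1)) h2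
      · subst h3
        exact absurd h1 (lt_irrefl _)
      · obtain ⟨h4, h5⟩ := adj_lower h1 ((hP _ _ h3).r4 h1) h2'
        exact ⟨h1, h4, h5⟩
    · left
      rcases hr i j with h3 | h3 | h3
      · exact absurd (adj_dis h1.le le_rfl ((hP _ _ h3).r2b h1.symm h1')) h2
      · subst h3
        exact absurd h1' (lt_irrefl _)
      · rcases (hP _ _ h3).r2a h1 h1' with h4 | h4
        · exact ⟨h1, h1', h4⟩
        · exact absurd (adj_dis h1.ge le_rfl h4) h2'
  refine (Cardinal.mk_le_mk_of_subset hsub).trans_lt ?_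
  refine (Cardinal.mk_union_le _ _).trans_lt ?_
  exact Cardinal.add_lt_of_lt C.aleph0_lt.le (count_same r hr P hP (P i))
    (count_lower r hr P hP (P i))

end Pool.Agent.Work.MP_9abc7c_lc
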