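import Pool.Agent.Work.MP_9abc7c_lc.Types

/-!
The setting for the general case: an initial ordinal `Ω` whose cardinal is the bounding number,
a splitting family `e`, a scale `H`, and few enumerations of countable sets.
-/

namespace Pool.Agent.Work.MP_9abc7c_lc

open Set Cardinal

/-- The setting. -/
structure Ctx (Ω : Type) [LinearOrder Ω] where
  e : Ω → Set ℕ
  H : Ω → ℕ → ℕ
  ζ : Ω → ℕ → Ω
  Z : Ω → Set (ℕ → Ω)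
  dec : Ω → Ω → (ℕ → Ω) × Ω × Ω × Ω
  card_lt : #Ω < 𝔠
  aleph0_lt : ℵ₀ < #Ω
  small : ∀ i : Ω, #(Iio i) < #Ω
  bdd : ∀ S : ℕ → Ω, ∃ i, ∀ n, S n < i
  split : ∀ X : Set ℕ, X.Infinite → ∃ a, (X ∩ e a).Infinite ∧ (X \ e a).Infinite
  mono : ∀ j, StrictMono (H j)
  unb : ∀ r : ℕ → ℕ, ∃ j, ∀ N, ∃ n ≥ N, r n < H j n
  incr : ∀ j j', j ≤ j' → ∃ N, ∀ n ≥ N, H j n ≤ H j' n
  dom : ∀ (Λ : Type) (F : Λ → ℕ → ℕ), #Λ < #Ω → ∃ g : ℕ → ℕ, ∀ l, ∃ N, ∀ n ≥ N, F l n ≤ g n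
  cof : ∀ S : List Bool → Ω, ∃ i, ∀ s, ∃ m, ζ i m = S s
  Z_small : ∀ γ, #{p : Ω × (ℕ → Ω) // p.1 < γ ∧ p.2 ∈ Z p.1} < #Ω
  Z_lt : ∀ γ, ∀ z ∈ Z γ, ∀ m, z m < γ
  Z_cof : ∀ γ, ∀ S : ℕ → Ω, (∀ n, S n < γ) → ∃ z ∈ Z γ, ∀ n, ∃ m, z m = S n
  dec_mem : ∀ γ, (∃ a, a < γ) → ∀ σ, (dec γ σ).1 ∈ Z γ
  dec_surj : ∀ γ, ∀ z ∈ Z γ, ∀ j i' j', ∃ σ, dec γ σ = (z, j, i', j')

/-- Convergence at one set: from some level on, membership of the values in `E` is decided by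
the branch. -/
def LimAt (E : Set ℕ) (h : List Bool → ℕ) (c : (ℕ → Bool) → Bool) : Prop :=
  ∃ n, ∀ x t, br x n <:+ t → (h t ∈ E ↔ c x = true)

/-- `g` is a `γ`-tree with limit map `G`. -/
structure GT {Ω : Type} [LinearOrder Ω] (e : Ω → Set ℕ) (γ : Ω) (g : List Bool → ℕ)
    (G : (ℕ → Bool) → Ω → Bool) : Prop where
  lim : ∀ a < γ, LimAt (e a) g (fun x => G x a)
  uc : ∀ γ' < γ, ∃ n, ∀ x x', br x n = br x' n → ∀ a < γ', G x a = G x' a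
  sep : ∀ s : List Bool, ∃ a < γ, ∃ b : Bool, ∀ i t, (g (t ++ i :: s) ∈ e a ↔ (i ^^ b) = true)

/-- The types of the uncountable sets of limits. -/
def Yset (H : ℕ → ℕ) (χ : ℕ → List Bool) (G : (ℕ → Bool) → ℕ → Bool) : Set (ℕ → Bool) :=
  {y | ∃ Z : Set (ℕ → Bool), ¬ (G '' Z).Countable ∧ Ty H χ y (G '' Z)}

section

variable {Ω : Type} [LinearOrder Ω] (C : Ctx Ω)

/-- The limit map of a stage. -/
def Ctx.GG (γ σ : Ω) (G : (ℕ → Bool) → Ω → Bool) (x : ℕ → Bool) (m : ℕ) : Bool :=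
  G x ((C.dec γ σ).1 m)

/-- The intervals of a stage. -/
def Ctx.HH (γ σ : Ω) : ℕ → ℕ := C.H (C.dec γ σ).2.1

/-- The nodes of a stage. -/
noncomputable def Ctx.XX (γ σ : Ω) : ℕ → List Bool :=
  chi (code C.e (C.ζ (C.dec γ σ).2.2.1)) (C.H (C.dec γ σ).2.2.2)

/-- The types at a stage. -/
def Ctx.YS (γ σ : Ω) (G : (ℕ → Bool) → Ω → Bool) : Set (ℕ → Bool) :=
  Yset (C.HH γ σ) (C.XX γ σ) (C.GG γ σ G)

/-- Almost every value agrees with its limits as far as it can see with `H j`. -/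
def Ctx.Close (γ : Ω) (k : List Bool → ℕ) (G : (ℕ → Bool) → Ω → Bool) (j : Ω) : Prop :=
  ∀ γ' < γ, ∀ z ∈ C.Z γ', {t | ¬ ∀ x, OnBr t x → ∀ m, C.H j m ≤ k t →
    (k t ∈ C.e (z m) ↔ G x (z m) = true)}.Finite

/-- Along branches the values converge to `η` below `γ₂`, but every value can see with `H σ` that
it is different from its limit. -/
def Ctx.BrFar (k : List Bool → ℕ) (σ γ₂ : Ω) (z₂ : ℕ → Ω) (η : (ℕ → Bool) → Ω → Bool) : Prop :=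
  z₂ ∈ C.Z γ₂ ∧ (∀ x, ∀ a < γ₂, ∃ N, ∀ n ≥ N, (k (br x n) ∈ C.e a ↔ η x a = true)) ∧
    ∀ x n, ∃ m, C.H σ m ≤ k (br x n) ∧ ¬ (k (br x n) ∈ C.e (z₂ m) ↔ η x (z₂ m) = true)

/-- Off a branch `x` every value can see with `H σ` that it is different from the limit at `x`. -/
def Ctx.OffFar (γ : Ω) (k : List Bool → ℕ) (G : (ℕ → Bool) → Ω → Bool) (σ : Ω)
    (z₁ : ℕ → Ω) : Prop :=
  z₁ ∈ C.Z γ ∧ ∀ (s : List Bool) (i : Bool) (t : List Bool) (x : ℕ → Bool),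
    (i :: s) <:+ t → OnBr ((!i) :: s) x →
      ∃ m, C.H σ m ≤ k t ∧ ¬ (k t ∈ C.e (z₁ m) ↔ G x (z₁ m) = true)

/-- The pieces of the construction. -/
structure Piece where
  k : List Bool → ℕ
  γ : Ω
  σ : Ω
  j : Ω
  γ₂ : Ω
  y : ℕ → Bool
  G : (ℕ → Bool) → Ω → Bool
  η : (ℕ → Bool) → Ω → Bool
  z₁ : ℕ → Ω
  z₂ : ℕ → Ω
  YY : Ω → Set (ℕ → Bool)
  fto : FTO k
  gt : GT C.e γ k G
  inj : Function.Injective (C.GG γ σ G)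
  ty : Ty (C.HH γ σ) (C.XX γ σ) y (range (C.GG γ σ G))
  cnt : ∀ σ' < σ, (YY σ').Countable
  sub : ∀ σ' < σ, C.YS γ σ' G ⊆ YY σ'
  close : C.Close γ k G j
  brfar : C.BrFar k σ γ₂ z₂ η
  offfar : C.OffFar γ k G σ z₁

/-- No limit of `p` and limit of `p'` agree below `μ`. -/
def Dis {C : Ctx Ω} (μ : Ω) (p' p : Piece C) : Prop :=
  ∀ x' x, ¬ ∀ a < μ, p'.G x' a = p.G x a

/-- The relation between an earlier piece `p'` and a later piece `p`. -/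
structure Rel {C : Ctx Ω} (p' p : Piece C) : Prop where
  r1 : p'.γ = p.γ → p'.σ = p.σ → p'.y ≠ p.y ∧ Dis p.γ p' p
  r2a : p'.γ = p.γ → p'.σ < p.σ → p'.y ∈ p.YY p'.σ ∨ Dis p.γ p' p
  r2b : p'.γ = p.γ → p.σ < p'.σ → Dis p.γ p' p
  r3 : p.γ < p'.γ → Dis p.γ p' p
  r4 : p'.γ < p.γ → p.γ ≤ p'.γ₂ → ∀ x' x, (∀ a < p'.γ, p'.G x' a = p.G x a) →
    ¬ ∀ a < p.γ, p'.η x' a = p.G x a

end

end Pool.Agent.Work.MP_9abc7c_lc
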