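import Pool.Agent.Work.MP_9abc7c_lc.Ctx

/-!
Embeddings of a given type with injective limit map, many types for a given injective limit map,
and existence of a stage with uncountably many types.
-/

namespace Pool.Agent.Work.MP_9abc7c_lc

open Set Cardinal

/-- Recursion for embeddings with an invariant and a record of the choices. -/
lemma et_emb_rec (P : List Bool → Prop) (s₀ : List Bool) (h₀ : P s₀)
    (R : List Bool → (Bool → List Bool) → Prop)
    (h : ∀ s, P s → ∃ (m : List Bool) (u : Bool → List Bool), s <:+ m ∧ (∀ i, (i :: m) <:+ u i) ∧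
      (∀ i, P (u i)) ∧ R s u) :
    ∃ φ, Emb φ ∧ (∀ s, P (φ s)) ∧ ∀ s, R (φ s) (fun i => φ (i :: s)) := by
  classical
  choose m u hm hu hP hR using h
  let Φ : List Bool → {s // P s} := fun s =>
    List.rec ⟨s₀, h₀⟩ (fun i _ r => ⟨u r.1 r.2 i, hP r.1 r.2 i⟩) s
  exact ⟨fun s => (Φ s).1, fun s => ⟨m (Φ s).1 (Φ s).2, hm _ _, fun i => hu _ _ i⟩,
    fun s => (Φ s).2, fun s => hR (Φ s).1 (Φ s).2⟩

lemma et_not_countable_range {β : Type} {f : (ℕ → Bool) → β} (hf : Function.Injective f) :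
    ¬ (range f).Countable := by
  intro hc
  have h1 : #(range f) ≤ ℵ₀ := Cardinal.mk_le_aleph0_iff.mpr hc.to_subtype
  rw [Cardinal.mk_range_eq f hf, card_branches] at h1
  exact absurd h1 (not_le.mpr Cardinal.aleph0_lt_continuum)

/-- two branches through `t` split above `t` -/
lemma et_suffix_split {t s : List Bool} {z : Bool → ℕ → Bool} (hz : ∀ i, OnBr t (z i))
    (hzs : ∀ i, br (z i) (s.length + 1) = i :: s) : t <:+ s := by
  have h1 : t.length ≤ s.length := by
    by_contra hlt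
    push Not at hlt
    have h2 := (hz true).br_suffix (n := s.length + 1) hlt
    have h3 := (hz false).br_suffix (n := s.length + 1) hlt
    rw [hzs] at h2 h3
    exact no_both h2 h3
  have h2 := (hz true).suffix_br (n := s.length + 1) (by omega)
  rw [hzs] at h2
  exact suffix_of_suffix_le h2 (List.suffix_cons _ _) h1

theorem exists_emb_of_mem_Yset {F : ℕ → ℕ → Bool} {h : List Bool → ℕ}
    {G : (ℕ → Bool) → ℕ → Bool} (hL : Lim F h G) {H : ℕ → ℕ}
    {χ : ℕ → List Bool} {y : ℕ → Bool} (hy : y ∈ Yset H χ G) :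
    ∃ φ, Emb φ ∧ Function.Injective (G ∘ brm φ) ∧ Ty H χ y (range (G ∘ brm φ)) := by
  classical
  obtain ⟨Z, hZ, hT⟩ := hy
  set S : List Bool → Prop := fun t => ¬ (G '' (Z ∩ {x | OnBr t x})).Countable with hS
  have hS0 : S [] := by
    intro hc
    apply hZ
    refine hc.mono ?_
    rintro _ ⟨x, hx, rfl⟩
    exact ⟨x, ⟨hx, rfl⟩, rfl⟩
  have hcount : (⋃ t ∈ {t | ¬ S t}, (G '' (Z ∩ {x | OnBr t x}))).Countable := by
    refine (Set.to_countable {t | ¬ S t}).biUnion ?_
    intro t ht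
    exact not_not.mp ht
  set C := ⋃ t ∈ {t | ¬ S t}, (G '' (Z ∩ {x | OnBr t x})) with hC
  obtain ⟨φ, hφ, hP, hR⟩ := et_emb_rec S [] hS0
    (fun _ u => ∃ d, ∀ x x', OnBr (u true) x → OnBr (u false) x' → G x d ≠ G x' d)
    (by
      intro t ht
      -- two points with different values outside the countable part
      have hunc : ¬ ((G '' (Z ∩ {x | OnBr t x})) \ C).Countable := by
        intro hc
        apply ht
        refine (hc.union hcount).mono ?_
        intro g hg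
        by_cases hgC : g ∈ C
        · exact Or.inr hgC
        · exact Or.inl ⟨hg, hgC⟩
      have hnt : ((G '' (Z ∩ {x | OnBr t x})) \ C).Nontrivial := by
        by_contra hcon
        rw [Set.not_nontrivial_iff] at hcon
        exact hunc hcon.countable
      obtain ⟨g₁, ⟨⟨z₁, ⟨hz₁, hz₁t⟩, rfl⟩, hg₁⟩, g₂, ⟨⟨z₂, ⟨hz₂, hz₂t⟩, rfl⟩, hg₂⟩, hne⟩ := hnt
      have hin : ∀ z ∈ Z, G z ∉ C → ∀ n, S (br z n) := by
        intro z hz hzC n
        by_contra hcon
        have hcon' : br z n ∈ {t | ¬ S t} := not_not.mpr hcon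
        exact hzC (Set.mem_biUnion (x := br z n) hcon' ⟨z, ⟨hz, onBr_br z n⟩, rfl⟩)
      have hne' : z₁ ≠ z₂ := fun e => hne (by rw [e])
      obtain ⟨s, z, hz, hzs⟩ := branch_split' hne'
      have hzz : ∀ i, OnBr t (z i) ∧ (∀ n, S (br (z i) n)) := by
        rcases hz with ⟨h1, h2⟩ | ⟨h1, h2⟩
        · intro i
          cases i
          · rw [h2]; exact ⟨hz₂t, hin z₂ hz₂ hg₂⟩
          · rw [h1]; exact ⟨hz₁t, hin z₁ hz₁ hg₁⟩
        · intro i
          cases i
          · rw [h2]; exact ⟨hz₁t, hin z₁ hz₁ hg₁⟩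
          · rw [h1]; exact ⟨hz₂t, hin z₂ hz₂ hg₂⟩
      have hzG : G (z true) ≠ G (z false) := by
        rcases hz with ⟨h1, h2⟩ | ⟨h1, h2⟩
        · rw [h1, h2]; exact hne
        · rw [h1, h2]; exact hne.symm
      obtain ⟨d, hd⟩ : ∃ d, G (z true) d ≠ G (z false) d := by
        by_contra hcon
        push Not at hcon
        exact hzG (funext hcon)
      obtain ⟨n, -, hn⟩ := hL.unif' (d + 1)
      refine ⟨s, fun i => br (z i) (max n (s.length + 1)),
        et_suffix_split (fun i => (hzz i).1) hzs, ?_, fun i => (hzz i).2 _, d, ?_⟩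
      · intro i
        rw [← hzs i]
        exact br_suffix _ (le_max_right _ _)
      · intro x x' hx hx'
        have e1 : G x d = G (z true) d :=
          hn d (Nat.lt_succ_self d) _ _ (br_eq_of_onBr hx (onBr_br _ _) (by simp))
        have e2 : G x' d = G (z false) d :=
          hn d (Nat.lt_succ_self d) _ _ (br_eq_of_onBr hx' (onBr_br _ _) (by simp))
        rw [e1, e2]
        exact hd)
  refine ⟨φ, hφ, ?_, ?_⟩
  · intro x x' hxx
    by_contra hne
    obtain ⟨s, z, hz, hzs⟩ := branch_split' hne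
    obtain ⟨d, hd⟩ := hR s
    have h1 := hd (brm φ (z true)) (brm φ (z false))
      (brm_of_onBr hφ (by unfold OnBr; rw [List.length_cons, hzs]))
      (brm_of_onBr hφ (by unfold OnBr; rw [List.length_cons, hzs]))
    simp only [Function.comp] at hxx
    rcases hz with ⟨e1, e2⟩ | ⟨e1, e2⟩
    · rw [e1, e2, hxx] at h1; exact h1 rfl
    · rw [e1, e2, hxx] at h1; exact h1 rfl
  · rintro _ ⟨x, rfl⟩ _ ⟨x', rfl⟩ d hd
    obtain ⟨n, -, hn⟩ := hL.unif' (d + 1)
    have hzz : ∀ x : ℕ → Bool, ∃ z ∈ Z, ∀ m < d + 1, G z m = G (brm φ x) m := by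
      intro x
      have hne : (G '' (Z ∩ {z | OnBr (φ (br x n)) z})).Nonempty := by
        rw [nonempty_iff_ne_empty]
        intro he
        exact hP (br x n) (by rw [he]; exact countable_empty)
      obtain ⟨_, z, ⟨hz, hz2⟩, rfl⟩ := hne
      refine ⟨z, hz, fun m hm => hn m hm _ _ ?_⟩
      exact br_eq_of_onBr hz2 (brm_spec hφ x n) (by have := hφ.len (br x n); simpa using this)
    obtain ⟨z, hz, e⟩ := hzz x
    obtain ⟨z', hz', e'⟩ := hzz x'
    refine hT _ ⟨z, hz, rfl⟩ _ ⟨z', hz', rfl⟩ d ⟨fun k hk => ?_, ?_⟩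
    · rw [e k (by omega), e' k (by omega)]; exact hd.1 k hk
    · rw [e d (by omega), e' d (by omega)]; exact hd.2

theorem many_types_of_lim {Ω : Type} (hΩ : #Ω < 𝔠) (ζ : Ω → ℕ → Ω)
    (hbd : ∀ S : List Bool → Ω, ∃ i, ∀ s, ∃ m, ζ i m = S s) (e : Ω → Set ℕ)
    (he : ∀ X : Set ℕ, X.Infinite → ∃ α, (X ∩ e α).Infinite ∧ (X \ e α).Infinite)
    {hh : Ω → ℕ → ℕ} (hmono : ∀ j, StrictMono (hh j))
    (hub : ∀ r : ℕ → ℕ, ∃ j, ∀ N, ∃ n ≥ N, r n < hh j n)
    {F : ℕ → ℕ → Bool} {h : List Bool → ℕ} {G : (ℕ → Bool) → ℕ → Bool} (hG : Lim F h G)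
    (hinj : Function.Injective G) :
    ∃ j i' j', ∃ Y : (ℕ → Bool) → ℕ → Bool, Function.Injective Y ∧ ∀ x, ∃ φ, Emb φ ∧
        Ty (hh j) (chi (code e (ζ i')) (hh j')) (Y x) (range (G ∘ brm φ)) := by
  classical
  choose d hd s u hs hu hdl using fun (t : List Bool) (m : ℕ) => exists_split hG hinj t m
  let D : ℕ → ℕ := fun k => 1 + ∑ c ∈ Finset.range (k + 1),
    (Encodable.decode c : Option (List Bool)).elim 0 (fun t => d t k)
  have hD : ∀ t k, Encodable.encode t ≤ k → d t k < D k := by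
    intro t k hk
    have h1 : (Encodable.decode (Encodable.encode t) : Option (List Bool)).elim 0
        (fun t => d t k) ≤ ∑ c ∈ Finset.range (k + 1),
        (Encodable.decode c : Option (List Bool)).elim 0 (fun t => d t k) :=
      Finset.single_le_sum
        (f := fun c => (Encodable.decode c : Option (List Bool)).elim 0 (fun t => d t k))
        (fun _ _ => Nat.zero_le _) (Finset.mem_range.mpr (by omega))
    rw [Encodable.encodek] at h1
    simp only [Option.elim_some] at h1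
    simp only [D]; omega
  obtain ⟨j, hj⟩ := iterate_trick hub D
  obtain ⟨i', j', Y, hY, hY2⟩ := many_branches hΩ ζ hbd e he hmono hub hj
  refine ⟨j, i', j', Y, hY, fun x => ?_⟩
  obtain ⟨φ, hφ, hR⟩ := emb_rec' (fun _ u => ∃ n, OnBr (chi (code e (ζ i')) (hh j') n) (Y x) ∧
      ∀ x₁ x₂, OnBr (u true) x₁ → OnBr (u false) x₂ → ∃ d, Dl (G x₁) (G x₂) d ∧
        hh j n ≤ d ∧ d < hh j (n + 1))
    (by
      intro t
      obtain ⟨n, ⟨hn1, hn2⟩, hn3⟩ := (hY2 x).exists_gt (Encodable.encode t)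
      have hle : Encodable.encode t ≤ hh j n := hn3.le.trans ((hmono j).id_le n)
      refine ⟨s t (hh j n), u t (hh j n), hs _ _, hu _ _, n, hn2, fun x₁ x₂ h1 h2 => ?_⟩
      exact ⟨d t (hh j n), hdl _ _ x₁ x₂ h1 h2, hd _ _,
        lt_of_lt_of_le (hD t _ hle) hn1⟩)
  refine ⟨φ, hφ, ?_⟩
  rintro _ ⟨x₁, rfl⟩ _ ⟨x₂, rfl⟩ d' hd'
  have hne : x₁ ≠ x₂ := fun e => hd'.ne (by rw [e])
  obtain ⟨s, z, hz, hzs⟩ := branch_split' hne
  obtain ⟨n, hn1, hn2⟩ := hR s
  obtain ⟨d'', h1, h2, h3⟩ := hn2 (brm φ (z true)) (brm φ (z false))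
    (brm_of_onBr hφ (by unfold OnBr; rw [List.length_cons, hzs]))
    (brm_of_onBr hφ (by unfold OnBr; rw [List.length_cons, hzs]))
  have hdd : d'' = d' := by
    rcases hz with ⟨e1, e2⟩ | ⟨e1, e2⟩
    · rw [e1, e2] at h1; exact h1.unique hd'
    · rw [e1, e2] at h1; exact h1.unique hd'.symm
  subst hdd
  exact ⟨n, h2, h3, hn1⟩

theorem Ctx.exists_stage {Ω : Type} [LinearOrder Ω] [WellFoundedLT Ω] (C : Ctx Ω) {γ : Ω}
    {g : List Bool → ℕ} {G : (ℕ → Bool) → Ω → Bool} (h : GT C.e γ g G) :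
    ∃ σ, ¬ (C.YS γ σ G).Countable := by
  classical
  choose a ha b hb using h.sep
  obtain ⟨z, hz, hzm⟩ := C.Z_cof γ
    (fun n => a ((Encodable.decode n : Option (List Bool)).getD [])) (fun n => ha _)
  have hzs : ∀ s : List Bool, ∃ m, z m = a s := by
    intro s
    obtain ⟨m, hm⟩ := hzm (Encodable.encode s)
    refine ⟨m, ?_⟩
    rw [hm, Encodable.encodek]
    rfl
  have hLim : Lim (code C.e z) g (fun x m => G x (z m)) := by
    intro m
    obtain ⟨n, hn⟩ := h.lim (z m) (C.Z_lt γ z hz m)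
    refine ⟨n, fun x t ht => ?_⟩
    have h1 := hn x t ht
    unfold code
    rw [Bool.eq_iff_iff, decide_eq_true_iff]
    exact h1
  have hinj : Function.Injective (fun x m => G x (z m)) := by
    refine inj_of_sep hLim ?_
    intro s
    obtain ⟨m, hm⟩ := hzs s
    refine ⟨m, b s, fun i t => ?_⟩
    unfold code
    rw [hm, Bool.eq_iff_iff, decide_eq_true_iff]
    exact hb s i t
  obtain ⟨j, i', j', Y, hY, hY2⟩ := many_types_of_lim C.card_lt C.ζ C.cof C.e C.split C.mono C.unb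
    hLim hinj
  obtain ⟨σ, hσ⟩ := C.dec_surj γ z hz j i' j'
  refine ⟨σ, ?_⟩
  intro hc
  apply et_not_countable_range hY
  refine hc.mono ?_
  rintro _ ⟨x, rfl⟩
  obtain ⟨φ, hφ, hT⟩ := hY2 x
  have e1 : C.GG γ σ G = fun x m => G x (z m) := by
    funext x m
    simp only [Ctx.GG, hσ]
  have e2 : C.HH γ σ = C.H j := by simp only [Ctx.HH, hσ]
  have e3 : C.XX γ σ = chi (code C.e (C.ζ i')) (C.H j') := by simp only [Ctx.XX, hσ]
  unfold Ctx.YS
  rw [e1, e2, e3]
  refine ⟨range (brm φ), ?_, ?_⟩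
  · rw [← Set.range_comp]
    exact et_not_countable_range (hinj.comp (brm_injective hφ))
  · rw [← Set.range_comp]
    exact hT

end Pool.Agent.Work.MP_9abc7c_lc
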