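import Pool.Agent.Work.MP_9abc7c_lc.Good

/-!
Few sets without embedded trees can be met finitely by one embedded tree.
-/

namespace Pool.Agent.Work.MP_9abc7c_lc

open Set Cardinal

lemma exists_onBr (r : List Bool) : ∃ x, OnBr r x := by
  induction r with
  | nil => exact ⟨fun _ => false, rfl⟩
  | cons i s ih =>
    obtain ⟨x, hx⟩ := ih
    refine ⟨Function.update x s.length i, ?_⟩
    have h1 : br (Function.update x s.length i) s.length = s := by
      refine Eq.trans (br_eq_iff.mpr fun k hk => ?_) hx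
      rw [Function.update_of_ne hk.ne]
    unfold OnBr
    rw [List.length_cons, br, h1, Function.update_self]

theorem avoid_few {Λ : Type} (hΛ : #Λ < 𝔠)
    (hb : ∀ F : Λ → ℕ → ℕ, ∃ g : ℕ → ℕ, ∀ l, ∃ N, ∀ n ≥ N, F l n ≤ g n)
    (S : Λ → Set (List Bool)) (hS : ∀ l, ¬ ∃ φ, Emb φ ∧ ∀ t, φ t ∈ S l) :
    ∃ φ, Emb φ ∧ ∀ l, {t | φ t ∈ S l}.Finite := by
  classical
  have hQ : ∀ l, ({x : ℕ → Bool | ∀ n, ∃ k ≥ n, br x k ∈ S l}).Countable := by
    intro l
    by_contra hc
    exact hS l (emb_of_uncountable hc)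
  obtain ⟨ψ, hψ, hav⟩ := exists_avoid (card_iUnion_lt hΛ _ hQ)
  choose xb hxb using exists_onBr
  have hn : ∀ l r, ∃ n, ∀ k ≥ n, br (brm ψ (xb r)) k ∉ S l := by
    intro l r
    by_contra hc
    push Not at hc
    exact hav (xb r) (mem_iUnion.mpr ⟨l, hc⟩)
  choose nl hnl using hn
  obtain ⟨g, hg⟩ := hb fun l m => nl l ((Encodable.decode m : Option (List Bool)).getD [])
  let h : List Bool → ℕ := fun r => g (Encodable.encode r)
  have hfin : ∀ l, {r : List Bool | ¬ nl l r ≤ h r}.Finite := by
    intro l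
    obtain ⟨N, hN⟩ := hg l
    refine ((Set.finite_lt_nat N).preimage (f := (Encodable.encode : List Bool → ℕ))
      Encodable.encode_injective.injOn).subset ?_
    intro r hr
    rw [Set.mem_preimage]
    by_contra hlt
    have h1 := hN (Encodable.encode r) (not_lt.mp hlt)
    rw [Encodable.encodek, Option.getD_some] at h1
    exact hr h1
  let U : List Bool → List Bool := fun r => br (brm ψ (xb r)) (max (h r) (ψ r).length)
  have hU1 : ∀ r, ψ r <:+ U r := fun r =>
    (brm_of_onBr hψ (hxb r)).suffix_br (le_max_right _ _)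
  have hU2 : ∀ l r, nl l r ≤ h r → U r ∉ S l := fun l r hr =>
    hnl l r _ (hr.trans (le_max_left _ _))
  let r' : List Bool → List Bool := fun r => br (xb r) (max r.length (U r).length)
  have hr1 : ∀ r, r <:+ r' r := fun r => (hxb r).suffix_br (le_max_left _ _)
  have hr2 : ∀ r, U r <:+ ψ (r' r) := by
    intro r
    have h1 : OnBr (ψ (r' r)) (brm ψ (xb r)) := brm_of_onBr hψ (onBr_br _ _)
    refine h1.br_suffix ?_
    have h2 := hψ.len (r' r)
    have h3 : (r' r).length = max r.length (U r).length := br_length _ _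
    have h4 : (U r).length = max (h r) (ψ r).length := br_length _ _
    rw [h3] at h2
    rw [← h4]
    exact (le_max_right _ _).trans h2
  let R : List Bool → List Bool := fun s => List.rec [] (fun i _ r => i :: r' r) s
  have hR : ∀ i s, R (i :: s) = i :: r' (R s) := fun _ _ => rfl
  have hRE : Emb R := fun s => ⟨r' (R s), hr1 _, fun i => List.suffix_rfl⟩
  refine ⟨fun s => U (R s), ?_, ?_⟩
  · intro s
    obtain ⟨m, h1, h2⟩ := hψ (r' (R s))
    refine ⟨m, (hr2 _).trans h1, fun i => ?_⟩
    have h3 := h2 i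
    rw [← hR] at h3
    exact h3.trans (hU1 _)
  · intro l
    refine ((hfin l).preimage hRE.injective.injOn).subset ?_
    intro t ht
    rw [Set.mem_preimage]
    exact fun hle => hU2 l (R t) hle ht

end Pool.Agent.Work.MP_9abc7c_lc
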