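import Pool.Agent.Work.MP_9abc7c_lc.Phase2
import Pool.Agent.Work.MP_9abc7c_lc.FewAvoid

/-!
The recursive construction of the almost disjoint family when every function has few
predecessors which it meets infinitely often.
-/

namespace Pool.Agent.Work.MP_9abc7c_lc

open Set Cardinal

lemma avoid_few_sets {Λ : Type} (hΛ : #Λ < 𝔠)
    (hb : ∀ F : Λ → ℕ → ℕ, ∃ g : ℕ → ℕ, ∀ l, ∃ N, ∀ n ≥ N, F l n ≤ g n)
    {f : List Bool → ℕ} (B : Λ → Set ℕ) (hB : ∀ l, ¬ Meets (B l) f) :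
    ∃ g, Le g f ∧ ∀ l, (range g ∩ B l).Finite := by
  obtain ⟨φ, hφ, h⟩ := avoid_few hΛ hb (fun l => {t | f t ∈ B l}) (by
    rintro l ⟨φ, hφ, h⟩
    refine hB l ⟨f ∘ φ, ⟨φ, hφ, rfl⟩, ?_⟩
    rintro _ ⟨t, rfl⟩
    exact h t)
  refine ⟨f ∘ φ, ⟨φ, hφ, rfl⟩, fun l => ?_⟩
  refine ((h l).image (f ∘ φ)).subset ?_
  rintro _ ⟨⟨t, rfl⟩, ht⟩
  exact ⟨t, ht, rfl⟩

lemma phase2_few (R : {f : List Bool → ℕ // FTO f} → {f : List Bool → ℕ // FTO f} → Prop)
    (hwf : WellFounded R) (k : {f : List Bool → ℕ // FTO f} → List Bool → ℕ)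
    (hk : ∀ f, Le (k f) f)
    (h1 : ∀ f f', f ≠ f' → ¬ R f f' → ¬ R f' f → (range (k f) ∩ range (k f')).Finite)
    (h2 : ∀ f, #{f' // R f' f ∧ (range (k f) ∩ range (k f')).Infinite} < 𝔠)
    (h3 : ∀ f, ∀ F : {f' // R f' f ∧ (range (k f) ∩ range (k f')).Infinite} → ℕ → ℕ,
      ∃ g : ℕ → ℕ, ∀ l, ∃ N, ∀ n ≥ N, F l n ≤ g n)
    (C : ℕ → Set ℕ) :
    ∃ 𝒜 : Set (Set ℕ), (∀ A ∈ 𝒜, A.Infinite) ∧
      (∀ A ∈ 𝒜, ∀ B ∈ 𝒜, A ≠ B → (A ∩ B).Finite) ∧
      (∀ A ∈ 𝒜, (∃ n, A ⊆ C n) ∨ ∀ n, (A ∩ C n).Finite) ∧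
      ∀ f, FTO f → ∃ A ∈ 𝒜, Meets A f := by
  classical
  obtain ⟨d, hd⟩ := exists_rec2 (X := Option (List Bool → ℕ)) hwf
    (fun f g x => ((∃ j g', g j = some g' ∧ Meets (range g') (k f)) ∧ x = none) ∨
      ∃ g₀, x = some g₀ ∧ Le g₀ (k f) ∧ (∀ j g', g j = some g' → (range g₀ ∩ range g').Finite) ∧
        ((∃ n, range g₀ ⊆ C n) ∨ ∀ n, (range g₀ ∩ C n).Finite))
    (by
      intro g f ih
      by_cases hm : ∃ (j : {f' // R f' f}) (g' : List Bool → ℕ),
        g j.1 = some g' ∧ Meets (range g') (k f)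
      · exact ⟨none, Or.inl ⟨hm, rfl⟩⟩
      push Not at hm
      let B : {f' // R f' f ∧ (range (k f) ∩ range (k f')).Infinite} → Set ℕ :=
        fun j => (g j.1).elim ∅ (fun g' => range g')
      obtain ⟨g₁, hg₁, hB⟩ := avoid_few_sets (h2 f) (h3 f) (f := k f) B (by
        intro j
        cases hgj : g j.1 with
        | none =>
          simp only [B, hgj, Option.elim_none]
          rintro ⟨u, _, hu⟩
          exact hu ⟨[], rfl⟩
        | some g' =>
          simp only [B, hgj, Option.elim_some]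
          exact hm ⟨j.1, j.2.1⟩ g' hgj)
      obtain ⟨g₀, hg₀, hpart⟩ := refine_partition C g₁
      refine ⟨some g₀, Or.inr ⟨g₀, rfl, hg₀.trans hg₁, ?_, hpart⟩⟩
      intro j g' hj
      replace hj : g j.1 = some g' := hj
      by_cases hinf : (range (k f) ∩ range (k j.1)).Infinite
      · have := hB ⟨j.1, j.2, hinf⟩
        simp only [B, hj, Option.elim_some] at this
        exact this.subset (inter_subset_inter_left _ hg₀.range)
      · have hfin : (range (k f) ∩ range (k j.1)).Finite := not_infinite.mp hinf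
        refine hfin.subset (inter_subset_inter (hg₀.trans hg₁).range ?_)
        rcases ih j.1 j.2 with ⟨-, h⟩ | ⟨g₂, h, hle, -⟩
        · rw [h] at hj; simp at hj
        · rw [h] at hj
          simp only [Option.some.injEq] at hj
          rw [← hj]
          exact hle.range)
  have hsome : ∀ f g, d f = some g → Le g (k f) ∧
      (∀ f' g', R f' f → d f' = some g' → (range g ∩ range g').Finite) ∧
      ((∃ n, range g ⊆ C n) ∨ ∀ n, (range g ∩ C n).Finite) := by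
    intro f g hfg
    rcases hd f with ⟨-, h⟩ | ⟨g₂, h, hle, hfin, hpart⟩
    · rw [h] at hfg; simp at hfg
    · rw [h] at hfg
      simp only [Option.some.injEq] at hfg
      subst hfg
      exact ⟨hle, fun f' g' hlt hg' => hfin ⟨f', hlt⟩ g' hg', hpart⟩
  refine ⟨{A | ∃ f g, d f = some g ∧ A = range g}, ?_, ?_, ?_, ?_⟩
  · rintro _ ⟨f, g, hfg, rfl⟩
    exact (f.2.le ((hsome f g hfg).1.trans (hk f))).range_infinite
  · rintro _ ⟨f, g, hfg, rfl⟩ _ ⟨f', g', hfg', rfl⟩ hne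
    by_cases hlt : R f f'
    · rw [inter_comm]
      exact (hsome f' g' hfg').2.1 f g hlt hfg
    by_cases hlt' : R f' f
    · exact (hsome f g hfg).2.1 f' g' hlt' hfg'
    · have hne' : f ≠ f' := by
        intro e
        subst e
        rw [hfg] at hfg'
        simp only [Option.some.injEq] at hfg'
        exact hne (by rw [hfg'])
      exact (h1 f f' hne' hlt hlt').subset
        (inter_subset_inter (hsome f g hfg).1.range (hsome f' g' hfg').1.range)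
  · rintro _ ⟨f, g, hfg, rfl⟩
    exact (hsome f g hfg).2.2
  · intro f hf
    rcases hd ⟨f, hf⟩ with ⟨⟨j, g', hj, hm⟩, -⟩ | ⟨g, hfg, hle, -⟩
    · exact ⟨range g', ⟨j.1, g', hj, rfl⟩, hm.of_le (hk ⟨f, hf⟩)⟩
    · exact ⟨range g, ⟨_, g, hfg, rfl⟩, g, hle.trans (hk ⟨f, hf⟩), Subset.rfl⟩

end Pool.Agent.Work.MP_9abc7c_lc
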