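import Pool.Agent.Work.MP_9abc7c_lc.Step
import Pool.Agent.Work.MP_9abc7c_lc.Phase3
import Pool.Agent.Work.MP_9abc7c_lc.Adj
import Pool.Agent.Work.MP_9abc7c_lc.Count

/-!
The almost disjoint family meeting every finite-to-one function, in the setting of `Ctx`.
-/

namespace Pool.Agent.Work.MP_9abc7c_lc

open Set Cardinal

lemma encode_fto : FTO (fun t => Encodable.encode t) := by
  intro a
  exact (Set.finite_singleton a).preimage Encodable.encode_injective.injOn

theorem exists_family_of_ctx {Ω : Type} [LinearOrder Ω] [WellFoundedLT Ω] (C : Ctx Ω)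
    (Cp : ℕ → Set ℕ) :
    ∃ 𝒜 : Set (Set ℕ), (∀ A ∈ 𝒜, A.Infinite) ∧
      (∀ A ∈ 𝒜, ∀ B ∈ 𝒜, A ≠ B → (A ∩ B).Finite) ∧
      (∀ A ∈ 𝒜, (∃ n, A ⊆ Cp n) ∨ ∀ n, (A ∩ Cp n).Finite) ∧
      ∀ f, FTO f → ∃ A ∈ 𝒜, Meets A f := by
  classical
  have hne : Nonempty (Piece C) := by
    obtain ⟨p, -, -⟩ := exists_piece (C := C) encode_fto (J := Empty)
      (by rw [Cardinal.mk_eq_zero]; exact Cardinal.continuum_pos) (fun j => j.elim)
    exact ⟨p⟩
  obtain ⟨r, hwo, hr⟩ := Cardinal.exists_ord_eq {f : List Bool → ℕ // FTO f}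
  have hwf : WellFounded r := hwo.wf
  have hcard : ∀ f, #{f' // r f' f} < 𝔠 := by
    intro f
    have h1 := Cardinal.card_typein_lt f hr
    rw [Ordinal.card_typein] at h1
    refine lt_of_lt_of_le h1 ?_
    refine (Cardinal.mk_subtype_le _).trans ?_
    simp
  obtain ⟨P, hP⟩ := exists_rec hwf
    (fun f g x => Le x.k f.1 ∧ ∀ j, Rel (g j) x)
    (by
      intro g f _
      obtain ⟨p, h1, h2⟩ := exists_piece (C := C) f.2 (hcard f) (fun j => g j.1)
      exact ⟨p, h1, h2⟩)
  have hrel : ∀ f f', r f f' → Rel (P f) (P f') := fun f f' h => (hP f').2 ⟨f, h⟩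
  have htri : ∀ f f', r f f' ∨ f = f' ∨ r f' f := fun f f' => trichotomous_of r f f'
  let R : {f : List Bool → ℕ // FTO f} → {f : List Bool → ℕ // FTO f} → Prop :=
    fun f f' => (P f).γ < (P f').γ ∨ ((P f).γ = (P f').γ ∧ (P f).σ < (P f').σ)
  have hRwf : WellFounded R := by
    refine Subrelation.wf (r := InvImage (Prod.Lex (· < ·) (· < ·))
      (fun f => ((P f).γ, (P f).σ))) ?_ (InvImage.wf _ (WellFounded.prod_lex wellFounded_lt
        wellFounded_lt))
    intro f f' h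
    rw [InvImage, Prod.lex_def]
    exact h
  have hcnt : ∀ f, #{f' // R f' f ∧ (range (P f).k ∩ range (P f').k).Infinite} < #Ω := by
    intro f
    exact count_neighbours r htri P hrel f
  refine phase2_few R hRwf (fun f => (P f).k) (fun f => (hP f).1) ?_
    (fun f => (hcnt f).trans C.card_lt) (fun f F => C.dom _ F (hcnt f)) Cp
  intro f f' hne' hn1 hn2
  simp only [R, not_or, not_and, not_lt] at hn1 hn2
  have hγ : (P f).γ = (P f').γ := le_antisymm hn2.1 hn1.1
  have hσ : (P f).σ = (P f').σ := le_antisymm (hn2.2 hγ.symm) (hn1.2 hγ)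
  rcases htri f f' with h | h | h
  · have h1 := (hrel f f' h).r1 hγ hσ
    exact adj_dis (p' := P f) (p := P f') hγ.ge le_rfl h1.2
  · exact absurd h hne'
  · have h1 := (hrel f' f h).r1 hγ.symm hσ.symm
    rw [inter_comm]
    exact adj_dis (p' := P f') (p := P f) hγ.le le_rfl h1.2

end Pool.Agent.Work.MP_9abc7c_lc
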