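import Pool.Agent.Work.MP_9abc7c_lc.Basic

namespace Pool.Agent.Work.MP_9abc7c_lc

open Set

/-- A function from nodes to nodes given by choosing successors. -/
lemma emb_rec (P : List Bool → Prop) (s₀ : List Bool) (h₀ : P s₀)
    (h : ∀ s, P s → ∃ m, s <:+ m ∧ ∀ i, ∃ t, (i :: m) <:+ t ∧ P t) :
    ∃ φ, Emb φ ∧ φ [] = s₀ ∧ ∀ s, P (φ s) := by
  classical
  choose m hm t ht hP using h
  let F : List Bool → {s // P s} := fun s =>
    List.rec ⟨s₀, h₀⟩ (fun i _ r => ⟨t r.1 r.2 i, hP r.1 r.2 i⟩) s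
  refine ⟨fun s => (F s).1, ?_, rfl, fun s => (F s).2⟩
  intro s
  exact ⟨m (F s).1 (F s).2, hm _ _, fun i => ht _ _ i⟩

/-- Lemma A, first half. -/
lemma emb_of_dense {S : Set (List Bool)} {s : List Bool}
    (h : ∀ t, s <:+ t → ∃ t', t <:+ t' ∧ t' ∈ S) :
    ∃ φ, Emb φ ∧ ∀ t, s <:+ φ t ∧ φ t ∈ S := by
  obtain ⟨s₀, h1, h2⟩ := h s List.suffix_rfl
  obtain ⟨φ, hφ, -, hP⟩ := emb_rec (fun t => s <:+ t ∧ t ∈ S) s₀ ⟨h1, h2⟩ (by
    rintro u ⟨hu1, hu2⟩
    refine ⟨u, List.suffix_rfl, fun i => ?_⟩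
    obtain ⟨t', h3, h4⟩ := h (i :: u) (hu1.trans (List.suffix_cons _ _))
    exact ⟨t', h3, (hu1.trans (List.suffix_cons _ _)).trans h3, h4⟩)
  exact ⟨φ, hφ, hP⟩

/-- Lemma A: a set of nodes containing no embedded tree misses a cone above every node. -/
lemma cone_of_not_emb {S : Set (List Bool)} (h : ¬ ∃ φ, Emb φ ∧ ∀ t, φ t ∈ S) (s : List Bool) :
    ∃ t, s <:+ t ∧ ∀ t', t <:+ t' → t' ∉ S := by
  by_contra hc
  push Not at hc
  obtain ⟨φ, hφ, hP⟩ := emb_of_dense (S := S) (s := s) (fun t ht => by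
    obtain ⟨t', h1, h2⟩ := hc t ht
    exact ⟨t', h1, h2⟩)
  exact h ⟨φ, hφ, fun t => (hP t).2⟩

/-- Lemma U: uncountably many branches meeting `S` infinitely often. -/
lemma emb_of_uncountable {S : Set (List Bool)}
    (h : ¬ {x : ℕ → Bool | ∀ n, ∃ k ≥ n, br x k ∈ S}.Countable) :
    ∃ φ, Emb φ ∧ ∀ t, φ t ∈ S := by
  classical
  set Q : Set (ℕ → Bool) := {x | ∀ n, ∃ k ≥ n, br x k ∈ S} with hQ
  let G : List Bool → Prop := fun t => ¬ (Q ∩ {x | OnBr t x}).Countable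
  have hG0 : G [] := by
    intro hc
    apply h
    refine hc.mono ?_
    intro x hx
    exact ⟨hx, rfl⟩
  -- the countable part
  have hcount : (⋃ t ∈ {t | ¬ G t}, (Q ∩ {x | OnBr t x})).Countable := by
    refine (Set.to_countable {t | ¬ G t}).biUnion ?_
    intro t ht
    simpa [G] using ht
  set C := ⋃ t ∈ {t | ¬ G t}, (Q ∩ {x | OnBr t x}) with hC
  have hgood : ∀ t, G t → ¬ ((Q ∩ {x | OnBr t x}) \ C).Countable := by
    intro t ht hc
    apply ht
    refine (hc.union hcount).mono ?_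
    intro x hx
    by_cases hxC : x ∈ C
    · exact Or.inr hxC
    · exact Or.inl ⟨hx, hxC⟩
  have hallG : ∀ x, x ∈ Q → x ∉ C → ∀ t, OnBr t x → G t := by
    intro x hx hxC t ht
    by_contra hG
    refine hxC ?_
    rw [hC]
    exact Set.mem_biUnion (show t ∈ {t | ¬ G t} from fun h => h hG) ⟨hx, ht⟩
  have step1 : ∀ t, G t → ∃ t', t <:+ t' ∧ t' ∈ S ∧ G t' := by
    intro t ht
    have hne : ((Q ∩ {x | OnBr t x}) \ C).Nonempty := by
      rw [nonempty_iff_ne_empty]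
      intro he
      exact hgood t ht (by rw [he]; exact countable_empty)
    obtain ⟨x, ⟨hx, hxt⟩, hxC⟩ := hne
    obtain ⟨k, hk, hkS⟩ := hx t.length
    exact ⟨br x k, hxt.suffix_br hk, hkS, hallG x hx hxC _ (onBr_br x k)⟩
  have step2 : ∀ t, G t → ∃ m, t <:+ m ∧ ∀ i, G (i :: m) := by
    intro t ht
    have hnt : ((Q ∩ {x | OnBr t x}) \ C).Nontrivial := by
      rw [← Set.not_subsingleton_iff]
      intro hs
      exact hgood t ht hs.countable
    obtain ⟨x, ⟨⟨hx, hxt⟩, hxC⟩, y, ⟨⟨hy, hyt⟩, hyC⟩, hne⟩ := hnt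
    obtain ⟨n, h1, h2⟩ := branch_split hne
    have htn : t.length ≤ n := by
      by_contra hlt
      push Not at hlt
      have e1 := hxt.br_suffix (n := n+1) hlt
      have e2 := hyt.br_suffix (n := n+1) hlt
      have := eq_of_suffix_eq e1 e2 (by simp)
      simp only [br, List.cons.injEq] at this
      exact h2 this.1
    refine ⟨br x n, hxt.suffix_br htn, ?_⟩
    intro i
    have hi : i = x n ∨ i = y n := by
      revert h2
      generalize x n = a
      generalize y n = b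
      revert a b i
      decide
    rcases hi with rfl | rfl
    · exact hallG x hx hxC _ (onBr_br x (n+1))
    · rw [h1]; exact hallG y hy hyC _ (onBr_br y (n+1))
  obtain ⟨s₀, -, h1, h2⟩ := step1 [] hG0
  obtain ⟨φ, hφ, -, hP⟩ := emb_rec (fun t => t ∈ S ∧ G t) s₀ ⟨h1, h2⟩ (by
    rintro u ⟨-, hu⟩
    obtain ⟨m, hm, hm2⟩ := step2 u hu
    refine ⟨m, hm, fun i => ?_⟩
    obtain ⟨t', h3, h4, h5⟩ := step1 _ (hm2 i)
    exact ⟨t', h3, h4, h5⟩)
  exact ⟨φ, hφ, fun t => (hP t).1⟩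

/-- Fusion. -/
lemma fusion (f : List Bool → ℕ) (D : ℕ → (List Bool → ℕ) → Prop)
    (hopen : ∀ n g h, D n g → Le h g → D n h)
    (hdense : ∀ n g, Le g f → ∃ h, Le h g ∧ D n h) :
    ∃ g, Le g f ∧ ∀ s : List Bool, D s.length (fun t => g (t ++ s)) := by
  classical
  have hd : ∀ n (E : {E : List Bool → List Bool // Emb E}), ∃ ψ, Emb ψ ∧ D n (f ∘ E.1 ∘ ψ) := by
    intro n E
    obtain ⟨h, ⟨ψ, hψ, rfl⟩, hD⟩ := hdense n (f ∘ E.1) ⟨E.1, E.2, rfl⟩
    exact ⟨ψ, hψ, hD⟩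
  choose Ψ hΨ hDΨ using hd
  -- the embeddings `E s`
  let cone1 : {E : List Bool → List Bool // Emb E} → Bool → {E : List Bool → List Bool // Emb E} :=
    fun E i => ⟨E.1 ∘ (fun t => t ++ [i]), E.2.comp (Emb.cone [i])⟩
  let nxt : ℕ → {E : List Bool → List Bool // Emb E} → {E : List Bool → List Bool // Emb E} :=
    fun n E => ⟨E.1 ∘ Ψ n E, E.2.comp (hΨ n E)⟩
  let E : List Bool → {E : List Bool → List Bool // Emb E} := fun s =>
    List.rec (nxt 0 ⟨fun s => s, Emb.id⟩) (fun i s r => nxt (s.length + 1) (cone1 r i)) s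
  have hEc : ∀ i s, E (i :: s) = nxt (s.length + 1) (cone1 (E s) i) := fun i s => rfl
  have hED : ∀ s, D s.length (f ∘ (E s).1) := by
    intro s
    cases s with
    | nil => exact hDΨ 0 ⟨fun s => s, Emb.id⟩
    | cons i s => exact hDΨ (s.length + 1) (cone1 (E s) i)
  -- relative embeddings
  have hrel : ∀ s, ∃ θ : List Bool → List Bool → List Bool,
      (∀ t, Emb (θ t)) ∧ (∀ t, (E (t ++ s)).1 = (E s).1 ∘ θ t) ∧
      (∀ t, ∃ m, θ t [] <:+ m ∧ ∀ i, (i :: m) <:+ θ (i :: t) []) := by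
    intro s
    let θ : List Bool → {E : List Bool → List Bool // Emb E} := fun t =>
      List.rec ⟨fun s => s, Emb.id⟩
        (fun i t r => ⟨(cone1 r i).1 ∘ Ψ ((t ++ s).length + 1) (cone1 (E (t ++ s)) i),
          (cone1 r i).2.comp (hΨ _ _)⟩) t
    have hθc : ∀ i t, (θ (i :: t)).1 = (cone1 (θ t) i).1 ∘
        Ψ ((t ++ s).length + 1) (cone1 (E (t ++ s)) i) := fun i t => rfl
    refine ⟨fun t => (θ t).1, fun t => (θ t).2, ?_, ?_⟩
    · intro t
      induction t with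
      | nil => rfl
      | cons i t ih =>
        change ((E (t ++ s)).1 ∘ (fun u => u ++ [i])) ∘
          Ψ ((t ++ s).length + 1) (cone1 (E (t ++ s)) i) = _
        rw [ih]
        rfl
    · intro t
      obtain ⟨m, h1, h2⟩ := (θ t).2 []
      refine ⟨m, h1, fun i => (h2 i).trans ?_⟩
      change (θ t).1 [i] <:+ (θ t).1
        (Ψ ((t ++ s).length + 1) (cone1 (E (t ++ s)) i) [] ++ [i])
      exact (θ t).2.mono (List.suffix_append _ _)
  refine ⟨fun s => f ((E s).1 []), ⟨fun s => (E s).1 [], ?_, rfl⟩, ?_⟩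
  · intro s
    obtain ⟨θ, h1, h2, h3⟩ := hrel []
    obtain ⟨m, hm1, hm2⟩ := h3 s
    obtain ⟨m', hm3, hm4⟩ := (E []).2 m
    have e : ∀ t, (E t).1 [] = (E []).1 (θ t []) := by
      intro t
      have := congrFun (h2 t) []
      simpa using this
    refine ⟨m', ?_, fun i => ?_⟩
    · show (E s).1 [] <:+ m'
      rw [e]; exact ((E []).2.mono hm1).trans hm3
    · show (i :: m') <:+ (E (i :: s)).1 []
      rw [e (i :: s)]; exact (hm4 i).trans ((E []).2.mono (hm2 i))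
  · intro s
    obtain ⟨θ, h1, h2, h3⟩ := hrel s
    refine hopen _ _ _ (hED s) ⟨fun t => θ t [], h3, ?_⟩
    funext t
    have := congrFun (h2 t) []
    simp only [Function.comp] at this ⊢
    rw [this]

/-- Countably many sets that do not meet `f` can be made almost disjoint from some `g ≤ f`. -/
lemma avoid_countable {f : List Bool → ℕ} (B : ℕ → Set ℕ)
    (hB : ∀ n, ¬ Meets (B n) f) :
    ∃ g, Le g f ∧ ∀ n, (Set.range g ∩ B n).Finite := by
  obtain ⟨g, hg, hD⟩ := fusion f (fun n h => ∀ t, h t ∉ B n)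
    (by rintro n g h hg ⟨φ, _, rfl⟩ t; exact hg _)
    (by
      intro n g hg
      have hne : ¬ ∃ φ, Emb φ ∧ ∀ t, φ t ∈ {t | g t ∈ B n} := by
        rintro ⟨φ, hφ, h⟩
        refine hB n ⟨g ∘ φ, Le.trans ⟨φ, hφ, rfl⟩ hg, ?_⟩
        rintro _ ⟨t, rfl⟩
        exact h t
      obtain ⟨t, -, ht⟩ := cone_of_not_emb hne []
      exact ⟨_, Le.cone g t, fun u => ht _ (List.suffix_append _ _)⟩)
  refine ⟨g, hg, fun n => ?_⟩
  have : Set.range g ∩ B n ⊆ g '' {t | t.length < n} := by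
    rintro a ⟨⟨t, rfl⟩, ha⟩
    refine ⟨t, ?_, rfl⟩
    by_contra hlt
    have hlt : n ≤ t.length := not_lt.mp hlt
    have h1 := hD (t.drop (t.length - n))
    have hl : (t.drop (t.length - n)).length = n := by simp; omega
    rw [hl] at h1
    have h2 : g (t.take (t.length - n) ++ t.drop (t.length - n)) ∉ B n := h1 _
    rw [List.take_append_drop] at h2
    exact h2 ha
  exact ((List.finite_length_lt Bool n).image g).subset this

end Pool.Agent.Work.MP_9abc7c_lc
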