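import Pool.Agent.Work.MP_9abc7c_lc.Ctx
import Pool.Agent.Work.MP_9abc7c_lc.FewAvoid

/-!
`γ`-trees: splitting at the least undecided index, uniform suprema and exact limits.
-/

namespace Pool.Agent.Work.MP_9abc7c_lc

open Set Cardinal

/-- Every finite-to-one function meets some set of the splitting family and its complement. -/
lemma exists_meets_both {Ω : Type} (hΩ : #Ω < 𝔠) (e : Ω → Set ℕ)
    (he : ∀ X : Set ℕ, X.Infinite → ∃ α, (X ∩ e α).Infinite ∧ (X \ e α).Infinite)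
    {g : List Bool → ℕ} (hgf : FTO g) : ∃ α, Meets (e α) g ∧ Meets (e α)ᶜ g := by
  classical
  by_contra hcon
  push Not at hcon
  have hA : ∀ α, ∃ A : Set ℕ, (A = e α ∨ A = (e α)ᶜ) ∧ ¬ Meets A g := by
    intro α
    by_cases h1 : Meets (e α) g
    · exact ⟨_, Or.inr rfl, hcon α h1⟩
    · exact ⟨_, Or.inl rfl, h1⟩
  choose A hA1 hA2 using hA
  let Q : Ω → Set (ℕ → Bool) := fun α => {x | ∀ n, ∃ k ≥ n, br x k ∈ {t | g t ∈ A α}}
  have hQ : ∀ α, (Q α).Countable := by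
    intro α
    by_contra hunc
    obtain ⟨φ, hφ, hP⟩ := emb_of_uncountable (S := {t | g t ∈ A α}) hunc
    refine hA2 α ⟨g ∘ φ, ⟨φ, hφ, rfl⟩, ?_⟩
    rintro _ ⟨t, rfl⟩
    exact hP t
  have hQc : #(⋃ α, Q α) < 𝔠 := card_iUnion_lt hΩ _ hQ
  have hex : ∃ x, x ∉ ⋃ α, Q α := by
    by_contra hall
    push Not at hall
    have : (⋃ α, Q α) = Set.univ := Set.eq_univ_of_forall hall
    rw [this, Cardinal.mk_univ, card_branches] at hQc
    exact lt_irrefl _ hQc
  obtain ⟨x, hx⟩ := hex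
  have hinj : Function.Injective (fun n => br x n) := by
    intro a b hab
    have := congrArg List.length hab
    simpa using this
  have hXinf : (g '' range (fun n => br x n)).Infinite :=
    hgf.image (Set.infinite_range_of_injective hinj)
  obtain ⟨α, h1, h2⟩ := he _ hXinf
  have hfin : (g '' range (fun n => br x n) ∩ A α).Finite := by
    have hxα : x ∉ Q α := fun h => hx (Set.mem_iUnion.mpr ⟨α, h⟩)
    obtain ⟨n, hn⟩ := not_forall.mp hxα
    refine ((Set.finite_lt_nat n).image (fun k => g (br x k))).subset ?_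
    rintro _ ⟨⟨_, ⟨k, rfl⟩, rfl⟩, hk⟩
    refine ⟨k, ?_, rfl⟩
    by_contra hlt
    exact hn ⟨k, not_lt.mp hlt, hk⟩
  rcases hA1 α with h3 | h3
  · rw [h3] at hfin; exact h1 hfin
  · rw [h3] at hfin; exact h2 hfin

/-- A set and its complement can be met above the two extensions of one node. -/
lemma exists_split_pair {E : Set ℕ} {g : List Bool → ℕ} (h1 : Meets E g) (h2 : Meets Eᶜ g) :
    ∃ (m : List Bool) (θ : Bool → List Bool → List Bool) (b : Bool),
      (∀ i, Emb (θ i)) ∧ (∀ i, (i :: m) <:+ θ i []) ∧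
        ∀ i t, (g (θ i t) ∈ E ↔ (i ^^ b) = true) := by
  obtain ⟨_, ⟨ψ, hψ, rfl⟩, h1⟩ := h1
  obtain ⟨_, ⟨ψ', hψ', rfl⟩, h2⟩ := h2
  have hinc : ∃ (i j : Bool) (m : List Bool) (k : Bool),
      (k :: m) <:+ ψ [i] ∧ ((!k) :: m) <:+ ψ' [j] := by
    have hT : ¬ ([true] <:+ [false]) := by decide
    have hT' : ¬ ([false] <:+ [true]) := by decide
    obtain ⟨i, j, h3, h4⟩ := exists_incomp (fun i => ψ [i]) (fun i => ψ' [i])
      (fun h3 => hT (hψ.reflect h3)) (fun h3 => hT' (hψ.reflect h3))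
      (fun h3 => hT (hψ'.reflect h3)) (fun h3 => hT' (hψ'.reflect h3))
    rcases node_tri (ψ [i]) (ψ' [j]) with h5 | h5 | ⟨m, k, h5, h6⟩
    · exact absurd h5 h3
    · exact absurd h5 h4
    · exact ⟨i, j, m, k, h5, h6⟩
  obtain ⟨i, j, m, k, h3, h4⟩ := hinc
  refine ⟨m, fun l t => if l = k then ψ (t ++ [i]) else ψ' (t ++ [j]), !k, ?_, ?_, ?_⟩
  · intro l
    by_cases hl : l = k
    · simp only [hl, if_true]
      exact hψ.comp (Emb.cone [i])
    · simp only [hl, if_false]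
      exact hψ'.comp (Emb.cone [j])
  · intro l
    by_cases hl : l = k
    · simp only [hl, if_true]
      exact h3
    · have : l = !k := by cases l <;> cases k <;> simp_all
      show (l :: m) <:+ (if l = k then ψ ([] ++ [i]) else ψ' ([] ++ [j]))
      rw [if_neg hl, this]
      exact h4
  · intro l t
    by_cases hl : l = k
    · have h5 : g (ψ (t ++ [i])) ∈ E := h1 ⟨_, rfl⟩
      simp [hl, h5]
    · have h5 : g (ψ' (t ++ [j])) ∉ E := h2 ⟨_, rfl⟩
      have : l = !k := by cases l <;> cases k <;> simp_all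
      simp [h5, this]

theorem exists_splitTree {Ω : Type} [LinearOrder Ω] [WellFoundedLT Ω] (hΩ : #Ω < 𝔠)
    (e : Ω → Set ℕ)
    (he : ∀ X : Set ℕ, X.Infinite → ∃ a, (X ∩ e a).Infinite ∧ (X \ e a).Infinite)
    {f : List Bool → ℕ} (hf : FTO f) :
    ∃ g, Le g f ∧ ∃ (a : List Bool → Ω) (b : List Bool → Bool),
      (∀ s i t, (g (t ++ i :: s) ∈ e (a s) ↔ (i ^^ b s) = true)) ∧
      (∀ s, ∀ a' < a s, ∃ A : Set ℕ, (A = e a' ∨ A = (e a')ᶜ) ∧
        ∀ i, ¬ Meets A (fun t => g (t ++ i :: s))) ∧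
      ∀ s i, a s < a (i :: s) := by
  classical
  obtain ⟨g, hg, hD⟩ := fusion2 f
    (fun _ g => ∃ (a : Ω) (b : Bool), (∀ i t, (g i t ∈ e a ↔ (i ^^ b) = true)) ∧
      ∀ a' < a, ∃ A : Set ℕ, (A = e a' ∨ A = (e a')ᶜ) ∧ ∀ i, ¬ Meets A (g i))
    (by
      rintro s g g' ⟨a, b, h1, h2⟩ hle
      refine ⟨a, b, fun i t => ?_, fun a' ha' => ?_⟩
      · obtain ⟨φ, _, hφ2⟩ := hle i
        rw [hφ2]
        exact h1 i (φ t)
      · obtain ⟨A, hA1, hA2⟩ := h2 a' ha'
        exact ⟨A, hA1, fun i hm => hA2 i (hm.of_le (hle i))⟩)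
    (by
      rintro s g hg
      have hne : {a : Ω | Meets (e a) g ∧ Meets (e a)ᶜ g}.Nonempty :=
        exists_meets_both hΩ e he (hf.le hg)
      let a := (wellFounded_lt (α := Ω)).min _ hne
      have ha : Meets (e a) g ∧ Meets (e a)ᶜ g := (wellFounded_lt (α := Ω)).min_mem _ hne
      obtain ⟨m, θ, b, h1, h2, h3⟩ := exists_split_pair ha.1 ha.2
      refine ⟨m, θ, h1, h2, a, b, h3, fun a' ha' => ?_⟩
      have hn : ¬ (Meets (e a') g ∧ Meets (e a')ᶜ g) := fun hc =>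
        (wellFounded_lt (α := Ω)).not_lt_min _ hc ha'
      by_cases h4 : Meets (e a') g
      · exact ⟨_, Or.inr rfl, fun i hm => hn ⟨h4, hm.of_le ⟨θ i, h1 i, rfl⟩⟩⟩
      · exact ⟨_, Or.inl rfl, fun i hm => h4 (hm.of_le ⟨θ i, h1 i, rfl⟩)⟩)
  choose a b h1 h2 using hD
  refine ⟨g, hg, a, b, fun s i t => h1 s i t, h2, fun s i => ?_⟩
  by_contra hlt
  rcases (not_lt.mp hlt).lt_or_eq with hlt | heq
  · obtain ⟨A, hA1, hA2⟩ := h2 s (a (i :: s)) hlt
    refine hA2 i ?_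
    have hle : ∀ j, Le (fun t => g (t ++ j :: i :: s)) (fun t => g (t ++ i :: s)) := fun j =>
      ⟨fun t => t ++ [j], Emb.cone [j], by funext t; simp⟩
    rcases hA1 with rfl | rfl
    · refine Meets.of_le ?_ (hle (!(b (i :: s))))
      refine ⟨_, Le.refl _, ?_⟩
      rintro _ ⟨t, rfl⟩
      exact (h1 (i :: s) _ t).mpr (by simp)
    · refine Meets.of_le ?_ (hle (b (i :: s)))
      refine ⟨_, Le.refl _, ?_⟩
      rintro _ ⟨t, rfl⟩
      intro hmem
      have := (h1 (i :: s) _ t).mp hmem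
      simp at this
  · have h3 : ∀ j, (g ([j] ++ i :: s) ∈ e (a (i :: s)) ↔ (j ^^ b (i :: s)) = true) := fun j =>
      h1 (i :: s) j []
    have h4 : ∀ j, (g ([j] ++ i :: s) ∈ e (a (i :: s)) ↔ (i ^^ b s) = true) := fun j => by
      rw [heq]; exact h1 s i [j]
    have h5 := (h3 true).symm.trans (h4 true)
    have h6 := (h3 false).symm.trans (h4 false)
    have h7 := h5.trans h6.symm
    revert h7
    cases b (i :: s) <;> simp

theorem exists_uniformTree {Ω : Type} [LinearOrder Ω] [WellFoundedLT Ω] (hΩ : #Ω < 𝔠)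
    (hbdd : ∀ S : ℕ → Ω, ∃ i, ∀ n, S n < i) (e : Ω → Set ℕ)
    (he : ∀ X : Set ℕ, X.Infinite → ∃ a, (X ∩ e a).Infinite ∧ (X \ e a).Infinite)
    {f : List Bool → ℕ} (hf : FTO f) :
    ∃ g, Le g f ∧ ∃ γ : Ω,
      (∀ s : List Bool, ∃ a < γ, ∃ b : Bool, ∀ i t, (g (t ++ i :: s) ∈ e a ↔ (i ^^ b) = true)) ∧
      ∀ a < γ, ∃ n, ∀ s : List Bool, s.length = n → ∀ a' ≤ a, ∃ A : Set ℕ,
        (A = e a' ∨ A = (e a')ᶜ) ∧ ¬ Meets A (fun t => g (t ++ s)) := by
  classical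
  obtain ⟨g₀, hg₀, a₀, b₀, h1, h2, h3⟩ := exists_splitTree hΩ e he hf
  obtain ⟨dec, hdec⟩ := exists_surjective_nat (List Bool)
  have hne : ∀ s, {i : Ω | ∀ t, a₀ (t ++ s) < i}.Nonempty := by
    intro s
    obtain ⟨i, hi⟩ := hbdd fun n => a₀ (dec n ++ s)
    refine ⟨i, fun t => ?_⟩
    obtain ⟨n, rfl⟩ := hdec t
    exact hi n
  let lub : List Bool → Ω := fun s => (wellFounded_lt (α := Ω)).min _ (hne s)
  have hlub : ∀ s t, a₀ (t ++ s) < lub s := fun s =>
    (wellFounded_lt (α := Ω)).min_mem _ (hne s)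
  have hlub2 : ∀ s i, i < lub s → ∃ t, i ≤ a₀ (t ++ s) := by
    intro s i hi
    by_contra hc
    push Not at hc
    exact (wellFounded_lt (α := Ω)).not_lt_min {i : Ω | ∀ t, a₀ (t ++ s) < i} hc hi
  have hlub3 : ∀ s i, (∀ t, a₀ (t ++ s) < i) → lub s ≤ i := by
    intro s i hi
    by_contra hlt
    obtain ⟨t, ht⟩ := hlub2 s i (not_le.mp hlt)
    exact absurd (hi t) (not_lt.mpr ht)
  have hner : (range lub).Nonempty := ⟨_, [], rfl⟩
  let γ := (wellFounded_lt (α := Ω)).min _ hner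
  obtain ⟨s₀, hs₀⟩ : γ ∈ range lub := (wellFounded_lt (α := Ω)).min_mem _ hner
  have hγ : ∀ s, γ ≤ lub s := fun s =>
    not_lt.mp ((wellFounded_lt (α := Ω)).not_lt_min (range lub) ⟨s, rfl⟩)
  have hγ2 : ∀ t, lub (t ++ s₀) = γ := by
    intro t
    refine le_antisymm ?_ (hγ _)
    rw [← hs₀]
    refine hlub3 _ _ fun u => ?_
    rw [← List.append_assoc]
    exact hlub _ _
  -- pass to the cone above `s₀`
  let g₁ : List Bool → ℕ := fun t => g₀ (t ++ s₀)
  let a₁ : List Bool → Ω := fun t => a₀ (t ++ s₀)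
  have k1 : ∀ s i t, (g₁ (t ++ i :: s) ∈ e (a₁ s) ↔ (i ^^ b₀ (s ++ s₀)) = true) := by
    intro s i t
    have := h1 (s ++ s₀) i t
    simpa [g₁, a₁] using this
  have k2 : ∀ s, ∀ a' < a₁ s, ∃ A : Set ℕ, (A = e a' ∨ A = (e a')ᶜ) ∧
      ∀ i, ¬ Meets A (fun t => g₁ (t ++ i :: s)) := by
    intro s a' ha'
    obtain ⟨A, hA1, hA2⟩ := h2 (s ++ s₀) a' ha'
    refine ⟨A, hA1, fun i => ?_⟩
    have := hA2 i
    simpa [g₁] using this
  have k3 : ∀ s i, a₁ s < a₁ (i :: s) := fun s i => h3 (s ++ s₀) i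
  have k3' : ∀ s t, s <:+ t → a₁ s ≤ a₁ t := by
    rintro s _ ⟨l, rfl⟩
    induction l with
    | nil => exact le_rfl
    | cons i l ih => exact ih.trans (k3 (l ++ s) i).le
  have k4 : ∀ s, a₁ s < γ := by
    intro s
    have := hlub s₀ s
    rwa [hs₀] at this
  have k5 : ∀ s a', a' < γ → ∃ t, s <:+ t ∧ a' < a₁ t := by
    intro s a' ha'
    rw [← hγ2 s] at ha'
    obtain ⟨t, ht⟩ := hlub2 _ _ ha'
    refine ⟨true :: (t ++ s), (List.suffix_append _ _).trans (List.suffix_cons _ _), ?_⟩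
    refine lt_of_le_of_lt ?_ (k3 (t ++ s) true)
    rw [← List.append_assoc] at ht
    exact ht
  have hstep : ∀ (n : ℕ) (s : List Bool), ∃ t, s <:+ t ∧ ∀ k ≤ n, a₁ (dec k) ≤ a₁ t := by
    intro n
    induction n with
    | zero =>
      intro s
      obtain ⟨t, ht1, ht2⟩ := k5 s _ (k4 (dec 0))
      refine ⟨t, ht1, fun k hk => ?_⟩
      rw [Nat.le_zero.mp hk]
      exact ht2.le
    | succ n ih =>
      intro s
      obtain ⟨t, ht1, ht2⟩ := ih s
      obtain ⟨u, hu1, hu2⟩ := k5 t _ (k4 (dec (n + 1)))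
      refine ⟨u, ht1.trans hu1, fun k hk => ?_⟩
      rcases Nat.lt_or_eq_of_le hk with hk | rfl
      · exact (ht2 k (by omega)).trans (k3' _ _ hu1)
      · exact hu2.le
  choose st hst1 hst2 using hstep
  let ψ : List Bool → List Bool := fun s =>
    List.rec (st 0 []) (fun i s r => st (s.length + 1) (i :: r)) s
  have hψc : ∀ i s, ψ (i :: s) = st (s.length + 1) (i :: ψ s) := fun _ _ => rfl
  have hψ : Emb ψ := fun s => ⟨ψ s, List.suffix_rfl, fun i => by
    rw [hψc]; exact hst1 _ _⟩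
  have hψ2 : ∀ s, ∀ k ≤ s.length, a₁ (dec k) ≤ a₁ (ψ s) := by
    intro s
    cases s with
    | nil => exact hst2 0 []
    | cons i s => exact hst2 (s.length + 1) (i :: ψ s)
  refine ⟨g₁ ∘ ψ, Le.trans ⟨ψ, hψ, rfl⟩ ((Le.cone g₀ s₀).trans hg₀), γ, ?_, ?_⟩
  · intro s
    refine ⟨a₁ (ψ s), k4 _, b₀ (ψ s ++ s₀), fun i t => ?_⟩
    have h4 : (i :: ψ s) <:+ ψ (t ++ i :: s) := by
      refine List.IsSuffix.trans ?_ (hψ.mono (List.suffix_append t (i :: s)))
      rw [hψc]; exact hst1 _ _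
    obtain ⟨u, hu⟩ := h4
    simp only [Function.comp]
    rw [← hu]
    exact k1 _ _ _
  · intro a' ha'
    obtain ⟨u, -, hu⟩ := k5 [] a' ha'
    obtain ⟨k, rfl⟩ := hdec u
    refine ⟨k + 1, fun s hs a'' ha'' => ?_⟩
    match s, hs with
    | j :: s, hs =>
      have hlen : s.length = k := by simpa using hs
      obtain ⟨A, hA1, hA2⟩ := k2 (ψ s) a''
        ((ha''.trans_lt hu).trans_le (hψ2 s k hlen.ge))
      refine ⟨A, hA1, fun hm => hA2 j (hm.of_le ?_)⟩
      obtain ⟨θ, hθ, hθ2⟩ := emb_quot hψ (s := j :: s) (s' := j :: ψ s) (by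
        rw [hψc]; exact hst1 _ _)
      refine ⟨θ, hθ, ?_⟩
      funext t
      simp only [Function.comp]
      rw [hθ2]

theorem exists_gtree {Ω : Type} [LinearOrder Ω] [WellFoundedLT Ω] (C : Ctx Ω)
    {f : List Bool → ℕ} (hf : FTO f) :
    ∃ γ g G, Le g f ∧ GT C.e γ g G := by
  classical
  obtain ⟨g, hg, γ, hsep, hdec⟩ := exists_uniformTree C.card_lt C.bdd C.e C.split hf
  have hdec' : ∀ a : Iio γ, ∃ n, ∀ s : List Bool, s.length = n → ∀ a' ≤ a.1, ∃ A : Set ℕ,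
        (A = C.e a' ∨ A = (C.e a')ᶜ) ∧ ¬ Meets A (fun t => g (t ++ s)) := fun a => hdec a.1 a.2
  choose n hn using hdec'
  have hn' : ∀ (a : Iio γ) (s : List Bool), ∃ A : Set ℕ, (A = C.e a.1 ∨ A = (C.e a.1)ᶜ) ∧
      (s.length = n a → ¬ Meets A (fun t => g (t ++ s))) := by
    intro a s
    by_cases hs : s.length = n a
    · obtain ⟨A, hA1, hA2⟩ := hn a s hs a.1 le_rfl
      exact ⟨A, hA1, fun _ => hA2⟩
    · exact ⟨_, Or.inl rfl, fun h => absurd h hs⟩
  choose A hA1 hA2 using hn'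
  let Λ := Iio γ × List Bool
  have hΛ : #Λ < #Ω := by
    rw [Cardinal.mk_prod, Cardinal.lift_id, Cardinal.lift_id]
    refine Cardinal.mul_lt_of_lt C.aleph0_lt.le (C.small γ) ?_
    exact (Cardinal.mk_le_aleph0 (α := List Bool)).trans_lt C.aleph0_lt
  let S : Λ → Set (List Bool) := fun l => {t | l.2.length = n l.1 ∧ l.2 <:+ t ∧ g t ∈ A l.1 l.2}
  have hS : ∀ l, ¬ ∃ φ, Emb φ ∧ ∀ t, φ t ∈ S l := by
    rintro ⟨a, s⟩ ⟨φ, hφ, hP⟩
    have hs : s.length = n a := (hP []).1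
    refine hA2 a s hs ?_
    obtain ⟨θ, hθ, hθ2⟩ := emb_quot hφ (s := []) (s' := s) (hP []).2.1
    refine ⟨(fun t => g (t ++ s)) ∘ θ, ⟨θ, hθ, rfl⟩, ?_⟩
    rintro _ ⟨t, rfl⟩
    simp only [Function.comp]
    rw [← hθ2 t]
    exact (hP _).2.2
  obtain ⟨φ, hφ, hfin⟩ := avoid_few (hΛ.trans C.card_lt) (fun F => C.dom Λ F hΛ) S hS
  let G : (ℕ → Bool) → Ω → Bool := fun x a =>
    if h : a < γ then decide (A ⟨a, h⟩ (br (brm φ x) (n ⟨a, h⟩)) ≠ C.e a) else false
  have hG : ∀ x (a : Iio γ), G x a.1 = decide (A a (br (brm φ x) (n a)) ≠ C.e a.1) := by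
    intro x a
    exact dif_pos a.2
  have hsuf : ∀ x (k N : ℕ), k ≤ N → br (brm φ x) k <:+ φ (br x N) := by
    intro x k N hk
    refine (brm_spec hφ x N).br_suffix ?_
    have := hφ.len (br x N)
    rw [br_length] at this
    omega
  have hlim : ∀ a < γ, LimAt (C.e a) (g ∘ φ) (fun x => G x a) := by
    intro a ha
    have hF : (⋃ s ∈ {s : List Bool | s.length = n ⟨a, ha⟩}, {t | φ t ∈ S (⟨a, ha⟩, s)}).Finite :=
      (List.finite_length_eq Bool _).biUnion fun s _ => hfin _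
    obtain ⟨M, hM⟩ := (hF.image List.length).bddAbove
    refine ⟨max (n ⟨a, ha⟩) (M + 1), fun x t ht => ?_⟩
    have h1 : br (brm φ x) (n ⟨a, ha⟩) <:+ φ t :=
      (hsuf x _ _ (le_max_left _ _)).trans (hφ.mono ht)
    have h2 : g (φ t) ∉ A ⟨a, ha⟩ (br (brm φ x) (n ⟨a, ha⟩)) := by
      intro hmem
      have h3 : t.length ≤ M := by
        refine hM ⟨t, ?_, rfl⟩
        refine Set.mem_biUnion (x := br (brm φ x) (n ⟨a, ha⟩)) (br_length _ _) ?_
        exact ⟨br_length _ _, h1, hmem⟩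
      have h4 := ht.length_le
      rw [br_length] at h4
      have := le_max_right (n ⟨a, ha⟩) (M + 1)
      omega
    have h5 := hG x ⟨a, ha⟩
    simp only at h5
    simp only [Function.comp]
    rw [h5, decide_eq_true_eq]
    rcases hA1 ⟨a, ha⟩ (br (brm φ x) (n ⟨a, ha⟩)) with h6 | h6
    · rw [h6] at h2
      simp [h6, h2]
    · rw [h6] at h2 ⊢
      have h7 : g (φ t) ∈ C.e a := by
        by_contra h8; exact h2 h8
      refine iff_of_true h7 ?_
      intro h8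
      have h9 : g (φ t) ∈ (C.e a)ᶜ := by rw [h8]; exact h7
      exact h9 h7
  refine ⟨γ, g ∘ φ, G, Le.trans ⟨φ, hφ, rfl⟩ hg, hlim, ?_, ?_⟩
  · intro γ' hγ'
    obtain ⟨N, hN⟩ := hdec γ' hγ'
    refine ⟨N, fun x x' hxx a ha => ?_⟩
    have hs : br (brm φ x) N = br (brm φ x') N := by
      refine eq_of_suffix_eq (hsuf x N N le_rfl) ?_ (by simp)
      rw [hxx]
      exact hsuf x' N N le_rfl
    obtain ⟨B, hB1, hB2⟩ := hN (br (brm φ x) N) (br_length _ _) a ha.le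
    have key : ∀ y, br (brm φ y) N = br (brm φ x) N →
        Meets (if G y a = true then C.e a else (C.e a)ᶜ)
          (fun t => g (t ++ br (brm φ x) N)) := by
      intro y hy
      obtain ⟨K, hK⟩ := hlim a (ha.trans hγ')
      obtain ⟨θ, hθ, hθ2⟩ := emb_quot hφ (s := br y (max K N)) (s' := br (brm φ x) N)
        (by rw [← hy]; exact hsuf y N _ (le_max_right _ _))
      refine ⟨(fun t => g (t ++ br (brm φ x) N)) ∘ θ, ⟨θ, hθ, rfl⟩, ?_⟩
      rintro _ ⟨t, rfl⟩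
      simp only [Function.comp]
      rw [← hθ2 t]
      have h1 := hK y (t ++ br y (max K N))
        ((br_suffix y (le_max_left _ _)).trans (List.suffix_append _ _))
      simp only [Function.comp] at h1
      by_cases h2 : G y a = true
      · rw [if_pos h2]
        exact h1.mpr h2
      · rw [if_neg h2]
        exact fun h3 => h2 (h1.mp h3)
    have k1 := key x rfl
    have k2 := key x' hs.symm
    by_contra hne
    have hor : (B = if G x a = true then C.e a else (C.e a)ᶜ) ∨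
        (B = if G x' a = true then C.e a else (C.e a)ᶜ) := by
      cases h1 : G x a <;> cases h2 : G x' a
      · exact absurd (h1.trans h2.symm) hne
      · simpa using hB1.symm
      · simpa using hB1
      · exact absurd (h1.trans h2.symm) hne
    rcases hor with h | h
    · rw [← h] at k1; exact hB2 k1
    · rw [← h] at k2; exact hB2 k2
  · intro s
    obtain ⟨m, -, hm⟩ := hφ s
    obtain ⟨a, ha, b, hab⟩ := hsep m
    refine ⟨a, ha, b, fun i t => ?_⟩
    obtain ⟨u, hu⟩ := (hm i).trans (hφ.mono (List.suffix_append t (i :: s)))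
    simp only [Function.comp]
    rw [← hu]
    exact hab i u

end Pool.Agent.Work.MP_9abc7c_lc
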