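import Pool.Agent.Work.MP_9abc7c_lc.Basic
import Pool.Agent.Work.MP_9abc7c_lc.Defs

/-!
From almost disjoint families meeting every finite-to-one function to Sacks indestructible MAD
families.
-/

namespace Pool.Agent.Work.MP_9abc7c_lc

open Set

namespace SacksCond

lemma le_refl (p : SacksCond) : p ≤ p := Set.Subset.rfl

lemma le_trans {p q r : SacksCond} (h1 : p ≤ q) (h2 : q ≤ r) : p ≤ r := Set.Subset.trans h1 h2

/-- the restriction of a condition to a node -/
def restrict (q : SacksCond) (t : List Bool) (ht : t ∈ q.carrier) : SacksCond where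
  carrier := {v | v ∈ q.carrier ∧ (v <:+ t ∨ t <:+ v)}
  nonempty := ⟨t, ht, Or.inl List.suffix_rfl⟩
  closed := by
    rintro s v hs ⟨hv, hor⟩
    refine ⟨q.closed _ _ hs hv, ?_⟩
    rcases hor with h | h
    · exact Or.inl (hs.trans h)
    · rcases Nat.le_total s.length t.length with h1 | h1
      · exact Or.inl (suffix_of_suffix_le hs h h1)
      · exact Or.inr (suffix_of_suffix_le h hs h1)
  perfect := by
    rintro s ⟨hs, hor⟩
    rcases hor with h | h
    · obtain ⟨u, hu, hi⟩ := q.perfect t ht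
      exact ⟨u, h.trans hu, fun i => ⟨hi i, Or.inr (hu.trans (List.suffix_cons _ _))⟩⟩
    · obtain ⟨u, hu, hi⟩ := q.perfect s hs
      exact ⟨u, hu, fun i => ⟨hi i, Or.inr ((h.trans hu).trans (List.suffix_cons _ _))⟩⟩

lemma restrict_le (q : SacksCond) (t : List Bool) (ht : t ∈ q.carrier) : q.restrict t ht ≤ q :=
  fun _ hv => hv.1

lemma exists_long (q : SacksCond) (n : ℕ) : ∃ v ∈ q.carrier, n ≤ v.length := by
  induction n with
  | zero => exact ⟨q.nonempty.some, q.nonempty.some_mem, Nat.zero_le _⟩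
  | succ n ih =>
    obtain ⟨v, hv, hn⟩ := ih
    obtain ⟨u, hu, hi⟩ := q.perfect v hv
    refine ⟨true :: u, hi true, ?_⟩
    have := hu.length_le
    simp; omega

end SacksCond

open SacksCond

lemma ForcesInfinite.le {p q : SacksCond} {X : Name} (h : ForcesInfinite p X) (hq : q ≤ p) :
    ForcesInfinite q X := fun N r hr => h N r (le_trans hr hq)

/-- the fusion -/
lemma exists_fusion {p : SacksCond} {X : Name} (h : ForcesInfinite p X) :
    ∃ (P : List Bool → SacksCond) (t : List Bool → List Bool) (f : List Bool → ℕ),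
      (∀ s, P s ≤ p) ∧ (∀ i s, P (i :: s) ≤ P s) ∧ Emb t ∧ (∀ s, t s ∈ (P s).carrier) ∧
      (∀ s, ForcesMem (P s) (f s) X) ∧ ∀ s, s.length ≤ f s := by
  classical
  let St := {x : SacksCond × List Bool × ℕ // x.1 ≤ p ∧ x.2.1 ∈ x.1.carrier ∧
    ForcesMem x.1 x.2.2 X}
  have hstep : ∀ (x : St) (n : ℕ), ∃ (m : List Bool) (y : Bool → St), x.1.2.1 <:+ m ∧
      ∀ i, (i :: m) <:+ (y i).1.2.1 ∧ (y i).1.1 ≤ x.1.1 ∧ n ≤ (y i).1.2.2 := by
    rintro ⟨⟨q, t, a⟩, hq, ht, ha⟩ n
    obtain ⟨m, hm, hi⟩ := q.perfect t ht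
    have hy : ∀ i : Bool, ∃ y : St, (i :: m) <:+ y.1.2.1 ∧ y.1.1 ≤ q ∧ n ≤ y.1.2.2 := by
      intro i
      have hq1 : q.restrict (i :: m) (hi i) ≤ q := restrict_le _ _ _
      obtain ⟨r, hr, b, hb, hrb⟩ := h n _ (le_trans hq1 hq)
      obtain ⟨v, hv, hlen⟩ := r.exists_long (i :: m).length
      refine ⟨⟨⟨r, v, b⟩, le_trans hr (le_trans hq1 hq), hv, hrb⟩, ?_, le_trans hr hq1, hb⟩
      show (i :: m) <:+ v
      rcases (hr hv).2 with h1 | h1
      · rw [h1.eq_of_length_le hlen]
      · exact h1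
    choose y hy using hy
    exact ⟨m, y, hm, hy⟩
  choose m y hm hy using hstep
  obtain ⟨r₀, hr₀, a₀, -, ha₀⟩ := h 0 p (le_refl p)
  let x₀ : St := ⟨⟨r₀, r₀.nonempty.some, a₀⟩, hr₀, r₀.nonempty.some_mem, ha₀⟩
  let F : List Bool → St := fun s => List.rec x₀ (fun i s x => y x (s.length + 1) i) s
  refine ⟨fun s => (F s).1.1, fun s => (F s).1.2.1, fun s => (F s).1.2.2, fun s => (F s).2.1,
    fun i s => (hy (F s) (s.length + 1) i).2.1, ?_, fun s => (F s).2.2.1,
    fun s => (F s).2.2.2, ?_⟩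
  · intro s
    exact ⟨m (F s) (s.length + 1), hm _ _, fun i => (hy (F s) (s.length + 1) i).1⟩
  · intro s
    cases s with
    | nil => exact Nat.zero_le _
    | cons i s => exact (hy (F s) (s.length + 1) i).2.2

theorem not_forces {𝒜 : Set (Set ℕ)} (h𝒜 : ∀ f, FTO f → ∃ A ∈ 𝒜, Meets A f) :
    ¬ ∃ (p : SacksCond) (X : Name), ForcesInfinite p X ∧ ∀ A ∈ 𝒜, ForcesInterFinite p A X := by
  rintro ⟨p, X, hinf, hfin⟩
  obtain ⟨P, t, f, hP, hPs, ht, htP, hf, hfl⟩ := exists_fusion hinf
  have hmono : ∀ {s s' : List Bool}, s <:+ s' → P s' ≤ P s := by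
    intro s s' hs
    obtain ⟨l, rfl⟩ := hs
    induction l with
    | nil => exact le_refl _
    | cons a l ih => exact le_trans (hPs a (l ++ s)) ih
  have hFTO : FTO f := by
    intro a
    refine (List.finite_length_le Bool a).subset ?_
    intro s hs
    have : f s = a := hs
    exact this ▸ hfl s
  obtain ⟨A, hA, g, ⟨φ, hφ, rfl⟩, hg⟩ := h𝒜 f hFTO
  have htφ := ht.comp hφ
  -- the condition `r`
  let r : SacksCond :=
    { carrier := {u | ∃ s, u <:+ t (φ s)}
      nonempty := ⟨[], [], List.nil_suffix⟩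
      closed := by
        rintro s u hs ⟨w, hw⟩
        exact ⟨w, hs.trans hw⟩
      perfect := by
        rintro u ⟨s, hs⟩
        obtain ⟨m, hm, hi⟩ := htφ s
        exact ⟨m, hs.trans hm, fun i => ⟨i :: s, hi i⟩⟩ }
  have hrp : r ≤ p := by
    rintro u ⟨s, hs⟩
    exact hP (φ s) ((P (φ s)).closed _ _ hs (htP _))
  obtain ⟨r', hr', N, hN⟩ := hfin A hA r hrp
  -- a node `t (φ s')` in `r'` with `|s'| = N`
  obtain ⟨s', hs'N, hs'r⟩ : ∃ s' : List Bool, s'.length = N ∧ t (φ s') ∈ r'.carrier := by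
    have hbdd : BddAbove ((fun s => (t (φ s)).length) '' {s : List Bool | s.length ≤ N}) :=
      ((List.finite_length_le Bool N).image _).bddAbove
    obtain ⟨L, hL⟩ := hbdd
    obtain ⟨u, hu, hlen⟩ := r'.exists_long (L + 1)
    obtain ⟨s, hs⟩ := hr' hu
    have hsN : N < s.length := by
      by_contra hle
      push Not at hle
      have h1 : (t (φ s)).length ≤ L := hL ⟨s, hle, rfl⟩
      have h2 := hs.length_le
      omega
    have hsuf : s.drop (s.length - N) <:+ s := List.drop_suffix _ _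
    have hlen' : (s.drop (s.length - N)).length = N := by simp; omega
    refine ⟨s.drop (s.length - N), hlen', ?_⟩
    have h1 : t (φ (s.drop (s.length - N))) <:+ t (φ s) := htφ.mono hsuf
    have h2 : (t (φ (s.drop (s.length - N)))).length ≤ L := hL ⟨_, hlen'.le, rfl⟩
    exact r'.closed _ _ (suffix_of_suffix_le h1 hs (by omega)) hu
  have hle : r'.restrict _ hs'r ≤ P (φ s') := by
    rintro v ⟨hv, hor⟩
    rcases hor with h1 | h1
    · exact (P (φ s')).closed _ _ h1 (htP _)
    · obtain ⟨w, hw⟩ := hr' hv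
      have h2 : s' <:+ w := htφ.reflect (h1.trans hw)
      exact (P (φ s')).closed _ _ hw (hmono (hφ.mono h2) (htP _))
  have hmem : f (φ s') ∈ A := hg ⟨s', rfl⟩
  have hge : N ≤ f (φ s') := by
    have h1 := hfl (φ s')
    have h2 := hφ.len s'
    omega
  refine hN _ hge hmem _ (restrict_le r' _ hs'r) ?_
  intro q hq
  exact hf (φ s') q (le_trans hq hle)

/-- The assembly of the properties of the family. -/
theorem sacksIndestructible_of_meets {𝒜 : Set (Set ℕ)} (h1 : ∀ A ∈ 𝒜, A.Infinite)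
    (h2 : ∀ A ∈ 𝒜, ∀ B ∈ 𝒜, A ≠ B → (A ∩ B).Finite)
    (h3 : ∀ A ∈ 𝒜, (∃ n, A ⊆ {a | (Nat.unpair a).1 = n}) ∨
      ∀ n, (A ∩ {a | (Nat.unpair a).1 = n}).Finite)
    (h4 : ∀ f, FTO f → ∃ A ∈ 𝒜, Meets A f) : IsMAD 𝒜 ∧ SacksIndestructible 𝒜 := by
  refine ⟨⟨?_, h1, h2, ?_⟩, not_forces h4⟩
  · -- infinite
    have hex : ∀ n : ℕ, ∃ A ∈ 𝒜, A ⊆ {a | (Nat.unpair a).1 = n} := by
      intro n
      have hFTO : FTO (fun t : List Bool => Nat.pair n (Encodable.encode t)) := by
        intro a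
        refine (Set.finite_singleton a).preimage ?_
        intro s _ t _ hst
        have := (Nat.pair_eq_pair.mp hst).2
        exact Encodable.encode_injective this
      obtain ⟨A, hA, g, hg, hgA⟩ := h4 _ hFTO
      refine ⟨A, hA, ?_⟩
      have hsub : range g ⊆ A ∩ {a | (Nat.unpair a).1 = n} := by
        intro a ha
        refine ⟨hgA ha, ?_⟩
        obtain ⟨t, rfl⟩ := hg.range ha
        simp
      have hinf := (hFTO.le hg).range_infinite.mono hsub
      rcases h3 A hA with ⟨n', hn'⟩ | hn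
      · obtain ⟨a, ha1, ha2⟩ := hinf.nonempty
        have e1 : (Nat.unpair a).1 = n' := hn' ha1
        have e2 : (Nat.unpair a).1 = n := ha2
        rw [← e2, e1]
        exact hn'
      · exact absurd (hn n) hinf
    choose A hA hAn using hex
    refine Set.infinite_of_injective_forall_mem (f := A) ?_ hA
    intro n n' hnn'
    obtain ⟨a, ha⟩ := (h1 _ (hA n)).nonempty
    have e1 : (Nat.unpair a).1 = n := hAn n ha
    have e2 : (Nat.unpair a).1 = n' := hAn n' (hnn' ▸ ha)
    rw [← e1, e2]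
  · -- maximal
    intro X hX
    have := hX.to_subtype
    classical
    let f : List Bool → ℕ := fun t => (Nat.nth (· ∈ X) (Encodable.encode t))
    have hfinj : Function.Injective f := by
      intro s t hst
      exact Encodable.encode_injective (Nat.nth_injective hX hst)
    have hf : FTO f := by
      intro a
      exact (Set.finite_singleton a).preimage hfinj.injOn
    obtain ⟨A, hA, g, hg, hgA⟩ := h4 f hf
    refine ⟨A, hA, (hf.le hg).range_infinite.mono ?_⟩
    intro a ha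
    refine ⟨?_, hgA ha⟩
    obtain ⟨t, rfl⟩ := hg.range ha
    exact Nat.nth_mem_of_infinite hX _

end Pool.Agent.Work.MP_9abc7c_lc
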