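import Pool.Agent.Work.MP_9abc7c_lc.Build
import Pool.Agent.Work.MP_9abc7c_lc.Sacks

/-!
The family when the bounding number is below `ℵ_ω`.
-/

namespace Pool.Agent.Work.MP_9abc7c_lc

open Set Cardinal Ordinal

lemma boundingNumber_unbounded :
    ∃ F : Set (ℕ → ℕ), #F = boundingNumber ∧
      ¬ ∃ g : ℕ → ℕ, ∀ f ∈ F, ∃ N, ∀ n ≥ N, f n ≤ g n := by
  have hne : {κ | ∃ F : Set (ℕ → ℕ), #F = κ ∧
      ¬ ∃ g : ℕ → ℕ, ∀ f ∈ F, ∃ N, ∀ n ≥ N, f n ≤ g n}.Nonempty := by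
    refine ⟨_, Set.univ, rfl, ?_⟩
    rintro ⟨g, hg⟩
    obtain ⟨N, hN⟩ := hg (fun n => g n + 1) (mem_univ _)
    have := hN N le_rfl
    omega
  exact csInf_mem hne

lemma dominated_of_lt {Λ : Type} (F : Λ → ℕ → ℕ) (hΛ : #Λ < boundingNumber) :
    ∃ g : ℕ → ℕ, ∀ l, ∃ N, ∀ n ≥ N, F l n ≤ g n := by
  by_contra hcon
  have h1 : boundingNumber ≤ #(range F) := by
    refine csInf_le' ⟨range F, rfl, ?_⟩
    rintro ⟨g, hg⟩
    exact hcon ⟨g, fun l => hg _ ⟨l, rfl⟩⟩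
  exact absurd (h1.trans Cardinal.mk_range_le) (not_le.mpr hΛ)

lemma aleph0_lt_boundingNumber : ℵ₀ < boundingNumber := by
  by_contra hle
  push Not at hle
  obtain ⟨F, hF, hunb⟩ := boundingNumber_unbounded
  rw [← hF] at hle
  have hcount : F.Countable := Cardinal.le_aleph0_iff_set_countable.mp hle
  apply hunb
  rcases F.eq_empty_or_nonempty with rfl | hne
  · exact ⟨fun _ => 0, fun f hf => absurd hf (Set.notMem_empty f)⟩
  obtain ⟨u, hu⟩ := hcount.exists_eq_range hne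
  refine ⟨fun n => ∑ i ∈ Finset.range (n + 1), u i n, ?_⟩
  rw [hu]
  rintro _ ⟨i, rfl⟩
  refine ⟨i, fun n hn => ?_⟩
  exact Finset.single_le_sum (f := fun i => u i n) (fun _ _ => Nat.zero_le _)
    (Finset.mem_range.mpr (by omega))

lemma boundingNumber_le : boundingNumber ≤ 𝔠 := by
  obtain ⟨F, hF, -⟩ := boundingNumber_unbounded
  rw [← hF]
  refine (Cardinal.mk_set_le F).trans ?_
  simp

lemma splittingNumber_splitting :
    ∃ 𝒮 : Set (Set ℕ), #𝒮 = splittingNumber ∧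
      ∀ X : Set ℕ, X.Infinite → ∃ S ∈ 𝒮, (X ∩ S).Infinite ∧ (X \ S).Infinite := by
  have hne : {κ | ∃ 𝒮 : Set (Set ℕ), #𝒮 = κ ∧
      ∀ X : Set ℕ, X.Infinite → ∃ S ∈ 𝒮, (X ∩ S).Infinite ∧ (X \ S).Infinite}.Nonempty := by
    refine ⟨_, Set.univ, rfl, ?_⟩
    intro X hX
    have hinj : Function.Injective (Nat.nth (· ∈ X)) := Nat.nth_injective hX
    refine ⟨range (fun n => Nat.nth (· ∈ X) (2 * n)), mem_univ _, ?_, ?_⟩
    · refine (Set.infinite_range_of_injective (f := fun n => Nat.nth (· ∈ X) (2 * n)) ?_).mono ?_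
      · intro a b hab
        have := hinj hab
        omega
      · rintro _ ⟨n, rfl⟩
        exact ⟨Nat.nth_mem_of_infinite hX _, ⟨n, rfl⟩⟩
    · refine (Set.infinite_range_of_injective
        (f := fun n => Nat.nth (· ∈ X) (2 * n + 1)) ?_).mono ?_
      · intro a b hab
        have := hinj hab
        omega
      · rintro _ ⟨n, rfl⟩
        refine ⟨Nat.nth_mem_of_infinite hX _, ?_⟩
        rintro ⟨m, hm⟩
        have := hinj hm
        omega
  exact csInf_mem hne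

/-- The case where the bounding number is the continuum. -/
theorem exists_family_of_continuum (hb : boundingNumber = 𝔠) (Cp : ℕ → Set ℕ) :
    ∃ 𝒜 : Set (Set ℕ), (∀ A ∈ 𝒜, A.Infinite) ∧
      (∀ A ∈ 𝒜, ∀ B ∈ 𝒜, A ≠ B → (A ∩ B).Finite) ∧
      (∀ A ∈ 𝒜, (∃ n, A ⊆ Cp n) ∨ ∀ n, (A ∩ Cp n).Finite) ∧
      ∀ f, FTO f → ∃ A ∈ 𝒜, Meets A f := by
  classical
  obtain ⟨r, hwo, hr⟩ := Cardinal.exists_ord_eq {f : List Bool → ℕ // FTO f}
  have hwf : WellFounded r := hwo.wf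
  have hcard : ∀ f, #{f' // r f' f} < 𝔠 := by
    intro f
    have h1 := Cardinal.card_typein_lt f hr
    rw [Ordinal.card_typein] at h1
    refine lt_of_lt_of_le h1 ?_
    refine (Cardinal.mk_subtype_le _).trans ?_
    simp
  have hsub : ∀ f : {f : List Bool → ℕ // FTO f},
      #{f' // r f' f ∧ (range f.1 ∩ range f'.1).Infinite} < 𝔠 := by
    intro f
    refine lt_of_le_of_lt ?_ (hcard f)
    exact Cardinal.mk_le_of_injective (f := fun p => ⟨p.1, p.2.1⟩) (by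
      rintro ⟨a, ha⟩ ⟨b, hb⟩ h
      simpa using h)
  refine phase2_few r hwf (fun f => f.1) (fun f => Le.refl _) ?_ hsub
    (fun f F => dominated_of_lt F (by rw [hb]; exact hsub f)) Cp
  intro f f' hne h1 h2
  rcases trichotomous_of r f f' with h | h | h
  · exact absurd h h1
  · exact absurd h hne
  · exact absurd h h2

theorem exists_family_below (hs : splittingNumber ≤ boundingNumber)
    (hb : boundingNumber < ℵ_ ω) (Cp : ℕ → Set ℕ) :
    ∃ 𝒜 : Set (Set ℕ), (∀ A ∈ 𝒜, A.Infinite) ∧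
      (∀ A ∈ 𝒜, ∀ B ∈ 𝒜, A ≠ B → (A ∩ B).Finite) ∧
      (∀ A ∈ 𝒜, (∃ n, A ⊆ Cp n) ∨ ∀ n, (A ∩ Cp n).Finite) ∧
      ∀ f, FTO f → ∃ A ∈ 𝒜, Meets A f := by
  rcases boundingNumber_le.eq_or_lt with hc | hc
  · exact exists_family_of_continuum hc Cp
  obtain ⟨o, ho⟩ := Cardinal.mem_range_aleph_iff.mpr aleph0_lt_boundingNumber.le
  have h1 : o < ω := by
    rw [← ho, Cardinal.aleph_lt_aleph] at hb
    exact hb
  obtain ⟨m, rfl⟩ := Ordinal.lt_omega0.mp h1
  have h2 : m ≠ 0 := by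
    rintro rfl
    have := aleph0_lt_boundingNumber
    rw [← ho] at this
    simp at this
  obtain ⟨n, rfl⟩ := Nat.exists_eq_succ_of_ne_zero h2
  have h3 : ℵ_ ((n : Ordinal.{0}) + 1) = boundingNumber := by
    rw [← ho]
    simp
  have hΩ : #(boundingNumber.ord.ToType) = boundingNumber := Cardinal.mk_ord_toType _
  have small : ∀ i : boundingNumber.ord.ToType, #(Iio i) < #(boundingNumber.ord.ToType) := by
    intro i
    apply Cardinal.mk_Iio_lt
    rw [hΩ, Ordinal.type_toType]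
  obtain ⟨𝒮, h𝒮, hsplit⟩ := splittingNumber_splitting
  obtain ⟨F, hF, hunb⟩ := boundingNumber_unbounded
  obtain ⟨C⟩ := exists_ctx (Ω := boundingNumber.ord.ToType) n (hΩ.trans h3.symm) small
    (hΩ.trans_lt hc) ⟨𝒮, by rw [hΩ, h𝒮]; exact hs, hsplit⟩ ⟨F, by rw [hΩ, hF], hunb⟩
    (fun Λ F h => dominated_of_lt F (h.trans_eq hΩ))
  exact exists_family_of_ctx C Cp

end Pool.Agent.Work.MP_9abc7c_lc
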