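import Pool.Agent.Work.MP_9abc7c_lc.Fusion

/-!
Fusion with splitting, limits of coded families of sets along branches, and the reduction of a
finite-to-one function to one whose limit map is injective.
-/

namespace Pool.Agent.Work.MP_9abc7c_lc

open Set Cardinal

/-- Recursion for embeddings with a record of the choices. -/
lemma emb_rec' (R : List Bool → (Bool → List Bool) → Prop)
    (h : ∀ s, ∃ (m : List Bool) (u : Bool → List Bool), s <:+ m ∧ (∀ i, (i :: m) <:+ u i) ∧ R s u) :
    ∃ φ, Emb φ ∧ ∀ s, R (φ s) (fun i => φ (i :: s)) := by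
  classical
  choose m u hm hu hR using h
  let φ : List Bool → List Bool := fun s => List.rec [] (fun i _ r => u r i) s
  exact ⟨φ, fun s => ⟨m (φ s), hm _, fun i => hu _ _⟩, fun s => hR (φ s)⟩

/-- Fusion with splitting. -/
lemma fusion2 (f : List Bool → ℕ) (D : List Bool → (Bool → List Bool → ℕ) → Prop)
    (hopen : ∀ s g h, D s g → (∀ i, Le (h i) (g i)) → D s h)
    (hdense : ∀ s g, Le g f → ∃ (m : List Bool) (θ : Bool → List Bool → List Bool),
      (∀ i, Emb (θ i)) ∧ (∀ i, (i :: m) <:+ θ i []) ∧ D s (fun i => g ∘ θ i)) :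
    ∃ g, Le g f ∧ ∀ s : List Bool, D s (fun i t => g (t ++ i :: s)) := by
  classical
  have hd : ∀ s (E : {E : List Bool → List Bool // Emb E}),
      ∃ (m : List Bool) (θ : Bool → List Bool → List Bool),
      (∀ i, Emb (θ i)) ∧ (∀ i, (i :: m) <:+ θ i []) ∧ D s (fun i => f ∘ E.1 ∘ θ i) := by
    intro s E
    exact hdense s (f ∘ E.1) ⟨E.1, E.2, rfl⟩
  choose M Θ hΘ hM hDΘ using hd
  let E : List Bool → {E : List Bool → List Bool // Emb E} := fun s =>
    List.rec ⟨fun s => s, Emb.id⟩ (fun i s r => ⟨r.1 ∘ Θ s r i, r.2.comp (hΘ s r i)⟩) s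
  have hEc : ∀ i s, (E (i :: s)).1 = (E s).1 ∘ Θ s (E s) i := fun i s => rfl
  have hrel : ∀ s, ∃ θ : List Bool → List Bool → List Bool,
      (∀ t, Emb (θ t)) ∧ (∀ t, (E (t ++ s)).1 = (E s).1 ∘ θ t) ∧
      (∀ t, ∃ m, θ t [] <:+ m ∧ ∀ i, (i :: m) <:+ θ (i :: t) []) := by
    intro s
    let θ : List Bool → {E : List Bool → List Bool // Emb E} := fun t =>
      List.rec ⟨fun s => s, Emb.id⟩
        (fun i t r => ⟨r.1 ∘ Θ (t ++ s) (E (t ++ s)) i, r.2.comp (hΘ _ _ _)⟩) t
    refine ⟨fun t => (θ t).1, fun t => (θ t).2, ?_, ?_⟩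
    · intro t
      induction t with
      | nil => rfl
      | cons i t ih =>
        change (E (t ++ s)).1 ∘ Θ (t ++ s) (E (t ++ s)) i = _
        rw [ih]
        rfl
    · intro t
      obtain ⟨m, h1, h2⟩ := (θ t).2 (M (t ++ s) (E (t ++ s)))
      refine ⟨m, ((θ t).2.mono List.nil_suffix).trans h1, fun i => (h2 i).trans ?_⟩
      change _ <:+ (θ t).1 (Θ (t ++ s) (E (t ++ s)) i [])
      exact (θ t).2.mono (hM _ _ i)
  refine ⟨fun s => f ((E s).1 []), ⟨fun s => (E s).1 [], ?_, rfl⟩, ?_⟩
  · intro s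
    obtain ⟨m', hm3, hm4⟩ := (E s).2 (M s (E s))
    refine ⟨m', ((E s).2.mono List.nil_suffix).trans hm3, fun i => (hm4 i).trans ?_⟩
    show (E s).1 (i :: M s (E s)) <:+ (E (i :: s)).1 []
    rw [hEc]
    exact (E s).2.mono (hM _ _ i)
  · intro s
    refine hopen _ _ _ (hDΘ s (E s)) fun i => ?_
    obtain ⟨θ, h1, h2, h3⟩ := hrel (i :: s)
    refine ⟨fun t => θ t [], h3, ?_⟩
    funext t
    have := congrFun (h2 t) []
    simp only [Function.comp] at this ⊢
    rw [this]
    rfl

/-- `G` is the limit map of the coded family `F` along `h`. -/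
def Lim (F : ℕ → ℕ → Bool) (h : List Bool → ℕ) (G : (ℕ → Bool) → ℕ → Bool) : Prop :=
  ∀ m, ∃ n, ∀ x t, br x n <:+ t → F (h t) m = G x m

variable {F : ℕ → ℕ → Bool} {h : List Bool → ℕ} {G G' : (ℕ → Bool) → ℕ → Bool}

lemma Lim.comp (hL : Lim F h G) {φ : List Bool → List Bool} (hφ : Emb φ) :
    Lim F (h ∘ φ) (G ∘ brm φ) := by
  intro m
  obtain ⟨n, hn⟩ := hL m
  refine ⟨n, fun x t ht => ?_⟩
  apply hn
  have h1 := brm_spec hφ x n
  have h2 : br (brm φ x) n <:+ φ (br x n) := h1.br_suffix (by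
    have := hφ.len (br x n); simpa using this)
  exact h2.trans (hφ.mono ht)

lemma Lim.unique (h1 : Lim F h G) (h2 : Lim F h G') : G = G' := by
  funext x m
  obtain ⟨n, hn⟩ := h1 m
  obtain ⟨n', hn'⟩ := h2 m
  rw [← hn x (br x (max n n')) (br_suffix x (le_max_left _ _)),
    ← hn' x (br x (max n n')) (br_suffix x (le_max_right _ _))]

/-- uniform continuity of the limit map -/
lemma Lim.unif (hL : Lim F h G) (M : ℕ) :
    ∃ n ≥ M, ∀ m < M, ∀ x t, br x n <:+ t → F (h t) m = G x m := by
  choose N hN using hL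
  refine ⟨M + ∑ m ∈ Finset.range M, N m, Nat.le_add_right _ _, fun m hm x t ht => ?_⟩
  apply hN
  refine (br_suffix x ?_).trans ht
  have : N m ≤ ∑ m ∈ Finset.range M, N m :=
    Finset.single_le_sum (f := N) (fun _ _ => Nat.zero_le _) (Finset.mem_range.mpr hm)
  omega

lemma Lim.unif' (hL : Lim F h G) (M : ℕ) :
    ∃ n ≥ M, ∀ m < M, ∀ x x', br x n = br x' n → G x m = G x' m := by
  obtain ⟨n, hn, h⟩ := hL.unif M
  refine ⟨n, hn, fun m hm x x' e => ?_⟩
  rw [← h m hm x (br x n) List.suffix_rfl, ← h m hm x' (br x' n) List.suffix_rfl, e]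

/-- Smoothing. -/
lemma exists_lim (F : ℕ → ℕ → Bool) (f : List Bool → ℕ) : ∃ h, Le h f ∧ ∃ G, Lim F h G := by
  obtain ⟨h, hh, hD⟩ := fusion f (fun m g => ∀ t, F (g t) m = F (g []) m)
    (by
      rintro n g h hg ⟨φ, _, rfl⟩ t
      simp only [Function.comp]
      rw [hg (φ t), hg (φ [])])
    (by
      intro m g _
      by_cases hc : ∃ φ, Emb φ ∧ ∀ t, φ t ∈ {t | F (g t) m = true}
      · obtain ⟨φ, hφ, hP⟩ := hc
        refine ⟨g ∘ φ, ⟨φ, hφ, rfl⟩, fun t => ?_⟩
        have h1 : F (g (φ t)) m = true := hP t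
        have h2 : F (g (φ [])) m = true := hP []
        simp only [Function.comp, h1, h2]
      · obtain ⟨s, -, hs⟩ := cone_of_not_emb hc []
        refine ⟨_, Le.cone g s, fun t => ?_⟩
        have h1 : ¬ (F (g (t ++ s)) m = true) := hs _ (List.suffix_append _ _)
        have h2 : ¬ (F (g ([] ++ s)) m = true) := hs _ (List.suffix_append _ _)
        simp only [Bool.not_eq_true] at h1 h2
        rw [h1, h2])
  refine ⟨h, hh, fun x m => F (h (br x m)) m, fun m => ⟨m, ?_⟩⟩
  rintro x t ⟨u, rfl⟩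
  have := hD (br x m)
  simp only [br_length, List.nil_append] at this
  exact this u

/-- Separation of the two cones at every node makes the limit map injective. -/
lemma inj_of_sep (hL : Lim F h G)
    (hs : ∀ s, ∃ (m : ℕ) (b : Bool), ∀ i t, F (h (t ++ i :: s)) m = (i ^^ b)) :
    Function.Injective G := by
  intro x y hxy
  by_contra hne
  obtain ⟨n, h1, h2⟩ := branch_split hne
  obtain ⟨m, b, hm⟩ := hs (br x n)
  obtain ⟨N, hN⟩ := hL m
  have key : ∀ z : ℕ → Bool, br z n = br x n → G z m = (z n ^^ b) := by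
    intro z hz
    have hsuf : (z n :: br x n) <:+ br z (max N (n+1)) := by
      have : br z (n+1) = z n :: br x n := by simp [br, hz]
      rw [← this]; exact br_suffix z (le_max_right _ _)
    obtain ⟨t, ht⟩ := hsuf
    rw [← hN z (br z (max N (n+1))) (br_suffix z (le_max_left _ _)), ← ht, hm]
  have e1 := key x rfl
  have e2 := key y h1.symm
  rw [hxy] at e1
  rw [e1] at e2
  exact h2 (by simpa using e2)

/-- Two different branches, indexed by their bits at the splitting level. -/
lemma branch_split' {x y : ℕ → Bool} (h : x ≠ y) :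
    ∃ (s : List Bool) (z : Bool → ℕ → Bool),
      (z true = x ∧ z false = y ∨ z true = y ∧ z false = x) ∧
      ∀ i, br (z i) (s.length + 1) = i :: s := by
  obtain ⟨n, h1, h2⟩ := branch_split h
  cases hx : x n with
  | true =>
    have hy : y n = false := by
      cases hy : y n
      · rfl
      · exact absurd (hx.trans hy.symm) h2
    refine ⟨br x n, fun i => if i then x else y, Or.inl ⟨rfl, rfl⟩, ?_⟩
    intro i
    cases i
    · simp [br, hy, h1]
    · simp [br, hx]
  | false =>
    have hy : y n = true := by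
      cases hy : y n
      · exact absurd (hx.trans hy.symm) h2
      · rfl
    refine ⟨br x n, fun i => if i then y else x, Or.inr ⟨rfl, rfl⟩, ?_⟩
    intro i
    cases i
    · simp [br, hx]
    · simp [br, hy, h1]

/-- An embedding along which the limit map is constant or injective. -/
lemma const_or_inj (hL : Lim F h G) :
    ∃ φ, Emb φ ∧ ((∀ x y, (G ∘ brm φ) x = (G ∘ brm φ) y) ∨ Function.Injective (G ∘ brm φ)) := by
  by_cases hc : ∃ φ, Emb φ ∧ ∀ x y, (G ∘ brm φ) x = (G ∘ brm φ) y
  · obtain ⟨φ, hφ, h⟩ := hc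
    exact ⟨φ, hφ, Or.inl h⟩
  push Not at hc
  obtain ⟨g, ⟨φ, hφ, rfl⟩, hD⟩ := fusion2 h
    (fun _ g => ∃ (m : ℕ) (b : Bool), ∀ i t, F (g i t) m = (i ^^ b))
    (by
      rintro s g g' ⟨m, b, hm⟩ hle
      refine ⟨m, b, fun i t => ?_⟩
      obtain ⟨φ, _, hφ2⟩ := hle i
      rw [hφ2]
      exact hm i (φ t))
    (by
      rintro s g ⟨ψ, hψ, rfl⟩
      have hL' := hL.comp hψ
      obtain ⟨x, y, hxy⟩ := hc ψ hψ
      generalize hG' : G ∘ brm ψ = G' at hL' hxy
      have hne : x ≠ y := fun e => hxy (by rw [e])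
      obtain ⟨s, z, hz, hzs⟩ := branch_split' hne
      have hz2 : G' (z true) ≠ G' (z false) := by
        rcases hz with ⟨h1, h2⟩ | ⟨h1, h2⟩
        · rw [h1, h2]; exact hxy
        · rw [h1, h2]; exact hxy.symm
      have hm : ∃ m, G' (z true) m ≠ G' (z false) m := by
        by_contra hcon
        push Not at hcon
        exact hz2 (funext hcon)
      obtain ⟨m, hm⟩ := hm
      obtain ⟨N, hN⟩ := hL' m
      refine ⟨s, fun i t => t ++ br (z i) (max N (s.length + 1)), fun i => Emb.cone _,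
        fun i => ?_, m, !(G' (z true) m), fun i t => ?_⟩
      · show (i :: s) <:+ br (z i) (max N (s.length + 1))
        rw [← hzs i]
        exact br_suffix _ (le_max_right _ _)
      · have h3 := hN (z i) (t ++ br (z i) (max N (s.length + 1)))
          ((br_suffix _ (le_max_left _ _)).trans (List.suffix_append _ _))
        simp only [Function.comp] at h3 ⊢
        rw [h3]
        cases i with
        | true => simp
        | false =>
          cases h4 : G' (z true) m <;> cases h5 : G' (z false) m <;> simp_all)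
  exact ⟨φ, hφ, Or.inr (inj_of_sep (hL.comp hφ) hD)⟩

lemma exists_branch_of_ext (P : List Bool → Prop) (h0 : P []) (hs : ∀ s, P s → ∃ i, P (i :: s)) :
    ∃ x, ∀ n, P (br x n) := by
  choose b hb using hs
  let u : ℕ → {s // P s} := fun n =>
    Nat.rec ⟨[], h0⟩ (fun _ r => ⟨b r.1 r.2 :: r.1, hb r.1 r.2⟩) n
  refine ⟨fun n => b (u n).1 (u n).2, fun n => ?_⟩
  have : ∀ n, br (fun n => b (u n).1 (u n).2) n = (u n).1 := by
    intro n
    induction n with
    | zero => rfl
    | succ n ih =>
      show b (u n).1 (u n).2 :: br (fun n => b (u n).1 (u n).2) n = _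
      rw [ih]
  rw [this]
  exact (u n).2

lemma ultra_branch {α : Type*} (U : Ultrafilter α) (t : α → List Bool)
    (h : ∀ n, ∀ᶠ a in U, n ≤ (t a).length) : ∃ x, ∀ n, ∀ᶠ a in U, br x n <:+ t a := by
  apply exists_branch_of_ext (fun s => ∀ᶠ a in U, s <:+ t a)
  · exact Filter.Eventually.of_forall fun a => List.nil_suffix
  · intro s hs
    have h1 : ∀ᶠ a in U, (true :: s) <:+ t a ∨ (false :: s) <:+ t a := by
      filter_upwards [hs, h (s.length + 1)] with a ha hl
      obtain ⟨l, hl2⟩ := ha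
      rcases List.eq_nil_or_concat l with rfl | ⟨l', b, rfl⟩
      · exfalso
        rw [← hl2] at hl; simp at hl
      · cases b
        · right; exact ⟨l', by rw [← hl2]; simp⟩
        · left; exact ⟨l', by rw [← hl2]; simp⟩
    rcases Ultrafilter.eventually_or.mp h1 with h2 | h2
    · exact ⟨true, h2⟩
    · exact ⟨false, h2⟩

/-- Disjoint limit sets give almost disjoint ranges. -/
lemma finite_inter_of_disjoint {h' : List Bool → ℕ} (hL : Lim F h G) (hL' : Lim F h' G')
    (hd : ∀ x x', G x ≠ G' x') : (range h ∩ range h').Finite := by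
  by_contra hinf
  have hinf : (range h ∩ range h').Infinite := hinf
  have hi : Infinite ↑(range h ∩ range h') := hinf.to_subtype
  choose t ht using fun a : ↑(range h ∩ range h') => a.2.1
  choose t' ht' using fun a : ↑(range h ∩ range h') => a.2.2
  let U : Ultrafilter ↑(range h ∩ range h') := Filter.hyperfilter _
  have hlen : ∀ (k : List Bool → ℕ) (u : ↑(range h ∩ range h') → List Bool)
      (_ : ∀ a, k (u a) = a), ∀ n, ∀ᶠ a in U, n ≤ (u a).length := by
    intro k u hu n
    have : {a | ¬ n ≤ (u a).length}.Finite := by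
      have h1 : {a | ¬ n ≤ (u a).length} ⊆ u ⁻¹' {t | t.length < n} := by
        intro a ha
        exact not_le.mp ha
      refine Set.Finite.subset ?_ h1
      refine (List.finite_length_lt Bool n).preimage ?_
      intro a _ b _ hab
      have := hu a
      rw [hab, hu b] at this
      exact Subtype.ext this.symm
    exact Filter.mem_hyperfilter_of_finite_compl this
  obtain ⟨x, hx⟩ := ultra_branch U t (hlen h t ht)
  obtain ⟨x', hx'⟩ := ultra_branch U t' (hlen h' t' ht')
  apply hd x x'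
  funext m
  obtain ⟨n, hn⟩ := hL m
  obtain ⟨n', hn'⟩ := hL' m
  obtain ⟨a, ha, ha'⟩ := ((hx n).and (hx' n')).exists
  rw [← hn x (t a) ha, ← hn' x' (t' a) ha', ht, ht']

lemma exists_incomp (a c : Bool → List Bool) (h1 : ¬ a true <:+ a false)
    (h2 : ¬ a false <:+ a true) (h3 : ¬ c true <:+ c false) (h4 : ¬ c false <:+ c true) :
    ∃ i j, ¬ a i <:+ c j ∧ ¬ c j <:+ a i := by
  by_contra hcon
  push Not at hcon
  have comp : ∀ {u v w : List Bool}, u <:+ w → v <:+ w → u <:+ v ∨ v <:+ u := by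
    intro u v w hu hv
    rcases le_total u.length v.length with h | h
    · exact Or.inl (suffix_of_suffix_le hu hv h)
    · exact Or.inr (suffix_of_suffix_le hv hu h)
  have key : ∀ i, a i <:+ c true := by
    intro i
    by_contra hn
    have h5 : c true <:+ a i := by
      by_contra h6
      exact h6 (hcon i true hn)
    by_cases h6 : a i <:+ c false
    · exact h3 (h5.trans h6)
    · have h7 := hcon i false h6
      rcases comp h5 h7 with h8 | h8
      · exact h3 h8
      · exact h4 h8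
  rcases comp (key true) (key false) with h8 | h8
  · exact h1 h8
  · exact h2 h8

/-- Codes of a family of sets with index set enumerated by `ζ`. -/
noncomputable def code {Ω : Type} (e : Ω → Set ℕ) (ζ : ℕ → Ω) (a m : ℕ) : Bool :=
  open Classical in decide (a ∈ e (ζ m))

lemma card_branches : #(ℕ → Bool) = 𝔠 := by simp

/-- Lemma 2: every finite-to-one function has a reduction with injective limit map. -/
lemma exists_inj {Ω : Type} (hΩ : #Ω < 𝔠) (ζ : Ω → ℕ → Ω)
    (hbd : ∀ S : List Bool → Ω, ∃ i, ∀ s, ∃ m, ζ i m = S s) (e : Ω → Set ℕ)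
    (he : ∀ X : Set ℕ, X.Infinite → ∃ α, (X ∩ e α).Infinite ∧ (X \ e α).Infinite)
    {f : List Bool → ℕ} (hf : FTO f) :
    ∃ i h, Le h f ∧ ∃ G, Lim (code e (ζ i)) h G ∧ Function.Injective G := by
  classical
  -- no reduction of `f` is unsplittable
  have hspl : ∀ g, Le g f → ∃ α, Meets (e α) g ∧ Meets (e α)ᶜ g := by
    intro g hg
    by_contra hcon
    push Not at hcon
    have hA : ∀ α, ∃ A : Set ℕ, (A = e α ∨ A = (e α)ᶜ) ∧ ¬ Meets A g := by
      intro α
      by_cases h1 : Meets (e α) g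
      · exact ⟨_, Or.inr rfl, hcon α h1⟩
      · exact ⟨_, Or.inl rfl, h1⟩
    choose A hA1 hA2 using hA
    let Q : Ω → Set (ℕ → Bool) := fun α => {x | ∀ n, ∃ k ≥ n, br x k ∈ {t | g t ∈ A α}}
    have hQ : ∀ α, (Q α).Countable := by
      intro α
      by_contra hunc
      obtain ⟨φ, hφ, hP⟩ := emb_of_uncountable (S := {t | g t ∈ A α}) hunc
      refine hA2 α ⟨g ∘ φ, ⟨φ, hφ, rfl⟩, ?_⟩
      rintro _ ⟨t, rfl⟩
      exact hP t
    have hQc : #(⋃ α, Q α) < 𝔠 := by
      refine lt_of_le_of_lt (Cardinal.mk_iUnion_le_sum_mk) ?_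
      refine lt_of_le_of_lt (Cardinal.sum_le_sum _ (fun _ => ℵ₀)
        (fun α => Cardinal.mk_le_aleph0_iff.mpr (hQ α).to_subtype)) ?_
      rw [Cardinal.sum_const', ]
      exact Cardinal.mul_lt_of_lt Cardinal.aleph0_le_continuum hΩ Cardinal.aleph0_lt_continuum
    have hex : ∃ x, x ∉ ⋃ α, Q α := by
      by_contra hall
      push Not at hall
      have : (⋃ α, Q α) = Set.univ := Set.eq_univ_of_forall hall
      rw [this, Cardinal.mk_univ, card_branches] at hQc
      exact lt_irrefl _ hQc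
    obtain ⟨x, hx⟩ := hex
    have hgf : FTO g := hf.le hg
    have hinj : Function.Injective (fun n => br x n) := by
      intro a b hab
      have := congrArg List.length hab
      simpa using this
    have hXinf : (g '' range (fun n => br x n)).Infinite :=
      hgf.image (Set.infinite_range_of_injective hinj)
    obtain ⟨α, h1, h2⟩ := he _ hXinf
    have hfin : (g '' range (fun n => br x n) ∩ A α).Finite := by
      have hxα : x ∉ Q α := fun h => hx (Set.mem_iUnion.mpr ⟨α, h⟩)
      obtain ⟨n, hn⟩ := not_forall.mp hxα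
      refine ((Set.finite_lt_nat n).image (fun k => g (br x k))).subset ?_
      rintro _ ⟨⟨_, ⟨k, rfl⟩, rfl⟩, hk⟩
      refine ⟨k, ?_, rfl⟩
      by_contra hlt
      exact hn ⟨k, not_lt.mp hlt, hk⟩
    rcases hA1 α with h3 | h3
    · rw [h3] at hfin; exact h1 hfin
    · rw [h3] at hfin; exact h2 hfin
  -- separate at every node
  obtain ⟨g, hg, hD⟩ := fusion2 f
    (fun _ g => ∃ (α : Ω) (b : Bool), ∀ i t, decide (g i t ∈ e α) = (i ^^ b))
    (by
      rintro s g g' ⟨m, b, hm⟩ hle
      refine ⟨m, b, fun i t => ?_⟩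
      obtain ⟨φ, _, hφ2⟩ := hle i
      rw [hφ2]
      exact hm i (φ t))
    (by
      rintro s g hg
      obtain ⟨α, ⟨_, ⟨ψ, hψ, rfl⟩, h1⟩, ⟨_, ⟨ψ', hψ', rfl⟩, h2⟩⟩ := hspl g hg
      -- find incompatible nodes
      have hinc : ∃ (i j : Bool) (m : List Bool) (k : Bool),
          (k :: m) <:+ ψ [i] ∧ ((!k) :: m) <:+ ψ' [j] := by
        have hT : ¬ ([true] <:+ [false]) := by decide
        have hT' : ¬ ([false] <:+ [true]) := by decide
        obtain ⟨i, j, h3, h4⟩ := exists_incomp (fun i => ψ [i]) (fun i => ψ' [i])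
          (fun h3 => hT (hψ.reflect h3)) (fun h3 => hT' (hψ.reflect h3))
          (fun h3 => hT (hψ'.reflect h3)) (fun h3 => hT' (hψ'.reflect h3))
        rcases node_tri (ψ [i]) (ψ' [j]) with h5 | h5 | ⟨m, k, h5, h6⟩
        · exact absurd h5 h3
        · exact absurd h5 h4
        · exact ⟨i, j, m, k, h5, h6⟩
      obtain ⟨i, j, m, k, h3, h4⟩ := hinc
      refine ⟨m, fun l t => if l = k then ψ (t ++ [i]) else ψ' (t ++ [j]), ?_, ?_, α, !k, ?_⟩
      · intro l
        by_cases hl : l = k
        · simp only [hl, if_true]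
          exact hψ.comp (Emb.cone [i])
        · simp only [hl, if_false]
          exact hψ'.comp (Emb.cone [j])
      · intro l
        by_cases hl : l = k
        · simp only [hl, if_true]
          exact h3
        · have : l = !k := by cases l <;> cases k <;> simp_all
          show (l :: m) <:+ (if l = k then ψ ([] ++ [i]) else ψ' ([] ++ [j]))
          rw [if_neg hl, this]
          exact h4
      · intro l t
        by_cases hl : l = k
        · have h5 : g (ψ (t ++ [i])) ∈ e α := h1 ⟨_, rfl⟩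
          simp [hl, h5]
        · have h5 : g (ψ' (t ++ [j])) ∉ e α := h2 ⟨_, rfl⟩
          have : l = !k := by cases l <;> cases k <;> simp_all
          simp [h5, this])
  choose α b hα using hD
  obtain ⟨i, hi⟩ := hbd α
  obtain ⟨h, hh, G, hG⟩ := exists_lim (code e (ζ i)) g
  refine ⟨i, h, hh.trans hg, G, hG, ?_⟩
  obtain ⟨φ, hφ, rfl⟩ := hh
  refine inj_of_sep hG fun s => ?_
  obtain ⟨m', -, hm'⟩ := hφ s
  obtain ⟨k, hk⟩ := hi m'
  refine ⟨k, b m', fun l t => ?_⟩
  obtain ⟨u, hu⟩ := (hm' l).trans (hφ.mono (List.suffix_append t (l :: s)))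
  have h1 := hα m' l u
  simp only [code, Function.comp, hk]
  rw [← hu]
  exact h1

end Pool.Agent.Work.MP_9abc7c_lc
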