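import Pool.Agent.Work.MP_9abc7c_lc.Ctx

/-!
Every `γ`-tree has a reduction whose values are far from the limits at the branches off them.
-/

namespace Pool.Agent.Work.MP_9abc7c_lc

open Set Cardinal

/-- Long nodes have large values. -/
lemma FTO.exists_len {k : List Bool → ℕ} (hk : FTO k) (M : ℕ) :
    ∃ N, ∀ t : List Bool, N ≤ t.length → M ≤ k t := by
  have hfin : {t | k t ∈ Iio M}.Finite := hk.preimage (Set.finite_Iio M)
  obtain ⟨B, hB⟩ := (hfin.image List.length).bddAbove
  refine ⟨B + 1, fun t ht => ?_⟩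
  by_contra hlt
  push Not at hlt
  have : t.length ≤ B := hB ⟨t, hlt, rfl⟩
  omega

theorem Ctx.exists_offfar {Ω : Type} [LinearOrder Ω] [WellFoundedLT Ω] (C : Ctx Ω) {γ : Ω}
    {k : List Bool → ℕ} (hk : FTO k) {G : (ℕ → Bool) → Ω → Bool} (h : GT C.e γ k G) (σ : Ω) :
    ∃ φ z₁, Emb φ ∧ C.OffFar γ (k ∘ φ) (G ∘ brm φ) σ z₁ := by
  classical
  choose a ha b hab using h.sep
  obtain ⟨seq, hseq⟩ := exists_surjective_nat (List Bool)
  obtain ⟨z₁, hz₁, hz⟩ := C.Z_cof γ (fun n => a (seq n)) (fun n => ha _)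
  have hidx : ∀ s : List Bool, ∃ m, z₁ m = a s := by
    intro s
    obtain ⟨n, rfl⟩ := hseq s
    exact hz n
  choose idx hidx using hidx
  choose N hN using fun u : List Bool => hk.exists_len (C.H σ (idx u))
  let φ : List Bool → List Bool := fun s =>
    List.rec [] (fun i _ r => List.replicate (N r) true ++ i :: r) s
  have hφc : ∀ i s, φ (i :: s) = List.replicate (N (φ s)) true ++ i :: φ s := fun i s => rfl
  have hφ : Emb φ := by
    intro s
    refine ⟨φ s, List.suffix_rfl, fun i => ?_⟩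
    rw [hφc]
    exact List.suffix_append _ _
  have hsuf : ∀ i s, (i :: φ s) <:+ φ (i :: s) := by
    intro i s
    rw [hφc]
    exact List.suffix_append _ _
  refine ⟨φ, z₁, hφ, hz₁, ?_⟩
  intro s i t x hst hx
  refine ⟨idx (φ s), ?_, ?_⟩
  · apply hN (φ s)
    refine le_trans ?_ (hφ.mono hst).length_le
    rw [hφc]
    simp
  · rw [hidx]
    obtain ⟨u, hu⟩ := (hsuf i s).trans (hφ.mono hst)
    have h1 : k (φ t) ∈ C.e (a (φ s)) ↔ (i ^^ b (φ s)) = true := by
      rw [← hu]
      exact hab (φ s) i u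
    have h2 : OnBr ((!i) :: φ s) (brm φ x) := (brm_of_onBr hφ hx).suffix (hsuf (!i) s)
    obtain ⟨n, hn⟩ := h.lim (a (φ s)) (ha (φ s))
    have h3 := hn (brm φ x) (br (brm φ x) (max n ((!i) :: φ s).length))
      (br_suffix _ (le_max_left _ _))
    obtain ⟨u', hu'⟩ := h2.suffix_br (n := max n ((!i) :: φ s).length) (le_max_right _ _)
    have h4 : G (brm φ x) (a (φ s)) = true ↔ ((!i) ^^ b (φ s)) = true := by
      rw [← h3, ← hu']
      exact hab (φ s) (!i) u'
    simp only [Function.comp]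
    rw [h1, h4]
    cases i <;> cases b (φ s) <;> decide

end Pool.Agent.Work.MP_9abc7c_lc
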