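import Pool.Agent.Work.MP_9abc7c_lc.Ctx

/-!
The perfect set theorem for continuous images of the Baire space, and its application to the set
of types of the uncountable sets of limits.
-/

namespace Pool.Agent.Work.MP_9abc7c_lc

open Set Cardinal

lemma pt_cyl {α : Type} [TopologicalSpace α] [DiscreteTopology α] {z : ℕ → α} {U : Set (ℕ → α)}
    (hU : IsOpen U) (hz : z ∈ U) : ∃ n, PiNat.cylinder z n ⊆ U := by
  obtain ⟨V, ⟨x, n, rfl⟩, hzV, hVU⟩ :=
    (PiNat.isTopologicalBasis_cylinders (fun _ : ℕ => α)).exists_subset_of_mem_open hz hU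
  refine ⟨n, ?_⟩
  rw [PiNat.mem_cylinder_iff_eq.mp hzV]
  exact hVU

lemma pt_countable_part (f : (ℕ → ℕ) → (ℕ → Bool)) :
    (f '' (⋃₀ {V | IsOpen V ∧ (f '' V).Countable})).Countable := by
  obtain ⟨T, hT, hTS, hU⟩ := TopologicalSpace.isOpen_sUnion_countable
    {V | IsOpen V ∧ (f '' V).Countable} (fun V hV => hV.1)
  rw [← hU, image_sUnion]
  refine Countable.sUnion (hT.image _) ?_
  rintro _ ⟨V, hV, rfl⟩
  exact (hTS hV).2

lemma pt_step {f : (ℕ → ℕ) → (ℕ → Bool)} (hf : Continuous f) {V : Set (ℕ → ℕ)} (hV : IsOpen V)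
    (h : ¬ (f '' V).Countable) (N : ℕ) :
    ∃ z : Bool → ℕ → ℕ, ∃ n : ℕ, N ≤ n ∧ (∀ i, ¬ (f '' PiNat.cylinder (z i) n).Countable) ∧
      (∀ i, PiNat.cylinder (z i) n ⊆ V) ∧
      ∃ m, ∀ a ∈ PiNat.cylinder (z true) n, ∀ b ∈ PiNat.cylinder (z false) n,
        f a m ≠ f b m := by
  classical
  set U := ⋃₀ {V | IsOpen V ∧ (f '' V).Countable} with hUdef
  have hU : (f '' U).Countable := pt_countable_part f
  have hne : (f '' V \ f '' U).Nontrivial := by
    rw [← Set.not_subsingleton_iff]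
    intro hs
    apply h
    refine (hs.countable.union hU).mono ?_
    intro y hy
    by_cases hyU : y ∈ f '' U
    · exact Or.inr hyU
    · exact Or.inl ⟨hy, hyU⟩
  obtain ⟨_, ⟨⟨z1, hz1, rfl⟩, hz1U⟩, _, ⟨⟨z0, hz0, rfl⟩, hz0U⟩, hne⟩ := hne
  obtain ⟨m, hm⟩ : ∃ m, f z1 m ≠ f z0 m := by
    by_contra hc
    push Not at hc
    exact hne (funext hc)
  have hz1U' : z1 ∉ U := fun hh => hz1U ⟨z1, hh, rfl⟩
  have hz0U' : z0 ∉ U := fun hh => hz0U ⟨z0, hh, rfl⟩
  have hcoord : Continuous fun a => f a m := (continuous_apply m).comp hf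
  have hopen : ∀ z : ℕ → ℕ, z ∈ V → ∃ n, PiNat.cylinder z n ⊆ V ∩ {a | f a m = f z m} := by
    intro z hz
    have ho : IsOpen (V ∩ {a | f a m = f z m}) :=
      hV.inter ((isOpen_discrete {f z m}).preimage hcoord)
    exact pt_cyl ho ⟨hz, rfl⟩
  obtain ⟨n1, hn1⟩ := hopen z1 hz1
  obtain ⟨n0, hn0⟩ := hopen z0 hz0
  have hfat : ∀ z : ℕ → ℕ, z ∉ U → ∀ n, ¬ (f '' PiNat.cylinder z n).Countable := by
    intro z hz n hc
    apply hz
    exact ⟨_, ⟨PiNat.isOpen_cylinder _ z n, hc⟩, PiNat.self_mem_cylinder z n⟩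
  refine ⟨fun i => if i then z1 else z0, max N (max n1 n0), le_max_left _ _, ?_, ?_, m, ?_⟩
  · intro i
    cases i
    · exact hfat z0 hz0U' _
    · exact hfat z1 hz1U' _
  · intro i
    cases i
    · exact ((PiNat.cylinder_anti z0 ((le_max_right n1 n0).trans (le_max_right _ _))).trans
        hn0).trans inter_subset_left
    · exact ((PiNat.cylinder_anti z1 ((le_max_left n1 n0).trans (le_max_right _ _))).trans
        hn1).trans inter_subset_left
  · intro a ha b hb
    have ha' := hn1 (PiNat.cylinder_anti z1 ((le_max_left n1 n0).trans (le_max_right _ _)) ha)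
    have hb' := hn0 (PiNat.cylinder_anti z0 ((le_max_right n1 n0).trans (le_max_right _ _)) hb)
    rw [show f a m = f z1 m from ha'.2, show f b m = f z0 m from hb'.2]
    exact hm

/-- The perfect set theorem for continuous images of the Baire space. -/
theorem exists_injective_of_uncountable_range {f : (ℕ → ℕ) → (ℕ → Bool)} (hf : Continuous f)
    (h : ¬ (range f).Countable) :
    ∃ Y : (ℕ → Bool) → ℕ → Bool, Function.Injective Y ∧ ∀ x, Y x ∈ range f := by
  classical
  let T := {p : (ℕ → ℕ) × ℕ // ¬ (f '' PiNat.cylinder p.1 p.2).Countable}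
  have step : ∀ p : T, ∃ q : Bool → T,
      (∀ i, PiNat.cylinder (q i).1.1 (q i).1.2 ⊆ PiNat.cylinder p.1.1 p.1.2) ∧
      (∀ i, p.1.2 + 1 ≤ (q i).1.2) ∧ ∃ m, ∀ a ∈ PiNat.cylinder (q true).1.1 (q true).1.2,
        ∀ b ∈ PiNat.cylinder (q false).1.1 (q false).1.2, f a m ≠ f b m := by
    rintro ⟨⟨z, n⟩, hp⟩
    obtain ⟨z', n', h1, h2, h3, m, h4⟩ := pt_step hf (PiNat.isOpen_cylinder _ z n) hp (n + 1)
    exact ⟨fun i => ⟨(z' i, n'), h2 i⟩, h3, fun _ => h1, m, h4⟩
  choose q hq1 hq2 hq3 using step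
  let p0 : T := ⟨(0, 0), by
    simpa using h⟩
  let F : List Bool → T := fun s => List.rec p0 (fun i _ r => q r i) s
  have hF : ∀ i s, F (i :: s) = q (F s) i := fun _ _ => rfl
  have hlen : ∀ s, s.length ≤ (F s).1.2 := by
    intro s
    induction s with
    | nil => exact Nat.zero_le _
    | cons i s ih =>
      rw [hF, List.length_cons]
      exact (Nat.succ_le_succ ih).trans (hq2 _ _)
  have hnest : ∀ x : ℕ → Bool, ∀ m n, n ≤ m →
      PiNat.cylinder (F (br x m)).1.1 (F (br x m)).1.2 ⊆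
        PiNat.cylinder (F (br x n)).1.1 (F (br x n)).1.2 := by
    intro x m n hnm
    induction m, hnm using Nat.le_induction with
    | base => exact subset_rfl
    | succ m _ ih => exact (hq1 (F (br x m)) (x m)).trans ih
  let z : (ℕ → Bool) → ℕ → ℕ := fun x k => (F (br x (k + 1))).1.1 k
  have hz : ∀ x n, z x ∈ PiNat.cylinder (F (br x n)).1.1 (F (br x n)).1.2 := by
    intro x n k hk
    have h1 : (F (br x (max n (k + 1)))).1.1 ∈
        PiNat.cylinder (F (br x n)).1.1 (F (br x n)).1.2 :=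
      hnest x _ n (le_max_left _ _) (PiNat.self_mem_cylinder _ _)
    have h2 : (F (br x (max n (k + 1)))).1.1 ∈
        PiNat.cylinder (F (br x (k + 1))).1.1 (F (br x (k + 1))).1.2 :=
      hnest x _ (k + 1) (le_max_right _ _) (PiNat.self_mem_cylinder _ _)
    have h3 := h1 k hk
    have h4 := h2 k (by
      have := hlen (br x (k + 1))
      rw [br_length] at this
      omega)
    show (F (br x (k + 1))).1.1 k = (F (br x n)).1.1 k
    rw [← h4, h3]
  refine ⟨fun x => f (z x), ?_, fun x => ⟨_, rfl⟩⟩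
  intro x x' hxx
  by_contra hne
  obtain ⟨n, h1, h2⟩ := branch_split hne
  obtain ⟨m, hm⟩ := hq3 (F (br x n))
  have hx := hz x (n + 1)
  have hx' := hz x' (n + 1)
  have e1 : F (br x (n + 1)) = q (F (br x n)) (x n) := rfl
  have e2 : F (br x' (n + 1)) = q (F (br x n)) (x' n) := by rw [h1]; rfl
  rw [e1] at hx
  rw [e2] at hx'
  have hxx' : f (z x) m = f (z x') m := congrFun hxx m
  cases hxn : x n <;> cases hxn' : x' n
  · rw [hxn, hxn'] at h2; exact h2 rfl
  · rw [hxn] at hx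
    rw [hxn'] at hx'
    exact hm _ hx' _ hx hxx'.symm
  · rw [hxn] at hx
    rw [hxn'] at hx'
    exact hm _ hx _ hx' hxx'
  · rw [hxn, hxn'] at h2; exact h2 rfl

lemma pt_isClosed_onBr (t : List Bool) : IsClosed {y : ℕ → Bool | OnBr t y} := by
  rcases Set.eq_empty_or_nonempty {y : ℕ → Bool | OnBr t y} with h | ⟨y₀, hy₀⟩
  · rw [h]; exact isClosed_empty
  · have hy₀' : br y₀ t.length = t := hy₀
    have : {y : ℕ → Bool | OnBr t y} = ⋂ k : {k // k < t.length}, {y | y k.1 = y₀ k.1} := by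
      ext y
      simp only [Set.mem_ofPred_eq, mem_iInter]
      constructor
      · intro hy k
        have : br y t.length = br y₀ t.length := by rw [hy₀']; exact hy
        exact br_eq_iff.mp this k.1 k.2
      · intro hy
        have : br y t.length = br y₀ t.length := br_eq_iff.mpr fun k hk => hy ⟨k, hk⟩
        show br y t.length = t
        rw [this, hy₀']
    rw [this]
    exact isClosed_iInter fun k => isClosed_eq (continuous_apply _) continuous_const

lemma pt_continuous {F : ℕ → ℕ → Bool} {h : List Bool → ℕ} {G : (ℕ → Bool) → ℕ → Bool}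
    (hL : Lim F h G) : Continuous G := by
  refine continuous_pi fun m => ?_
  refine IsLocallyConstant.continuous ?_
  rw [IsLocallyConstant.iff_exists_open]
  intro x
  obtain ⟨n, -, hn⟩ := hL.unif' (m + 1)
  refine ⟨PiNat.cylinder x n, PiNat.isOpen_cylinder _ x n, PiNat.self_mem_cylinder x n, ?_⟩
  intro x' hx'
  exact hn m (Nat.lt_succ_self m) _ _ (br_eq_iff.mpr fun k hk => hx' k hk)

lemma pt_not_countable {Y : (ℕ → Bool) → ℕ → Bool} (hY : Function.Injective Y) :
    ¬ (range Y).Countable := by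
  intro hc
  have h1 : #(range Y) ≤ ℵ₀ := Cardinal.mk_le_aleph0_iff.mpr hc.to_subtype
  rw [Cardinal.mk_range_eq Y hY, card_branches] at h1
  exact absurd Cardinal.aleph0_lt_continuum (not_lt.mpr h1)

section

variable {H : ℕ → ℕ} {χ : ℕ → List Bool} {G : (ℕ → Bool) → ℕ → Bool} {y : ℕ → Bool}

lemma pt_sound (hK : IsClosed (range G)) {N : List Bool → List Bool}
    (h1 : ∀ s i, (i :: N s) <:+ N (i :: s)) (h2 : ∀ s, ∃ x, OnBr (N s) (G x))
    (h3 : ∀ s, ∃ n, H n ≤ (N s).length ∧ (N s).length < H (n + 1) ∧ OnBr (χ n) y) :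
    y ∈ Yset H χ G := by
  have hN : Emb N := fun s => ⟨N s, List.suffix_rfl, fun i => h1 s i⟩
  have hp : range (brm N) ⊆ range G := by
    rintro _ ⟨x, rfl⟩
    rw [← hK.closure_eq, mem_closure_iff]
    intro U hU hxU
    obtain ⟨n, hn⟩ := pt_cyl hU hxU
    obtain ⟨x', hx'⟩ := h2 (br x n)
    refine ⟨G x', hn ?_, mem_range_self _⟩
    have e : br (G x') n = br (brm N x) n :=
      br_eq_of_onBr hx' (brm_spec hN x n) (by have := hN.len (br x n); simpa using this)
    exact fun i hi => br_eq_iff.mp e i hi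
  refine ⟨G ⁻¹' range (brm N), ?_, ?_⟩
  · rw [image_preimage_eq_of_subset hp]
    exact pt_not_countable (brm_injective hN)
  · rw [image_preimage_eq_of_subset hp]
    rintro _ ⟨x, rfl⟩ _ ⟨x', rfl⟩ d hd
    have hne : x ≠ x' := fun e => hd.ne (by rw [e])
    obtain ⟨n, e1, e2⟩ := branch_split hne
    have a1 : OnBr (x n :: N (br x n)) (brm N x) :=
      (brm_spec hN x (n + 1)).suffix (h1 (br x n) (x n))
    have a2 : OnBr (x' n :: N (br x n)) (brm N x') := by
      have := (brm_spec hN x' (n + 1)).suffix (h1 (br x' n) (x' n))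
      rwa [← e1] at this
    have hD : Dl (brm N x) (brm N x') (N (br x n)).length := by
      unfold OnBr at a1 a2
      simp only [List.length_cons, br, List.cons.injEq] at a1 a2
      refine ⟨fun k hk => ?_, ?_⟩
      · have : br (brm N x) (N (br x n)).length = br (brm N x') (N (br x n)).length := by
          rw [a1.2, a2.2]
        exact br_eq_iff.mp this k hk
      · rw [a1.1, a2.1]
        exact e2
    rw [← hD.unique hd]
    exact h3 _

lemma pt_split {R₀ : Set (ℕ → Bool)} {t : List Bool}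
    (ht : ¬ (R₀ ∩ {x | OnBr t x}).Countable) :
    ∃ m, t <:+ m ∧ ∀ i, ¬ (R₀ ∩ {x | OnBr (i :: m) x}).Countable := by
  classical
  let Gd : List Bool → Prop := fun t => ¬ (R₀ ∩ {x | OnBr t x}).Countable
  have hcount : (⋃ t ∈ {t | ¬ Gd t}, (R₀ ∩ {x | OnBr t x})).Countable := by
    refine (Set.to_countable {t | ¬ Gd t}).biUnion ?_
    intro t ht
    exact not_not.mp ht
  set C := ⋃ t ∈ {t | ¬ Gd t}, (R₀ ∩ {x | OnBr t x}) with hC
  have hallG : ∀ x, x ∈ R₀ → x ∉ C → ∀ t, OnBr t x → Gd t := by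
    intro x hx hxC t ht
    by_contra hG
    refine hxC ?_
    rw [hC]
    exact Set.mem_biUnion (show t ∈ {t | ¬ Gd t} from fun h => h hG) ⟨hx, ht⟩
  have hnt : ((R₀ ∩ {x | OnBr t x}) \ C).Nontrivial := by
    rw [← Set.not_subsingleton_iff]
    intro hs
    apply ht
    refine (hs.countable.union hcount).mono ?_
    intro x hx
    by_cases hxC : x ∈ C
    · exact Or.inr hxC
    · exact Or.inl ⟨hx, hxC⟩
  obtain ⟨x, ⟨⟨hx, hxt⟩, hxC⟩, y, ⟨⟨hy, hyt⟩, hyC⟩, hne⟩ := hnt
  obtain ⟨n, h1, h2⟩ := branch_split hne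
  have htn : t.length ≤ n := by
    by_contra hlt
    push Not at hlt
    have e1 := hxt.br_suffix (n := n+1) hlt
    have e2 := hyt.br_suffix (n := n+1) hlt
    have := eq_of_suffix_eq e1 e2 (by simp)
    simp only [br, List.cons.injEq] at this
    exact h2 this.1
  refine ⟨br x n, OnBr.suffix_br hxt htn, ?_⟩
  intro i
  have hi : i = x n ∨ i = y n := by
    revert h2
    generalize x n = a
    generalize y n = b
    revert a b i
    decide
  rcases hi with rfl | rfl
  · exact hallG x hx hxC _ (onBr_br x (n+1))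
  · rw [h1]; exact hallG y hy hyC _ (onBr_br y (n+1))

lemma pt_complete {R₀ : Set (ℕ → Bool)} (hR : ¬ R₀.Countable) (hRG : R₀ ⊆ range G)
    (hy : Ty H χ y R₀) :
    ∃ N : List Bool → List Bool, (∀ s i, (i :: N s) <:+ N (i :: s)) ∧
      (∀ s, ∃ x, OnBr (N s) (G x)) ∧
      ∀ s, ∃ n, H n ≤ (N s).length ∧ (N s).length < H (n + 1) ∧ OnBr (χ n) y := by
  classical
  let T := {m : List Bool // ∀ i, ¬ (R₀ ∩ {x | OnBr (i :: m) x}).Countable}
  have h0 : ∃ p : T, True := by
    obtain ⟨m, -, hm⟩ := pt_split (R₀ := R₀) (t := []) (by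
      intro hc
      apply hR
      exact hc.mono (fun x hx => (⟨hx, rfl⟩ : x ∈ R₀ ∩ {x | OnBr [] x})))
    exact ⟨⟨m, hm⟩, trivial⟩
  obtain ⟨p0, -⟩ := h0
  have step : ∀ (p : T) (i : Bool), ∃ p' : T, (i :: p.1) <:+ p'.1 := by
    intro p i
    obtain ⟨m, hm1, hm2⟩ := pt_split (p.2 i)
    exact ⟨⟨m, hm2⟩, hm1⟩
  choose q hq using step
  let F : List Bool → T := fun s => List.rec p0 (fun i _ r => q r i) s
  have hne : ∀ (s : List Bool) (i : Bool), ∃ r ∈ R₀, OnBr (i :: (F s).1) r := by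
    intro s i
    have hne : (R₀ ∩ {x | OnBr (i :: (F s).1) x}).Nonempty := by
      rw [nonempty_iff_ne_empty]
      intro he
      exact (F s).2 i (by rw [he]; exact countable_empty)
    obtain ⟨r, hr, hr2⟩ := hne
    exact ⟨r, hr, hr2⟩
  refine ⟨fun s => (F s).1, fun s i => hq (F s) i, fun s => ?_, fun s => ?_⟩
  · obtain ⟨r, hr, hr2⟩ := hne s true
    obtain ⟨x, rfl⟩ := hRG hr
    exact ⟨x, hr2.suffix (List.suffix_cons _ _)⟩
  · obtain ⟨r, hr, hr2⟩ := hne s true
    obtain ⟨r', hr', hr2'⟩ := hne s false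
    refine hy r hr r' hr' (F s).1.length ?_
    unfold OnBr at hr2 hr2'
    simp only [List.length_cons, br, List.cons.injEq] at hr2 hr2'
    refine ⟨fun k hk => ?_, ?_⟩
    · have : br r (F s).1.length = br r' (F s).1.length := by
        rw [hr2.2, hr2'.2]
      exact br_eq_iff.mp this k hk
    · rw [hr2.1, hr2'.1]
      decide

/-- the closed set coding the types -/
def ptR (H : ℕ → ℕ) (χ : ℕ → List Bool) (G : (ℕ → Bool) → ℕ → Bool) (c : ℕ → List Bool) :
    Set ((List Bool → ℕ) × (ℕ → Bool)) :=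
  {p | ∀ s, (∀ i, (i :: c (p.1 s)) <:+ c (p.1 (i :: s))) ∧ (∃ x, OnBr (c (p.1 s)) (G x)) ∧
    ∃ n, H n ≤ (c (p.1 s)).length ∧ (c (p.1 s)).length < H (n + 1) ∧ OnBr (χ n) p.2}

lemma pt_isClosed (hH : StrictMono H) (c : ℕ → List Bool) : IsClosed (ptR H χ G c) := by
  have hcont : ∀ s : List Bool, Continuous fun p : (List Bool → ℕ) × (ℕ → Bool) => p.1 s :=
    fun s => (continuous_apply s).comp continuous_fst
  have hpre : ∀ (s : List Bool) (A : Set ℕ),
      IsClosed {p : (List Bool → ℕ) × (ℕ → Bool) | p.1 s ∈ A} :=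
    fun s A => (isClosed_discrete A).preimage (hcont s)
  have hpre2 : ∀ (s s' : List Bool) (A : Set (ℕ × ℕ)),
      IsClosed {p : (List Bool → ℕ) × (ℕ → Bool) | (p.1 s, p.1 s') ∈ A} :=
    fun s s' A => (isClosed_discrete A).preimage ((hcont s).prodMk (hcont s'))
  have heq : ptR H χ G c = ⋂ s : List Bool,
      ((⋂ i : Bool, {p | (p.1 s, p.1 (i :: s)) ∈
          {k : ℕ × ℕ | (i :: c k.1) <:+ c k.2}}) ∩
        {p | p.1 s ∈ {k : ℕ | ∃ x, OnBr (c k) (G x)}} ∩
        ⋂ k : ℕ, ({p | p.1 s ∈ {k' : ℕ | k' ≠ k}} ∪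
          ⋃ n ∈ {n : ℕ | n ≤ (c k).length},
            ({p : (List Bool → ℕ) × (ℕ → Bool) |
              H n ≤ (c k).length ∧ (c k).length < H (n + 1)} ∩
              {p | OnBr (χ n) p.2}))) := by
    ext p
    simp only [ptR, Set.mem_ofPred_eq, mem_iInter, mem_inter_iff, mem_union, mem_iUnion]
    constructor
    · intro hp s
      obtain ⟨h1, h2, n, h3, h4, h5⟩ := hp s
      refine ⟨⟨h1, h2⟩, fun k => ?_⟩
      by_cases hk : p.1 s = k
      · right
        subst hk
        exact ⟨n, (hH.id_le n).trans h3, ⟨h3, h4⟩, h5⟩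
      · left; exact hk
    · intro hp s
      obtain ⟨⟨h1, h2⟩, h3⟩ := hp s
      refine ⟨h1, h2, ?_⟩
      rcases h3 (p.1 s) with h4 | ⟨n, -, ⟨h4, h5⟩, h6⟩
      · exact absurd rfl h4
      · exact ⟨n, h4, h5, h6⟩
  rw [heq]
  refine isClosed_iInter fun s => IsClosed.inter (IsClosed.inter ?_ ?_) ?_
  · exact isClosed_iInter fun i => hpre2 s (i :: s) _
  · exact hpre s _
  · refine isClosed_iInter fun k => IsClosed.union (hpre s _) ?_
    refine (Set.finite_le_nat (c k).length).isClosed_biUnion fun n _ => IsClosed.inter ?_ ?_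
    · exact isClosed_const
    · exact (pt_isClosed_onBr (χ n)).preimage continuous_snd

end

theorem exists_perfect_types {F : ℕ → ℕ → Bool} {h : List Bool → ℕ}
    {G : (ℕ → Bool) → ℕ → Bool} (hL : Lim F h G) {H : ℕ → ℕ} (hH : StrictMono H)
    {χ : ℕ → List Bool} (hunc : ¬ (Yset H χ G).Countable) :
    ∃ Y : (ℕ → Bool) → ℕ → Bool, Function.Injective Y ∧ ∀ x, Y x ∈ Yset H χ G := by
  classical
  have hG := pt_continuous hL
  have hK : IsClosed (range G) := (isCompact_range hG).isClosed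
  obtain ⟨c, hc⟩ := exists_surjective_nat (List Bool)
  have hR := pt_isClosed (χ := χ) (G := G) hH c
  have hproj : Prod.snd '' ptR H χ G c = Yset H χ G := by
    ext y
    constructor
    · rintro ⟨p, hp, rfl⟩
      exact pt_sound hK (N := fun s => c (p.1 s)) (fun s i => (hp s).1 i) (fun s => (hp s).2.1)
        (fun s => (hp s).2.2)
    · rintro ⟨Z, hZ, hT⟩
      obtain ⟨N, h1, h2, h3⟩ := pt_complete hZ (image_subset_range _ _) hT
      choose u hu using fun s => hc (N s)
      refine ⟨(u, y), fun s => ⟨fun i => ?_, ?_, ?_⟩, rfl⟩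
      · show (i :: c (u s)) <:+ c (u (i :: s))
        rw [hu, hu]; exact h1 s i
      · show ∃ x, OnBr (c (u s)) (G x)
        rw [hu]; exact h2 s
      · show ∃ n, H n ≤ (c (u s)).length ∧ (c (u s)).length < H (n + 1) ∧ OnBr (χ n) y
        rw [hu]; exact h3 s
  have hne : (ptR H χ G c).Nonempty := by
    rw [nonempty_iff_ne_empty]
    intro he
    rw [he, image_empty] at hproj
    exact hunc (by rw [← hproj]; exact countable_empty)
  have : TopologicalSpace.IsCompletelyMetrizableSpace (ℕ → Bool) :=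
    TopologicalSpace.IsCompletelyMetrizableSpace.pi_countable
  have : PolishSpace (ptR H χ G c) := hR.polishSpace
  have : Nonempty (ptR H χ G c) := hne.to_subtype
  obtain ⟨g, hg, hgs⟩ := PolishSpace.exists_nat_nat_continuous_surjective (ptR H χ G c)
  have hrange : range (fun z => (g z).1.2) = Yset H χ G := by
    rw [← hproj]
    ext y
    constructor
    · rintro ⟨z, rfl⟩
      exact ⟨_, (g z).2, rfl⟩
    · rintro ⟨p, hp, rfl⟩
      obtain ⟨z, hz⟩ := hgs ⟨p, hp⟩
      exact ⟨z, by simp [hz]⟩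
  obtain ⟨Y, hY, hY2⟩ := exists_injective_of_uncountable_range
    (f := fun z => (g z).1.2)
    (continuous_snd.comp (continuous_subtype_val.comp hg)) (by rw [hrange]; exact hunc)
  exact ⟨Y, hY, fun x => by rw [← hrange]; exact hY2 x⟩

end Pool.Agent.Work.MP_9abc7c_lc
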