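import Pool.Agent.Work.MP_9abc7c_lc.Good

/-!
The thinning out of all finite-to-one functions.
-/

namespace Pool.Agent.Work.MP_9abc7c_lc

open Set Cardinal

/-- The limit sets are disjoint. -/
def Disj (F : ℕ → ℕ → Bool) (k k' : List Bool → ℕ) : Prop :=
  ∀ G G', Lim F k G → Lim F k' G' → ∀ x x', G x ≠ G' x'

lemma finite_of_cones {k : List Bool → ℕ} {A : Set ℕ} (n : ℕ)
    (h : ∀ s : List Bool, s.length = n → (range (fun t => k (t ++ s)) ∩ A).Finite) :
    (range k ∩ A).Finite := by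
  have h1 : (⋃ s ∈ {s : List Bool | s.length = n}, (range (fun t => k (t ++ s)) ∩ A)).Finite :=
    (List.finite_length_eq Bool n).biUnion fun s hs => h s hs
  refine (((List.finite_length_lt Bool n).image k).union h1).subset ?_
  rintro _ ⟨⟨t, rfl⟩, hA⟩
  by_cases hlt : t.length < n
  · exact Or.inl ⟨t, hlt, rfl⟩
  · right
    push Not at hlt
    refine Set.mem_biUnion (x := t.drop (t.length - n)) ?_ ⟨⟨t.take (t.length - n), ?_⟩, hA⟩
    · show (t.drop (t.length - n)).length = n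
      simp; omega
    · show k (t.take (t.length - n) ++ t.drop (t.length - n)) = k t
      rw [List.take_append_drop]

variable {Ω : Type} [LinearOrder Ω] (σ : Ω → Stage)

/-- The properties of the chosen functions. -/
def Pr (ι : Ω) (k : List Bool → ℕ) (y : ℕ → Bool) : Prop :=
  FTO k ∧ (∃ G, Lim (σ ι).F k G ∧ Function.Injective G ∧ Ty (σ ι).H (σ ι).χ y (range G)) ∧
    ∀ ι' < ι, GoodFrom (σ ι') k

lemma step (hc : ∀ ι : Ω, (Iio ι).Countable) {ι : Ω} {f : List Bool → ℕ} (hf : FTO f)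
    {h : List Bool → ℕ} {G : (ℕ → Bool) → ℕ → Bool} {Y : (ℕ → Bool) → ℕ → Bool}
    (hh : Le h f) (hG : Lim (σ ι).F h G) (hinj : Function.Injective G) (hY : Function.Injective Y)
    (hTy : ∀ x, ∃ φ, Emb φ ∧ Ty (σ ι).H (σ ι).χ (Y x) (range (G ∘ brm φ)))
    {J : Type} (hJ : #J < 𝔠) (ρ : J → Ω) (k' : J → List Bool → ℕ) (y' : J → ℕ → Bool)
    (hP : ∀ j, Pr σ (ρ j) (k' j) (y' j))
    (hQ : ∀ j j', j ≠ j' → ρ j = ρ j' → y' j ≠ y' j' ∧ Disj (σ (ρ j)).F (k' j) (k' j')) :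
    ∃ k y, Le k f ∧ Pr σ ι k y ∧ (∀ j, ρ j = ι → y' j ≠ y ∧ Disj (σ ι).F (k' j) k) ∧
      {j | ρ j < ι ∧ (range k ∩ range (k' j)).Infinite}.Countable ∧
      ∀ j, ι < ρ j → (range k ∩ range (k' j)).Finite := by
  classical
  choose hFTO hGx hGood using hP
  choose Gj hGj hGjinj hGjTy using hGx
  -- choice of the type
  let BY : J → Set (ℕ → Bool) := fun j => {y' j} ∪ ⋃ s : List Bool,
    {y | ∃ G', Lim (σ ι).F (fun t => k' j (t ++ s)) G' ∧
      (∃ y₀, ∀ y, y ≠ y₀ → ∀ Z, Ty (σ ι).H (σ ι).χ y (G' '' Z) → Z.Countable) ∧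
      ¬ ∀ Z, Ty (σ ι).H (σ ι).χ y (G' '' Z) → Z.Countable}
  have hBY : ∀ j, (BY j).Countable := by
    intro j
    refine (countable_singleton _).union (countable_iUnion fun s => Set.Subsingleton.countable ?_)
    rintro y₁ ⟨G₁, hG₁, ⟨y₀, hy₀⟩, hn₁⟩ y₂ ⟨G₂, hG₂, -, hn₂⟩
    have e := hG₁.unique hG₂
    subst e
    have e1 : y₁ = y₀ := by
      by_contra hne; exact hn₁ (hy₀ _ hne)
    have e2 : y₂ = y₀ := by
      by_contra hne; exact hn₂ (hy₀ _ hne)
    rw [e1, e2]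
  obtain ⟨x₀, hx₀⟩ := exists_not_mem (card_iUnion_lt hJ BY hBY) hY
  set y := Y x₀ with hy
  have hyj : ∀ j, y' j ≠ y := by
    intro j e
    exact hx₀ (mem_iUnion.mpr ⟨j, Or.inl e.symm⟩)
  obtain ⟨φ, hφ, hTy⟩ := hTy x₀
  rw [← hy] at hTy
  -- good cones
  have : Countable (Iio ι) := (hc ι).to_subtype
  obtain ⟨_, ⟨θ, hθ, rfl⟩, hgood⟩ := exists_goodFrom (fun i : Iio ι => σ i) (h ∘ φ)
  have hgood' : ∀ ι' < ι, GoodFrom (σ ι') ((h ∘ φ) ∘ θ) := fun ι' hι' => hgood ⟨ι', hι'⟩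
  set k₁ := (h ∘ φ) ∘ θ with hk₁
  set G₁ := (G ∘ brm φ) ∘ brm θ with hG₁
  have hLim₁ : Lim (σ ι).F k₁ G₁ := (hG.comp hφ).comp hθ
  have hinj₁ : Function.Injective G₁ :=
    (hinj.comp (brm_injective hφ)).comp (brm_injective hθ)
  have hTy₁ : Ty (σ ι).H (σ ι).χ y (range G₁) := hTy.mono (range_comp_subset_range _ _)
  have hle₁ : Le k₁ f := (Le.trans ⟨θ, hθ, rfl⟩ (Le.trans ⟨φ, hφ, rfl⟩ hh))
  -- levels for later stages
  have hnj : ∀ j, ∃ n, ι < ρ j → ∀ s : List Bool, s.length = n →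
      Good (σ ι) (fun t => k' j (t ++ s)) := by
    intro j
    by_cases hlt : ι < ρ j
    · obtain ⟨n, hn⟩ := hGood j ι hlt
      exact ⟨n, fun _ => hn⟩
    · exact ⟨0, fun h => absurd h hlt⟩
  choose nj hnj using hnj
  -- the bad branches
  let B1 : J → Set (ℕ → Bool) := fun j => {x | ρ j = ι ∧ G₁ x ∈ range (Gj j)}
  let B2 : J → Set (ℕ → Bool) := fun j => ⋃ s : List Bool, brm (fun t => t ++ s) ''
    {z | ∃ G', Lim (σ (ρ j)).F (fun t => k₁ (t ++ s)) G' ∧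
      (∀ Z, Ty (σ (ρ j)).H (σ (ρ j)).χ (y' j) (G' '' Z) → Z.Countable) ∧ G' z ∈ range (Gj j)}
  let B3 : J → Set (ℕ → Bool) := fun j => ⋃ s : List Bool,
    {x | ι < ρ j ∧ s.length = nj j ∧ ∃ G', Lim (σ ι).F (fun t => k' j (t ++ s)) G' ∧
      G₁ x ∈ range G'}
  have hB1 : ∀ j, (B1 j).Countable := by
    intro j
    by_cases hρ : ρ j = ι
    · have h1 : Ty (σ ι).H (σ ι).χ (y' j) (G₁ '' B1 j) := by
        have := hGjTy j
        rw [hρ] at this
        refine this.mono ?_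
        rintro _ ⟨x, hx, rfl⟩
        exact hx.2
      have h2 := h1.finite (σ ι).mono (σ ι).fin (hTy₁.mono (image_subset_range _ _)) (hyj j)
      exact (h2.of_finite_image hinj₁.injOn).countable
    · have : B1 j = ∅ := by
        ext x; simp [B1, hρ]
      rw [this]; exact countable_empty
  have hB2 : ∀ j, (B2 j).Countable := by
    intro j
    refine countable_iUnion fun s => Set.Countable.image ?_ _
    by_cases hne : ∃ G', Lim (σ (ρ j)).F (fun t => k₁ (t ++ s)) G' ∧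
      (∀ Z, Ty (σ (ρ j)).H (σ (ρ j)).χ (y' j) (G' '' Z) → Z.Countable)
    · obtain ⟨G', hG', hZ⟩ := hne
      refine hZ _ ((hGjTy j).mono ?_)
      rintro _ ⟨z, ⟨G'', hG'', -, hz⟩, rfl⟩
      rw [hG'.unique hG'']
      exact hz
    · have : {z | ∃ G', Lim (σ (ρ j)).F (fun t => k₁ (t ++ s)) G' ∧
        (∀ Z, Ty (σ (ρ j)).H (σ (ρ j)).χ (y' j) (G' '' Z) → Z.Countable) ∧
          G' z ∈ range (Gj j)} = ∅ := by
        ext z
        simp only [Set.mem_ofPred_eq, mem_empty_iff_false, iff_false]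
        rintro ⟨G', h1, h2, -⟩
        exact hne ⟨G', h1, h2⟩
      rw [this]; exact countable_empty
  have hB3 : ∀ j, (B3 j).Countable := by
    intro j
    refine countable_iUnion fun s => ?_
    by_cases hcond : ι < ρ j ∧ s.length = nj j
    · obtain ⟨G', hG', hor⟩ := hnj j hcond.1 s hcond.2
      have hsub : {x | ι < ρ j ∧ s.length = nj j ∧
          ∃ G', Lim (σ ι).F (fun t => k' j (t ++ s)) G' ∧ G₁ x ∈ range G'} ⊆
          {x | G₁ x ∈ range G'} := by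
        rintro x ⟨-, -, G'', hG'', hx⟩
        rw [← hG'.unique hG''] at hx
        exact hx
      refine Set.Countable.mono hsub ?_
      rcases hor with hconst | ⟨hinj', y₀, hy₀⟩
      · refine Set.Subsingleton.countable ?_
        rintro x ⟨z, hz⟩ x' ⟨z', hz'⟩
        apply hinj₁
        rw [← hz, ← hz', hconst z z']
      · have hyy : y ≠ y₀ ∨ ∀ Z, Ty (σ ι).H (σ ι).χ y (G' '' Z) → Z.Countable := by
          by_contra hcon
          push Not at hcon
          apply hx₀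
          refine mem_iUnion.mpr ⟨j, Or.inr (mem_iUnion.mpr ⟨s, G', hG', ⟨y₀, hy₀⟩, ?_⟩)⟩
          intro hall
          obtain ⟨-, Z, h1, h2⟩ := hcon
          exact h2 (hall Z h1)
        have hyZ : ∀ Z, Ty (σ ι).H (σ ι).χ y (G' '' Z) → Z.Countable := by
          rcases hyy with h1 | h1
          · exact hy₀ y h1
          · exact h1
        have hZc := hyZ {z | G' z ∈ range G₁} (hTy₁.mono (by rintro _ ⟨z, hz, rfl⟩; exact hz))
        refine Set.countable_of_injective_of_countable_image (f := G₁) hinj₁.injOn ?_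
        refine (hZc.image G').mono ?_
        rintro _ ⟨x, ⟨z, hz⟩, rfl⟩
        exact ⟨z, ⟨x, hz.symm⟩, hz⟩
    · have : {x | ι < ρ j ∧ s.length = nj j ∧
          ∃ G', Lim (σ ι).F (fun t => k' j (t ++ s)) G' ∧ G₁ x ∈ range G'} = ∅ := by
        ext z
        simp only [Set.mem_ofPred_eq, mem_empty_iff_false, iff_false]
        rintro ⟨h1, h2, -⟩
        exact hcond ⟨h1, h2⟩
      rw [this]; exact countable_empty
  obtain ⟨ψ, hψ, hav⟩ := exists_avoid (card_iUnion_lt hJ (fun j => B1 j ∪ B2 j ∪ B3 j)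
    (fun j => ((hB1 j).union (hB2 j)).union (hB3 j)))
  have hav1 : ∀ j x, brm ψ x ∉ B1 j := fun j x hx =>
    hav x (mem_iUnion.mpr ⟨j, Or.inl (Or.inl hx)⟩)
  have hav2 : ∀ j x, brm ψ x ∉ B2 j := fun j x hx =>
    hav x (mem_iUnion.mpr ⟨j, Or.inl (Or.inr hx)⟩)
  have hav3 : ∀ j x, brm ψ x ∉ B3 j := fun j x hx =>
    hav x (mem_iUnion.mpr ⟨j, Or.inr hx⟩)
  have hLimψ := hLim₁.comp hψ
  have hle : Le (k₁ ∘ ψ) f := Le.trans ⟨ψ, hψ, rfl⟩ hle₁
  refine ⟨k₁ ∘ ψ, y, hle, ⟨hf.le hle, ⟨_, hLimψ, hinj₁.comp (brm_injective hψ),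
    hTy₁.mono (range_comp_subset_range _ _)⟩, fun ι' hι' => (hgood' ι' hι').comp hψ⟩, ?_, ?_, ?_⟩
  · intro j hρ
    refine ⟨hyj j, ?_⟩
    intro G₂ G₃ hG₂ hG₃ x x' heq
    rw [hLimψ.unique hG₃ |>.symm] at heq
    have h1 := hGj j
    rw [hρ] at h1
    rw [← h1.unique hG₂] at heq
    exact hav1 j x' ⟨hρ, ⟨x, heq⟩⟩
  · have hn₁ : ∀ ι', ∃ n, ι' < ι → ∀ s : List Bool, s.length = n →
        Good (σ ι') (fun t => k₁ (t ++ s)) := by
      intro ι'
      by_cases hlt : ι' < ι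
      · obtain ⟨n, hn⟩ := hgood' ι' hlt
        exact ⟨n, fun _ => hn⟩
      · exact ⟨0, fun h => absurd h hlt⟩
    choose n₁ hn₁ using hn₁
    let W : Ω → List Bool → Set J := fun ι' s => {j | ρ j = ι' ∧ s.length = n₁ ι' ∧
      (range (fun t => (k₁ ∘ ψ) (t ++ s)) ∩ range (k' j)).Infinite}
    have hcov : {j | ρ j < ι ∧ (range (k₁ ∘ ψ) ∩ range (k' j)).Infinite} ⊆
        ⋃ ι' ∈ Iio ι, ⋃ s, W ι' s := by
      rintro j ⟨hj, hinf⟩
      refine Set.mem_biUnion (x := ρ j) hj ?_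
      by_contra hcon
      simp only [W, mem_iUnion, not_exists] at hcon
      apply hinf
      refine finite_of_cones (n₁ (ρ j)) fun s hs => ?_
      by_contra hfin
      exact hcon s ⟨rfl, hs, hfin⟩
    refine Set.Countable.mono hcov ((hc ι).biUnion fun ι' hι' => countable_iUnion fun s =>
      Set.Subsingleton.countable ?_)
    have hι'' : ι' < ι := hι'
    intro j₁ hj₁ j₂ hj₂
    by_contra hne
    obtain ⟨hy12, hdis⟩ := hQ j₁ j₂ hne (hj₁.1.trans hj₂.1.symm)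
    have hlen : n₁ ι' ≤ (ψ s).length := hj₁.2.1 ▸ hψ.len s
    obtain ⟨θ', hθ', hθ2⟩ := emb_quot hψ (List.drop_suffix ((ψ s).length - n₁ ι') (ψ s))
    set s' := (ψ s).drop ((ψ s).length - n₁ ι') with hs'
    have hs'len : s'.length = n₁ ι' := by rw [hs']; simp; omega
    obtain ⟨G', hG', hor⟩ := hn₁ ι' hι'' s' hs'len
    have heqf : (fun t => (k₁ ∘ ψ) (t ++ s)) = (fun t => k₁ (t ++ s')) ∘ θ' := by
      funext t
      simp only [Function.comp, hθ2]
    have hLim' := hG'.comp hθ'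
    have key : ∀ j, j ∈ W ι' s → ∃ x z, G' x = Gj j z ∧
        ¬ ∀ Z, Ty (σ (ρ j)).H (σ (ρ j)).χ (y' j) (G' '' Z) → Z.Countable := by
      rintro j ⟨h1, h2, h3⟩
      rw [heqf] at h3
      have hGj' := hGj j
      rw [h1] at hGj'
      have h4 : ∃ x z, (G' ∘ brm θ') x = Gj j z := by
        by_contra hcon
        push Not at hcon
        exact h3 (finite_inter_of_disjoint hLim' hGj' hcon)
      obtain ⟨x, z, hxz⟩ := h4
      refine ⟨_, z, hxz, fun hthin => ?_⟩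
      apply hav2 j (brm (fun t => t ++ s) x)
      refine mem_iUnion.mpr ⟨s', brm θ' x, ⟨G', by rw [h1]; exact hG', hthin, ⟨z, hxz.symm⟩⟩, ?_⟩
      rw [← brm_comp (Emb.cone s') hθ', ← brm_comp hψ (Emb.cone s)]
      congr 1
      funext t
      simp only [Function.comp, hθ2]
    obtain ⟨x₁, z₁, e₁, t₁⟩ := key j₁ hj₁
    obtain ⟨x₂, z₂, e₂, t₂⟩ := key j₂ hj₂
    rcases hor with hconst | ⟨-, y₀, hy₀⟩
    · refine hdis (Gj j₁) (Gj j₂) (hGj j₁) ?_ z₁ z₂ ?_
      · have := hGj j₂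
        rw [hj₂.1] at this
        rw [hj₁.1]
        exact this
      · rw [← e₁, ← e₂, hconst x₁ x₂]
    · rw [hj₁.1] at t₁
      rw [hj₂.1] at t₂
      have e1 : y' j₁ = y₀ := by
        by_contra hne'
        exact t₁ (hy₀ _ hne')
      have e2 : y' j₂ = y₀ := by
        by_contra hne'
        exact t₂ (hy₀ _ hne')
      exact hy12 (e1.trans e2.symm)
  · intro j hj
    rw [inter_comm]
    refine finite_of_cones (nj j) fun s hs => ?_
    obtain ⟨G', hG', -⟩ := hnj j hj s hs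
    rw [inter_comm]
    refine finite_inter_of_disjoint hLimψ hG' fun x x' heq => ?_
    exact hav3 j x (mem_iUnion.mpr ⟨s, hj, hs, G', hG', ⟨x', heq.symm⟩⟩)

/-- The thinning out. -/
lemma phase1 (hc : ∀ ι : Ω, (Iio ι).Countable)
    (hT : ∀ f : List Bool → ℕ, FTO f → ∃ ι h, Le h f ∧ ∃ G, Lim (σ ι).F h G ∧
      Function.Injective G ∧ ∃ Y : (ℕ → Bool) → ℕ → Bool, Function.Injective Y ∧
      ∀ x, ∃ φ, Emb φ ∧ Ty (σ ι).H (σ ι).χ (Y x) (range (G ∘ brm φ))) :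
    ∃ (ρ : {f : List Bool → ℕ // FTO f} → Ω) (k : {f : List Bool → ℕ // FTO f} → List Bool → ℕ),
      (∀ f, Le (k f) f) ∧
      (∀ f f', f ≠ f' → ρ f = ρ f' → (range (k f) ∩ range (k f')).Finite) ∧
      ∀ f, {f' | ρ f' < ρ f ∧ (range (k f) ∩ range (k f')).Infinite}.Countable := by
  classical
  choose ρ h hh G hG hinj Y hY hTy using fun f : {f : List Bool → ℕ // FTO f} => hT f.1 f.2
  obtain ⟨r, hwo, hr⟩ := Cardinal.exists_ord_eq {f : List Bool → ℕ // FTO f}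
  have hwf : WellFounded r := hwo.wf
  have hcard : ∀ f, #{f' // r f' f} < 𝔠 := by
    intro f
    have h1 := Cardinal.card_typein_lt f hr
    rw [Ordinal.card_typein] at h1
    refine lt_of_lt_of_le h1 ?_
    refine (Cardinal.mk_subtype_le _).trans ?_
    simp
  let C : (f : {f : List Bool → ℕ // FTO f}) →
      ({f' // r f' f} → (List Bool → ℕ) × (ℕ → Bool)) → (List Bool → ℕ) × (ℕ → Bool) → Prop :=
    fun f g x => Le x.1 f ∧ Pr σ (ρ f) x.1 x.2 ∧
      (∀ j, ρ j.1 = ρ f → (g j).2 ≠ x.2 ∧ Disj (σ (ρ f)).F (g j).1 x.1) ∧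
      {j | ρ j.1 < ρ f ∧ (range x.1 ∩ range (g j).1).Infinite}.Countable ∧
      ∀ j, ρ f < ρ j.1 → (range x.1 ∩ range (g j).1).Finite
  obtain ⟨g, hg⟩ := exists_rec hwf C (by
    intro g f ih
    obtain ⟨k, y, h1, h2, h3, h4, h5⟩ := step σ hc f.2 (hh f) (hG f) (hinj f) (hY f) (hTy f)
      (hcard f) (fun j => ρ j.1) (fun j => (g j.1).1) (fun j => (g j.1).2)
      (fun j => (ih j.1 j.2).2.1)
      (by
        intro j j' hne hρ
        have hne' : j.1 ≠ j'.1 := fun e => hne (Subtype.ext e)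
        rcases trichotomous_of r j.1 j'.1 with h1 | h1 | h1
        · obtain ⟨a, b⟩ := (ih j'.1 j'.2).2.2.1 ⟨j.1, h1⟩ hρ
          refine ⟨a, ?_⟩
          rw [hρ]
          exact b
        · exact absurd h1 hne'
        · obtain ⟨a, b⟩ := (ih j.1 j.2).2.2.1 ⟨j'.1, h1⟩ hρ.symm
          refine ⟨fun e => a e.symm, ?_⟩
          intro G G' hG hG' x x' e
          exact b G' G hG' hG x' x e.symm)
    exact ⟨(k, y), h1, h2, h3, h4, h5⟩)
  refine ⟨ρ, fun f => (g f).1, fun f => (hg f).1, ?_, ?_⟩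
  · have key : ∀ f f', r f' f → ρ f = ρ f' → (range (g f).1 ∩ range (g f').1).Finite := by
      intro f f' hlt hρ
      obtain ⟨-, b⟩ := (hg f).2.2.1 ⟨f', hlt⟩ hρ.symm
      obtain ⟨G₁, hG₁, -⟩ := (hg f).2.1.2.1
      obtain ⟨G₂, hG₂, -⟩ := (hg f').2.1.2.1
      rw [← hρ] at hG₂
      exact finite_inter_of_disjoint hG₁ hG₂ fun x x' e => b G₂ G₁ hG₂ hG₁ x' x e.symm
    intro f f' hne hρ
    rcases trichotomous_of r f f' with h1 | h1 | h1
    · have := key f' f h1 hρ.symm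
      rwa [inter_comm] at this
    · exact absurd h1 hne
    · exact key f f' h1 hρ
  · intro f
    refine Set.Countable.mono ?_ ((hg f).2.2.2.1.image Subtype.val)
    rintro f' ⟨h1, h2⟩
    rcases trichotomous_of r f f' with h3 | h3 | h3
    · exfalso
      have := (hg f').2.2.2.2 ⟨f, h3⟩ h1
      rw [inter_comm] at this
      exact h2 this
    · subst h3; exact absurd h1 (lt_irrefl _)
    · exact ⟨⟨f', h3⟩, ⟨h1, h2⟩, rfl⟩

end Pool.Agent.Work.MP_9abc7c_lc
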