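import Pool.Agent.Work.MP_9abc7c_lc.Comp
import Pool.Agent.Work.MP_9abc7c_lc.GTree
import Pool.Agent.Work.MP_9abc7c_lc.PerfectTypes
import Pool.Agent.Work.MP_9abc7c_lc.EmbTypes
import Pool.Agent.Work.MP_9abc7c_lc.Close
import Pool.Agent.Work.MP_9abc7c_lc.BrFar
import Pool.Agent.Work.MP_9abc7c_lc.OffFar
import Pool.Agent.Work.MP_9abc7c_lc.Good

/-!
The recursion step: a new piece in relation to fewer than continuum many earlier ones.
-/

namespace Pool.Agent.Work.MP_9abc7c_lc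

open Set Cardinal

variable {Ω : Type} [LinearOrder Ω] {C : Ctx Ω}

/-- The branches of `p` whose limit agrees below `μ` with a limit of `p'`. -/
def Agr (μ : Ω) (p' p : Piece C) : Set (ℕ → Bool) := {x | ∃ x', ∀ a < μ, p'.G x' a = p.G x a}

lemma gg_eq_of_agree {γ σ : Ω} (hγ : ∃ a, a < γ) {G G' : (ℕ → Bool) → Ω → Bool}
    {x x' : ℕ → Bool} (h : ∀ a < γ, G' x' a = G x a) :
    C.GG γ σ G' x' = C.GG γ σ G x := by
  funext m
  exact h _ (C.Z_lt _ _ (C.dec_mem _ hγ σ) m)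

lemma Piece.exists_lt (p : Piece C) : ∃ a, a < p.γ := by
  obtain ⟨a, ha, -⟩ := p.gt.sep []
  exact ⟨a, ha⟩

/-- same stage -/
lemma agr_same {p' p : Piece C} (hγ : p'.γ = p.γ) (hσ : p'.σ = p.σ) (hy : p'.y ≠ p.y) :
    (Agr p.γ p' p).Countable := by
  have h1 : Ty (C.HH p.γ p.σ) (C.XX p.γ p.σ) p'.y (C.GG p.γ p.σ p.G '' Agr p.γ p' p) := by
    have h2 := p'.ty
    rw [hγ, hσ] at h2
    refine h2.mono ?_
    rintro _ ⟨x, ⟨x', hx'⟩, rfl⟩
    exact ⟨x', gg_eq_of_agree p.exists_lt hx'⟩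
  have h3 := h1.finite (C.mono _) (chi_finite _ (C.mono _)) (p.ty.mono (image_subset_range _ _)) hy
  exact (h3.of_finite_image p.inj.injOn).countable

/-- the earlier piece has a later stage -/
lemma agr_later {p' p : Piece C} (hγ : p'.γ = p.γ) (hσ : p.σ < p'.σ) (hy : p.y ∉ p'.YY p.σ) :
    (Agr p.γ p' p).Countable := by
  by_contra hunc
  apply hy
  apply p'.sub _ hσ
  have h1 : ∀ x ∈ Agr p.γ p' p, ∃ x', ∀ a < p.γ, p'.G x' a = p.G x a := fun x hx => hx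
  refine ⟨{x' | ∃ x, ∀ a < p.γ, p'.G x' a = p.G x a}, ?_, ?_⟩
  · have h2 : C.GG p.γ p.σ p.G '' Agr p.γ p' p ⊆
        C.GG p'.γ p.σ p'.G '' {x' | ∃ x, ∀ a < p.γ, p'.G x' a = p.G x a} := by
      rintro _ ⟨x, ⟨x', hx'⟩, rfl⟩
      refine ⟨x', ⟨x, hx'⟩, ?_⟩
      rw [hγ]
      exact gg_eq_of_agree p.exists_lt hx'
    intro hc
    exact hunc (Set.countable_of_injective_of_countable_image p.inj.injOn (hc.mono h2))
  · rw [hγ]
    refine p.ty.mono ?_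
    rintro _ ⟨x', ⟨x, hx⟩, rfl⟩
    exact ⟨x, (gg_eq_of_agree p.exists_lt hx).symm⟩

/-- the earlier piece has an earlier stage -/
lemma agr_earlier {p' p : Piece C} (hγ : p'.γ = p.γ) (hy : p'.y ∉ C.YS p.γ p'.σ p.G) :
    (Agr p.γ p' p).Countable := by
  by_contra hunc
  apply hy
  refine ⟨Agr p.γ p' p, ?_, ?_⟩
  · intro hc
    refine hunc (Set.countable_of_injective_of_countable_image ?_ hc)
    rintro x₁ ⟨x₁', h₁⟩ x₂ ⟨x₂', h₂⟩ he
    have e1 := gg_eq_of_agree (C := C) (σ := p'.σ) p.exists_lt h₁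
    have e2 := gg_eq_of_agree (C := C) (σ := p'.σ) p.exists_lt h₂
    have e3 : C.GG p'.γ p'.σ p'.G x₁' = C.GG p'.γ p'.σ p'.G x₂' := by
      rw [hγ, e1, e2, he]
    have e4 := p'.inj e3
    subst e4
    exact p.ext_of_agree fun a ha => (h₁ a ha).symm.trans (h₂ a ha)
  · have h2 := p'.ty
    rw [hγ] at h2
    refine h2.mono ?_
    rintro _ ⟨x, ⟨x', hx'⟩, rfl⟩
    exact ⟨x', gg_eq_of_agree p.exists_lt hx'⟩

/-- the earlier piece has larger height -/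
lemma agr_higher {p' p : Piece C} (hγ : p.γ < p'.γ) : (Agr p.γ p' p).Countable := by
  obtain ⟨n, hn⟩ := p'.gt.uc _ hγ
  choose! c hc using fun x (hx : x ∈ Agr p.γ p' p) => hx
  have hinj : InjOn (fun x => br (c x) n) (Agr p.γ p' p) := by
    intro x hx y hy he
    refine p.ext_of_agree fun a ha => ?_
    rw [← hc x hx a ha, ← hc y hy a ha]
    exact hn _ _ he a ha
  exact Set.countable_of_injective_of_countable_image hinj (Set.to_countable _)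

/-- The branches of `p` whose limit extends a branch limit of `p'`. -/
def Agr2 (p' p : Piece C) : Set (ℕ → Bool) :=
  {x | ∃ x', (∀ a < p'.γ, p'.G x' a = p.G x a) ∧ ∀ a < p.γ, p'.η x' a = p.G x a}

lemma agr2_lower {p' p : Piece C} (hγ : p'.γ < p.γ) : (Agr2 p' p).Countable := by
  obtain ⟨n, hn⟩ := p.gt.uc _ hγ
  choose! c hc using fun x (hx : x ∈ Agr2 p' p) => hx
  have hinj : InjOn (fun x => br x n) (Agr2 p' p) := by
    intro x hx y hy he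
    have h1 : c x = c y := by
      refine p'.ext_of_agree fun a ha => ?_
      rw [(hc x hx).1 a ha, (hc y hy).1 a ha]
      exact hn _ _ he a ha
    refine p.ext_of_agree fun a ha => ?_
    rw [← (hc x hx).2 a ha, ← (hc y hy).2 a ha, h1]
  exact Set.countable_of_injective_of_countable_image hinj (Set.to_countable _)

theorem exists_piece [WellFoundedLT Ω] {f : List Bool → ℕ} (hf : FTO f) {J : Type} (hJ : #J < 𝔠)
    (P : J → Piece C) : ∃ p : Piece C, Le p.k f ∧ ∀ j, Rel (P j) p := by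
  classical
  obtain ⟨γ, g, G, hg, hG⟩ := exists_gtree C hf
  have hgf : FTO g := hf.le hg
  -- the stage
  obtain ⟨σ₀, hσ₀⟩ := C.exists_stage hG
  have hne : {σ | ¬ (C.YS γ σ G).Countable}.Nonempty := ⟨σ₀, hσ₀⟩
  let σ := (wellFounded_lt (α := Ω)).min _ hne
  have hσ : ¬ (C.YS γ σ G).Countable := (wellFounded_lt (α := Ω)).min_mem _ hne
  have hσmin : ∀ σ' < σ, (C.YS γ σ' G).Countable := by
    intro σ' h
    by_contra hcon
    exact (wellFounded_lt (α := Ω)).not_lt_min {σ | ¬ (C.YS γ σ G).Countable} hcon h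
  -- the type
  have hL := hG.lim_code σ
  obtain ⟨Y, hY, hYm⟩ := exists_perfect_types hL (C.mono _) hσ
  let BY : J → Set (ℕ → Bool) := fun j => {(P j).y} ∪
    (if σ < (P j).σ then (P j).YY σ else ∅)
  have hBY : ∀ j, (BY j).Countable := by
    intro j
    refine (countable_singleton _).union ?_
    split_ifs with h
    · exact (P j).cnt _ h
    · exact countable_empty
  obtain ⟨x₀, hx₀⟩ := exists_not_mem (card_iUnion_lt hJ BY hBY) hY
  set y := Y x₀ with hy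
  have hy1 : ∀ j, (P j).y ≠ y := by
    intro j e
    exact hx₀ (mem_iUnion.mpr ⟨j, Or.inl e.symm⟩)
  have hy2 : ∀ j, σ < (P j).σ → y ∉ (P j).YY σ := by
    intro j hj e
    refine hx₀ (mem_iUnion.mpr ⟨j, Or.inr ?_⟩)
    rw [if_pos hj]
    exact e
  obtain ⟨φ₁, hφ₁, hinj₁, hTy₁⟩ := exists_emb_of_mem_Yset hL (hYm x₀)
  rw [← hy] at hTy₁
  have hf₁ : FTO (g ∘ φ₁) := hgf.le ⟨φ₁, hφ₁, rfl⟩
  have hG₁ := hG.comp hφ₁
  obtain ⟨φ₂, j₂, hφ₂, hclose⟩ := C.exists_close hf₁ hG₁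
  have hf₂ : FTO ((g ∘ φ₁) ∘ φ₂) := hf₁.le ⟨φ₂, hφ₂, rfl⟩
  have hG₂ := hG₁.comp hφ₂
  obtain ⟨φ₃, γ₂, z₂, η, hφ₃, hbr⟩ := C.exists_brfar hf₂ σ
  have hf₃ : FTO (((g ∘ φ₁) ∘ φ₂) ∘ φ₃) := hf₂.le ⟨φ₃, hφ₃, rfl⟩
  have hG₃ := hG₂.comp hφ₃
  obtain ⟨φ₄, z₁, hφ₄, hoff⟩ := C.exists_offfar hf₃ hG₃ σ
  have hf₄ : FTO ((((g ∘ φ₁) ∘ φ₂) ∘ φ₃) ∘ φ₄) := hf₃.le ⟨φ₄, hφ₄, rfl⟩
  let p₀ : Piece C :=
    { k := (((g ∘ φ₁) ∘ φ₂) ∘ φ₃) ∘ φ₄
      γ := γ
      σ := σ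
      j := j₂
      γ₂ := γ₂
      y := y
      G := (((G ∘ brm φ₁) ∘ brm φ₂) ∘ brm φ₃) ∘ brm φ₄
      η := η ∘ brm φ₄
      z₁ := z₁
      z₂ := z₂
      YY := fun σ' => C.YS γ σ' G
      fto := hf₄
      gt := hG₃.comp hφ₄
      inj := ((hinj₁.comp (brm_injective hφ₂)).comp (brm_injective hφ₃)).comp (brm_injective hφ₄)
      ty := hTy₁.mono (by
        rintro _ ⟨x, rfl⟩
        exact ⟨brm φ₂ (brm φ₃ (brm φ₄ x)), rfl⟩)
      cnt := hσmin
      sub := fun σ' _ => by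
        show Yset _ _ ((((C.GG γ σ' G ∘ brm φ₁) ∘ brm φ₂) ∘ brm φ₃) ∘ brm φ₄) ⊆
          Yset _ _ (C.GG γ σ' G)
        exact (Yset_comp_subset (brm φ₄)).trans ((Yset_comp_subset (brm φ₃)).trans
          ((Yset_comp_subset (brm φ₂)).trans (Yset_comp_subset (brm φ₁))))
      close := (hclose.comp hφ₃).comp hφ₄
      brfar := hbr.comp hφ₄
      offfar := hoff }
  have hle₀ : Le p₀.k f :=
    Le.trans ⟨φ₄, hφ₄, rfl⟩ (Le.trans ⟨φ₃, hφ₃, rfl⟩ (Le.trans ⟨φ₂, hφ₂, rfl⟩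
      (Le.trans ⟨φ₁, hφ₁, rfl⟩ hg)))
  -- the bad branches
  let B : J → Set (ℕ → Bool) := fun j =>
    (if (Agr γ (P j) p₀).Countable then Agr γ (P j) p₀ else ∅) ∪
    (if (P j).γ < γ then Agr2 (P j) p₀ else ∅)
  have hB : ∀ j, (B j).Countable := by
    intro j
    refine Set.Countable.union ?_ ?_
    · split_ifs with h
      · exact h
      · exact countable_empty
    · split_ifs with h
      · exact agr2_lower (p' := P j) (p := p₀) h
      · exact countable_empty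
  obtain ⟨ψ, hψ, hav⟩ := exists_avoid (card_iUnion_lt hJ B hB)
  refine ⟨p₀.comp hψ, Le.trans ⟨ψ, hψ, rfl⟩ hle₀, fun j => ?_⟩
  have hDis : (Agr γ (P j) p₀).Countable → Dis γ (P j) (p₀.comp hψ) := by
    intro hc x' x hcon
    apply hav x
    refine mem_iUnion.mpr ⟨j, Or.inl ?_⟩
    rw [if_pos hc]
    exact ⟨x', hcon⟩
  refine ⟨fun h1 h2 => ⟨hy1 j, hDis (agr_same (p := p₀) h1 h2 (hy1 j))⟩, fun h1 h2 => ?_, fun h1 h2 => ?_,
    fun h1 => hDis (agr_higher (p := p₀) h1), fun h1 h2 x' x h3 h4 => ?_⟩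
  · by_cases h3 : (P j).y ∈ C.YS γ (P j).σ G
    · exact Or.inl h3
    · refine Or.inr (hDis (agr_earlier (p := p₀) h1 fun h4 => h3 (p₀.sub _ h2 h4)))
  · exact hDis (agr_later (p := p₀) h1 h2 (hy2 j h2))
  · apply hav x
    refine mem_iUnion.mpr ⟨j, Or.inr ?_⟩
    rw [if_pos (show (P j).γ < γ from h1)]
    exact ⟨x', h3, h4⟩

end Pool.Agent.Work.MP_9abc7c_lc
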