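import Pool.Agent.Work.MP_9abc7c_lc.Lim

/-!
Types of sets of branches.
-/

namespace Pool.Agent.Work.MP_9abc7c_lc

open Set Cardinal

/-- The branches `x` and `y` split at level `d`. -/
def Dl (x y : ℕ → Bool) (d : ℕ) : Prop := (∀ k < d, x k = y k) ∧ x d ≠ y d

lemma Dl.symm {x y : ℕ → Bool} {d : ℕ} (h : Dl x y d) : Dl y x d :=
  ⟨fun k hk => (h.1 k hk).symm, h.2.symm⟩

lemma Dl.unique {x y : ℕ → Bool} {d d' : ℕ} (h : Dl x y d) (h' : Dl x y d') : d = d' := by
  rcases lt_trichotomy d d' with h1 | h1 | h1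
  · exact absurd (h'.1 d h1) h.2
  · exact h1
  · exact absurd (h.1 d' h1) h'.2

lemma Dl.ne {x y : ℕ → Bool} {d : ℕ} (h : Dl x y d) : x ≠ y := fun e => h.2 (by rw [e])

lemma exists_Dl {x y : ℕ → Bool} (h : x ≠ y) : ∃ d, Dl x y d := by
  obtain ⟨n, h1, h2⟩ := branch_split h
  exact ⟨n, br_eq_iff.mp h1, h2⟩

/-- `K` has type `y`: splittings of elements of `K` occur only in intervals `[H n, H (n+1))`
with `χ n` on `y`. -/
def Ty (H : ℕ → ℕ) (χ : ℕ → List Bool) (y : ℕ → Bool) (K : Set (ℕ → Bool)) : Prop :=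
  ∀ x ∈ K, ∀ x' ∈ K, ∀ d, Dl x x' d → ∃ n, H n ≤ d ∧ d < H (n + 1) ∧ OnBr (χ n) y

lemma Ty.mono {H : ℕ → ℕ} {χ : ℕ → List Bool} {y : ℕ → Bool} {K K' : Set (ℕ → Bool)}
    (h : Ty H χ y K') (hK : K ⊆ K') : Ty H χ y K :=
  fun x hx x' hx' d hd => h x (hK hx) x' (hK hx') d hd

/-- Two different types: finite. -/
lemma Ty.finite {H : ℕ → ℕ} {χ : ℕ → List Bool} {y y' : ℕ → Bool} {K : Set (ℕ → Bool)}
    (hH : StrictMono H) (hχ : ∀ N, {n | (χ n).length ≤ N}.Finite)
    (h : Ty H χ y K) (h' : Ty H χ y' K) (hne : y ≠ y') : K.Finite := by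
  obtain ⟨L, hL⟩ := exists_Dl hne
  obtain ⟨B, hB⟩ := (hχ L).bddAbove
  have key : ∀ x ∈ K, ∀ x' ∈ K, ∀ d, Dl x x' d → d < H (B + 1) := by
    intro x hx x' hx' d hd
    obtain ⟨n, h1, h2, h3⟩ := h x hx x' hx' d hd
    obtain ⟨n', h1', h2', h3'⟩ := h' x hx x' hx' d hd
    have e : n = n' := by
      have a1 : n < n' + 1 := hH.lt_iff_lt.mp (lt_of_le_of_lt h1 h2')
      have a2 : n' < n + 1 := hH.lt_iff_lt.mp (lt_of_le_of_lt h1' h2)
      omega
    subst e
    have hlen : (χ n).length ≤ L := by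
      by_contra hlt
      push Not at hlt
      have e1 : br y (χ n).length = br y' (χ n).length := by
        rw [show br y (χ n).length = χ n from h3, show br y' (χ n).length = χ n from h3']
      exact hL.2 (br_eq_iff.mp e1 L hlt)
    have : n ≤ B := hB hlen
    exact lt_of_lt_of_le h2 (hH.monotone (by omega))
  have himg : ((fun x => br x (H (B + 1))) '' K).Finite := by
    refine (List.finite_length_eq Bool (H (B + 1))).subset ?_
    rintro _ ⟨x, _, rfl⟩
    simp
  refine Set.Finite.of_finite_image himg ?_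
  intro x hx x' hx' e
  by_contra hne'
  obtain ⟨d, hd⟩ := exists_Dl hne'
  exact hd.2 (br_eq_iff.mp e d (key x hx x' hx' d hd))

variable {F : ℕ → ℕ → Bool} {h : List Bool → ℕ} {G : (ℕ → Bool) → ℕ → Bool}

lemma br_eq_of_onBr {x x' : ℕ → Bool} {t : List Bool} (h : OnBr t x) (h' : OnBr t x') {n : ℕ}
    (hn : n ≤ t.length) : br x n = br x' n :=
  eq_of_suffix_eq (h.br_suffix hn) (h'.br_suffix hn) (by simp)

/-- An uncountable set of branches with image of type `y` gives an embedding of type `y`. -/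
lemma exists_emb_of_type {H : ℕ → ℕ} {χ : ℕ → List Bool} {y : ℕ → Bool}
    (hL : Lim F h G) {Z : Set (ℕ → Bool)} (hZ : ¬ Z.Countable) (hT : Ty H χ y (G '' Z)) :
    ∃ φ, Emb φ ∧ Ty H χ y (range (G ∘ brm φ)) := by
  set S : Set (List Bool) := {t | ¬ (Z ∩ {x | OnBr t x}).Countable} with hS
  have hunc : ¬ {x : ℕ → Bool | ∀ n, ∃ k ≥ n, br x k ∈ S}.Countable := by
    intro hc
    apply hZ
    have h2 : (⋃ t ∈ Sᶜ, (Z ∩ {x | OnBr t x})).Countable := by
      refine (Set.to_countable Sᶜ).biUnion ?_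
      intro t ht
      exact not_not.mp ht
    refine (hc.union h2).mono ?_
    intro x hx
    by_cases hx2 : ∀ n, ∃ k ≥ n, br x k ∈ S
    · exact Or.inl hx2
    · right
      push Not at hx2
      obtain ⟨n, hn⟩ := hx2
      exact Set.mem_biUnion (x := br x n) (hn n le_rfl) ⟨hx, onBr_br x n⟩
  obtain ⟨φ, hφ, hP⟩ := emb_of_uncountable hunc
  refine ⟨φ, hφ, ?_⟩
  rintro _ ⟨x, rfl⟩ _ ⟨x', rfl⟩ d hd
  obtain ⟨n, -, hn⟩ := hL.unif' (d + 1)
  have hzz : ∀ x : ℕ → Bool, ∃ z ∈ Z, ∀ m < d + 1, G z m = G (brm φ x) m := by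
    intro x
    have hne : (Z ∩ {z | OnBr (φ (br x n)) z}).Nonempty := by
      rw [nonempty_iff_ne_empty]
      intro he
      exact hP (br x n) (by rw [he]; exact countable_empty)
    obtain ⟨z, hz, hz2⟩ := hne
    refine ⟨z, hz, fun m hm => hn m hm _ _ ?_⟩
    exact br_eq_of_onBr hz2 (brm_spec hφ x n) (by have := hφ.len (br x n); simpa using this)
  obtain ⟨z, hz, e⟩ := hzz x
  obtain ⟨z', hz', e'⟩ := hzz x'
  refine hT _ ⟨z, hz, rfl⟩ _ ⟨z', hz', rfl⟩ d ⟨fun k hk => ?_, ?_⟩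
  · rw [e k (by omega), e' k (by omega)]; exact hd.1 k hk
  · rw [e d (by omega), e' d (by omega)]; exact hd.2

/-- The least `M` with `k < H M`. -/
noncomputable def lev (H : ℕ → ℕ) (k : ℕ) : ℕ := sInf {M | k < H M}

lemma lev_le_iff {H : ℕ → ℕ} (hH : StrictMono H) {k M : ℕ} : lev H k ≤ M ↔ k < H M := by
  have hne : {M | k < H M}.Nonempty := ⟨k + 1, lt_of_lt_of_le (Nat.lt_succ_self k) (hH.id_le _)⟩
  constructor
  · intro h
    have h1 : k < H (lev H k) := Nat.sInf_mem hne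
    exact lt_of_lt_of_le h1 (hH.monotone h)
  · intro h
    exact Nat.sInf_le h

/-- The node attached to a number. -/
noncomputable def chi (F : ℕ → ℕ → Bool) (H : ℕ → ℕ) (k : ℕ) : List Bool := br (F k) (lev H k)

lemma chi_finite (F : ℕ → ℕ → Bool) {H : ℕ → ℕ} (hH : StrictMono H) (N : ℕ) :
    {n | (chi F H n).length ≤ N}.Finite := by
  refine (Set.finite_lt_nat (H N)).subset ?_
  intro n hn
  have h1 : (chi F H n).length ≤ N := hn
  rw [chi, br_length, lev_le_iff hH] at h1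
  exact h1

lemma onBr_chi {H : ℕ → ℕ} {k : ℕ} {y : ℕ → Bool} (h : ∀ m < lev H k, F k m = y m) :
    OnBr (chi F H k) y := by
  unfold OnBr chi
  rw [br_length]
  exact br_eq_iff.mpr fun m hm => (h m hm).symm

/-- The iterate trick. -/
lemma iterate_trick {Ω : Type} {hh : Ω → ℕ → ℕ}
    (hub : ∀ r : ℕ → ℕ, ∃ j, ∀ N, ∃ n ≥ N, r n < hh j n) (D : ℕ → ℕ) :
    ∃ j, {n | D (hh j n) ≤ hh j (n + 1)}.Infinite := by
  let D' : ℕ → ℕ := fun n => n + ∑ i ∈ Finset.range (n + 1), D i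
  have hmono : Monotone D' := by
    intro a b hab
    have : ∑ i ∈ Finset.range (a + 1), D i ≤ ∑ i ∈ Finset.range (b + 1), D i :=
      Finset.sum_le_sum_of_subset (Finset.range_mono (by omega))
    simp only [D']; omega
  have hid : ∀ n, n ≤ D' n := fun n => Nat.le_add_right _ _
  have hD : ∀ n, D n ≤ D' n := by
    intro n
    have : D n ≤ ∑ i ∈ Finset.range (n + 1), D i :=
      Finset.single_le_sum (f := D) (fun _ _ => Nat.zero_le _)
        (Finset.mem_range.mpr (Nat.lt_succ_self n))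
    simp only [D']; omega
  obtain ⟨j, hj⟩ := hub (fun n => D'^[n] n)
  refine ⟨j, ?_⟩
  intro hfin
  obtain ⟨B, hB⟩ := hfin.bddAbove
  have hlt : ∀ n, B < n → hh j (n + 1) < D' (hh j n) := by
    intro n hn
    by_contra hcon
    push Not at hcon
    have : n ≤ B := hB ((hD _).trans hcon)
    omega
  have hit : ∀ k, hh j (B + 1 + k) ≤ D'^[k] (hh j (B + 1)) := by
    intro k
    induction k with
    | zero => exact le_rfl
    | succ k ih =>
      rw [Function.iterate_succ_apply']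
      have h1 := hlt (B + 1 + k) (by omega)
      exact (h1.le).trans (hmono ih)
  have hid' : ∀ k n, n ≤ D'^[k] n := by
    intro k
    induction k with
    | zero => intro n; exact le_rfl
    | succ k ih =>
      intro n
      rw [Function.iterate_succ_apply']
      exact (ih n).trans (hid _)
  obtain ⟨n, hn, hn2⟩ := hj (hh j (B + 1) + B + 1)
  have h1 := hit (n - (B + 1))
  rw [Nat.add_sub_cancel' (by omega)] at h1
  have h2 : D'^[n - (B + 1)] (hh j (B + 1)) ≤ D'^[n] n := by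
    have e : D'^[n] n = D'^[n - (B + 1)] (D'^[B + 1] n) := by
      rw [← Function.iterate_add_apply]
      congr 1
      omega
    rw [e]
    exact (hmono.iterate _) ((show hh j (B + 1) ≤ n by omega).trans (hid' _ _))
  omega

section main

variable {Ω : Type} (hΩ : #Ω < 𝔠) (ζ : Ω → ℕ → Ω)
    (hbd : ∀ S : List Bool → Ω, ∃ i, ∀ s, ∃ m, ζ i m = S s) (e : Ω → Set ℕ)
    (he : ∀ X : Set ℕ, X.Infinite → ∃ α, (X ∩ e α).Infinite ∧ (X \ e α).Infinite)
    {hh : Ω → ℕ → ℕ} (hmono : ∀ j, StrictMono (hh j))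
    (hub : ∀ r : ℕ → ℕ, ∃ j, ∀ N, ∃ n ≥ N, r n < hh j n)

include hΩ hbd he hmono hub

lemma many_branches {b : Set ℕ} (hb : b.Infinite) :
    ∃ i' j', ∃ Y : (ℕ → Bool) → ℕ → Bool, Function.Injective Y ∧
      ∀ x, {k | k ∈ b ∧ OnBr (chi (code e (ζ i')) (hh j') k) (Y x)}.Infinite := by
  classical
  have := hb.to_subtype
  let f : List Bool → ℕ := fun t => (Nat.nth (· ∈ b) (Encodable.encode t))
  have hfinj : Function.Injective f := by
    intro s t hst
    exact Encodable.encode_injective (Nat.nth_injective hb hst)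
  have hf : FTO f := by
    intro a
    exact (Set.finite_singleton a).preimage hfinj.injOn
  have hfb : ∀ t, f t ∈ b := fun t => Nat.nth_mem_of_infinite hb _
  obtain ⟨i, h, hhf, G, hG, hinj⟩ := exists_inj hΩ ζ hbd e he hf
  have hFTO := hf.le hhf
  choose N hN1 hN2 using fun M => hG.unif M
  let r : ℕ → ℕ := fun M => ∑ k ∈ (List.finite_length_eq Bool (N M)).toFinset, h k
  obtain ⟨j, hj⟩ := hub r
  refine ⟨i, j, G, hinj, fun x => ?_⟩
  have hinf : {M | r M < hh j M}.Infinite := by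
    intro hfin
    obtain ⟨B, hB⟩ := hfin.bddAbove
    obtain ⟨n, hn, hn2⟩ := hj (B + 1)
    have : n ≤ B := hB hn2
    omega
  have hinf2 : ((fun M => br x (N M)) '' {M | r M < hh j M}).Infinite := by
    intro hfin
    obtain ⟨B, hB⟩ := (hfin.image List.length).bddAbove
    apply hinf
    refine (Set.finite_le_nat B).subset ?_
    intro M hM
    have : (br x (N M)).length ≤ B := hB ⟨_, ⟨M, hM, rfl⟩, rfl⟩
    rw [br_length] at this
    exact (hN1 M).trans this
  refine (hFTO.image hinf2).mono ?_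
  rintro _ ⟨_, ⟨M, hM, rfl⟩, rfl⟩
  refine ⟨?_, ?_⟩
  · obtain ⟨φ, _, rfl⟩ := hhf
    exact hfb _
  · apply onBr_chi
    intro m hm
    apply hN2 M m ?_ x _ List.suffix_rfl
    refine lt_of_lt_of_le hm ?_
    rw [lev_le_iff (hmono j)]
    refine lt_of_le_of_lt ?_ (show r M < hh j M from hM)
    refine Finset.single_le_sum (f := h) (fun _ _ => Nat.zero_le _) ?_
    simp

omit hΩ hbd he hmono hub in
lemma exists_split (hL : Lim F h G) (hinj : Function.Injective G) (t : List Bool) (m : ℕ) :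
    ∃ d ≥ m, ∃ (s : List Bool) (u : Bool → List Bool), t <:+ s ∧ (∀ i, (i :: s) <:+ u i) ∧
      ∀ x x', OnBr (u true) x → OnBr (u false) x' → Dl (G x) (G x') d := by
  obtain ⟨n₀, hn₀, hn₀'⟩ := hL.unif' m
  -- a long extension of `t`
  obtain ⟨t', ht', hlen⟩ : ∃ t' : List Bool, t <:+ t' ∧ n₀ ≤ t'.length :=
    ⟨List.replicate n₀ true ++ t, List.suffix_append _ _, by simp⟩
  have hE := Emb.cone t'
  have hthru : ∀ z, OnBr t' (brm (fun s => s ++ t') z) := by
    intro z
    have := brm_spec hE z 0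
    simpa [br] using this
  obtain ⟨x₁, x₂, hx₁, hx₂, hne⟩ : ∃ x₁ x₂, OnBr t' x₁ ∧ OnBr t' x₂ ∧ x₁ ≠ x₂ := by
    refine ⟨_, _, hthru (fun _ => true), hthru (fun _ => false), ?_⟩
    intro e
    have := congrFun (brm_injective hE e) 0
    simp at this
  obtain ⟨s, z, hz, hzs⟩ := branch_split' hne
  have hz3 : ∀ i, OnBr t' (z i) := by
    rcases hz with ⟨h1, h2⟩ | ⟨h1, h2⟩ <;> intro i <;> cases i <;> simp_all
  have hz4 : z true ≠ z false := by
    intro hcon
    have h1 := hzs true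
    rw [hcon, hzs false] at h1
    simp at h1
  have hts : t' <:+ s := by
    have h1 : t'.length ≤ s.length := by
      by_contra hlt
      push Not at hlt
      have h2 := (hz3 true).br_suffix (n := s.length + 1) hlt
      have h3 := (hz3 false).br_suffix (n := s.length + 1) hlt
      rw [hzs] at h2 h3
      exact no_both h2 h3
    have h2 := (hz3 true).suffix_br (n := s.length + 1) (by omega)
    rw [hzs] at h2
    exact suffix_of_suffix_le h2 (List.suffix_cons _ _) h1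
  obtain ⟨d, hd⟩ := exists_Dl (hinj.ne hz4)
  have hdm : m ≤ d := by
    by_contra hlt
    push Not at hlt
    exact hd.2 (hn₀' d hlt _ _ (br_eq_of_onBr (hz3 true) (hz3 false) hlen))
  obtain ⟨n₁, hn₁, hn₁'⟩ := hL.unif' (d + 1)
  refine ⟨d, hdm, s, fun i => br (z i) (max n₁ (s.length + 1)), ht'.trans hts, ?_, ?_⟩
  · intro i
    rw [← hzs i]
    exact br_suffix _ (le_max_right _ _)
  · intro x x' hx hx'
    have key : ∀ (i : Bool) (x : ℕ → Bool), OnBr (br (z i) (max n₁ (s.length + 1))) x →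
        ∀ k < d + 1, G x k = G (z i) k := by
      intro i x hx k hk
      apply hn₁' k hk
      exact br_eq_of_onBr hx (onBr_br _ _) (by simp)
    refine ⟨fun k hk => ?_, ?_⟩
    · rw [key true x hx k (by omega), key false x' hx' k (by omega)]
      exact hd.1 k hk
    · rw [key true x hx d (by omega), key false x' hx' d (by omega)]
      exact hd.2

lemma exists_many_types {f : List Bool → ℕ} (hf : FTO f) :
    ∃ i j i' j', ∃ h, Le h f ∧ ∃ G, Lim (code e (ζ i)) h G ∧ Function.Injective G ∧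
      ∃ Y : (ℕ → Bool) → ℕ → Bool, Function.Injective Y ∧ ∀ x, ∃ φ, Emb φ ∧
        Ty (hh j) (chi (code e (ζ i')) (hh j')) (Y x) (range (G ∘ brm φ)) := by
  classical
  obtain ⟨i, h, hhf, G, hG, hinj⟩ := exists_inj hΩ ζ hbd e he hf
  choose d hd s u hs hu hdl using fun (t : List Bool) (m : ℕ) => exists_split hG hinj t m
  let D : ℕ → ℕ := fun k => 1 + ∑ c ∈ Finset.range (k + 1),
    (Encodable.decode c : Option (List Bool)).elim 0 (fun t => d t k)
  have hD : ∀ t k, Encodable.encode t ≤ k → d t k < D k := by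
    intro t k hk
    have h1 : (Encodable.decode (Encodable.encode t) : Option (List Bool)).elim 0
        (fun t => d t k) ≤ ∑ c ∈ Finset.range (k + 1),
        (Encodable.decode c : Option (List Bool)).elim 0 (fun t => d t k) :=
      Finset.single_le_sum
        (f := fun c => (Encodable.decode c : Option (List Bool)).elim 0 (fun t => d t k))
        (fun _ _ => Nat.zero_le _) (Finset.mem_range.mpr (by omega))
    rw [Encodable.encodek] at h1
    simp only [Option.elim_some] at h1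
    simp only [D]; omega
  obtain ⟨j, hj⟩ := iterate_trick hub D
  obtain ⟨i', j', Y, hY, hY2⟩ := many_branches hΩ ζ hbd e he hmono hub hj
  refine ⟨i, j, i', j', h, hhf, G, hG, hinj, Y, hY, fun x => ?_⟩
  obtain ⟨φ, hφ, hR⟩ := emb_rec' (fun _ u => ∃ n, OnBr (chi (code e (ζ i')) (hh j') n) (Y x) ∧
      ∀ x₁ x₂, OnBr (u true) x₁ → OnBr (u false) x₂ → ∃ d, Dl (G x₁) (G x₂) d ∧
        hh j n ≤ d ∧ d < hh j (n + 1))
    (by
      intro t
      obtain ⟨n, ⟨hn1, hn2⟩, hn3⟩ := (hY2 x).exists_gt (Encodable.encode t)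
      have hle : Encodable.encode t ≤ hh j n := hn3.le.trans ((hmono j).id_le n)
      refine ⟨s t (hh j n), u t (hh j n), hs _ _, hu _ _, n, hn2, fun x₁ x₂ h1 h2 => ?_⟩
      exact ⟨d t (hh j n), hdl _ _ x₁ x₂ h1 h2, hd _ _,
        lt_of_lt_of_le (hD t _ hle) hn1⟩)
  refine ⟨φ, hφ, ?_⟩
  rintro _ ⟨x₁, rfl⟩ _ ⟨x₂, rfl⟩ d' hd'
  have hne : x₁ ≠ x₂ := fun e => hd'.ne (by rw [e])
  obtain ⟨s, z, hz, hzs⟩ := branch_split' hne
  obtain ⟨n, hn1, hn2⟩ := hR s
  obtain ⟨d'', h1, h2, h3⟩ := hn2 (brm φ (z true)) (brm φ (z false))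
    (brm_of_onBr hφ (by unfold OnBr; rw [List.length_cons, hzs]))
    (brm_of_onBr hφ (by unfold OnBr; rw [List.length_cons, hzs]))
  have hdd : d'' = d' := by
    rcases hz with ⟨e1, e2⟩ | ⟨e1, e2⟩
    · rw [e1, e2] at h1; exact h1.unique hd'
    · rw [e1, e2] at h1; exact h1.unique hd'.symm
  subst hdd
  exact ⟨n, h2, h3, hn1⟩

end main

end Pool.Agent.Work.MP_9abc7c_lc
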